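import Mathlib

/-!
Interface A2 -> BB of PROJECT GLn: a `Γ`-poset with degree `nu`, bounded pairs `bd` and
the bottom toggle `psi` (the properties (p1) - (p6) of note 3590).
-/

set_option autoImplicit false

namespace Pool.Agent.GLA

/-- A poset `P` with an additive degree `nu`, a relation `bd y x` (`y ≤ x` bounded) and the
toggle `psi l x` (for `l ≤ x`). -/
class TogglePoset (P : Type) extends PartialOrder P where
  /-- the degree of a pair `x ≤ y` -/
  nu : P → P → ℕ
  nu_add : ∀ x y z : P, x ≤ y → y ≤ z → nu x z = nu x y + nu y z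
  eq_of_nu : ∀ x y : P, x ≤ y → nu x y = 0 → x = y
  /-- `bd y x`: `y ≤ x` and the pair is bounded -/
  bd : P → P → Prop
  /-- the bound -/
  bnd : ℕ
  bd_le : ∀ y x : P, bd y x → y ≤ x
  bd_refl : ∀ x : P, bd x x
  bd_face : ∀ y y' x' x : P, y ≤ y' → y' ≤ x' → x' ≤ x → bd y x → bd y' x'
  bd_nu : ∀ y x : P, bd y x → nu y x ≤ bnd
  /-- the toggle: `psi l x` -/
  psi : P → P → P
  le_psi : ∀ l x : P, l ≤ x → l ≤ psi l x
  psi_le : ∀ l x : P, l ≤ x → psi l x ≤ x
  eq_of_psi : ∀ l x : P, l ≤ x → psi l x = x → x = l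
  psi_mono : ∀ l x y : P, l ≤ x → x ≤ y → psi l x ≤ psi l y
  bd_psi : ∀ l x : P, l ≤ x → bd (psi l x) x
  psi_bd : ∀ l y x : P, l ≤ y → bd y x → psi l x ≤ y

/-- A group acting on a toggle poset. -/
class ToggleAct (G P : Type) [Group G] [TogglePoset P] extends MulAction G P where
  smul_mono : ∀ (g : G) (x y : P), x ≤ y → g • x ≤ g • y
  nu_smul : ∀ (g : G) (x y : P), x ≤ y → TogglePoset.nu (g • x) (g • y) = TogglePoset.nu x y
  bd_smul : ∀ (g : G) (y x : P), TogglePoset.bd y x → TogglePoset.bd (g • y) (g • x)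
  psi_smul : ∀ (g : G) (l x : P), l ≤ x →
    TogglePoset.psi (g • l) (g • x) = g • TogglePoset.psi l x

namespace TogglePoset

variable {P : Type} [TogglePoset P]

theorem nu_self (x : P) : nu x x = 0 := by
  have := nu_add x x x le_rfl le_rfl
  omega

theorem nu_pos {x y : P} (h : x < y) : 0 < nu x y := by
  rcases Nat.eq_zero_or_pos (nu x y) with h0 | h0
  · exact absurd (eq_of_nu x y h.le h0) h.ne
  · exact h0

theorem nu_lt_left {x y z : P} (h : x < y) (h' : y ≤ z) : nu y z < nu x z := by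
  have := nu_add x y z h.le h'
  have := nu_pos h
  omega

theorem nu_lt_right {x y z : P} (h : x ≤ y) (h' : y < z) : nu x y < nu x z := by
  have := nu_add x y z h h'.le
  have := nu_pos h'
  omega

theorem psi_self (l : P) : psi l l = l := le_antisymm (psi_le l l le_rfl) (le_psi l l le_rfl)

theorem psi_lt {l x : P} (h : l < x) : psi l x < x :=
  lt_of_le_of_ne (psi_le l x h.le) fun h' => h.ne' (eq_of_psi l x h.le h')

end TogglePoset

namespace ToggleAct

open TogglePoset

variable {G P : Type} [Group G] [TogglePoset P] [ToggleAct G P]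

theorem smul_le_iff (g : G) (x y : P) : g • x ≤ g • y ↔ x ≤ y := by
  refine ⟨fun h => ?_, smul_mono g x y⟩
  have := smul_mono g⁻¹ (g • x) (g • y) h
  rwa [inv_smul_smul, inv_smul_smul] at this

theorem bd_smul_iff (g : G) (y x : P) : bd (g • y) (g • x) ↔ bd y x := by
  refine ⟨fun h => ?_, bd_smul g y x⟩
  have := bd_smul g⁻¹ (g • y) (g • x) h
  rwa [inv_smul_smul, inv_smul_smul] at this

end ToggleAct

end Pool.Agent.GLA
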