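import Pool.Agent.Lib.MP_8f66f0_al_GLA.Rank

/-! Hulls, equivariance of the labels, exhausting sequences of admissible sets, finiteness of the set
of cells inside an admissible set, labels supported on the same cell. -/

set_option autoImplicit false

namespace Pool.Agent.GLA

open scoped Pointwise

section
variable {M : Type} [ShL M]

/-! ### Hulls -/

lemma subset_hull (X s : Set M) : s ⊆ hull X s := fun _ h => Or.inr (Or.inl h)

lemma hull_mono {X X' : Set M} (h : X ⊆ X') (s : Set M) : hull X s ⊆ hull X' s := by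
  rintro x (h1 | h1 | ⟨l, hl, c, hc, h1⟩)
  · exact Or.inl (h h1)
  · exact Or.inr (Or.inl h1)
  · exact Or.inr (Or.inr ⟨l, hl, c, h hc, h1⟩)

lemma hull_trans {X s t u : Set M} (hX : ∀ a ∈ X, ∀ b ∈ X, a ⊔ b ∈ X) (h : t ⊆ hull X s)
    (h2 : u ⊆ hull X t) : u ⊆ hull X s := by
  intro x hx
  rcases h2 hx with h1 | h1 | ⟨l, hl, c, hc, h1⟩
  · exact Or.inl h1
  · exact h h1
  · rcases h hl with h3 | h3 | ⟨l', hl', c', hc', h3⟩
    · exact Or.inl (by rw [h1]; exact hX _ h3 _ hc)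
    · exact Or.inr (Or.inr ⟨l, h3, c, hc, h1⟩)
    · refine Or.inr (Or.inr ⟨l', hl', c' ⊔ c, hX _ hc' _ hc, ?_⟩)
      rw [h1, h3, sup_assoc]

lemma subset_gen (B : Set M) : B ⊆ gen B := fun _ hx _ _ _ h => h hx

lemma gen_le {B X : Set M} (hX : ShSt X) (hs : ∀ a ∈ X, ∀ b ∈ X, a ⊔ b ∈ X) (h : B ⊆ X) :
    gen B ⊆ X := fun _ hx => hx X hX hs h

lemma gen_adm {B : Set M} (hB : B.Nonempty) : Adm (gen B) where
  ne := hB.mono (subset_gen B)
  st := by
    intro a
    constructor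
    · intro h X h1 h2 h3
      exact (h1 a).1 (h X h1 h2 h3)
    · intro h X h1 h2 h3
      exact (h1 a).2 (h X h1 h2 h3)
  sup := fun a ha b hb X h1 h2 h3 => h2 a (ha X h1 h2 h3) b (hb X h1 h2 h3)

/-! ### Exhaustion -/

lemma ht_zpow' (k : ℤ) (a : M) : ht ((shE M ^ k) a) = ht a - k * per M := by
  have h : (shP M ^ k) (a, a) = ((shE M ^ k) a, (shE M ^ k) a) := by
    induction k using Int.induction_on with
    | zero => simp
    | succ i ih =>
      rw [add_comm, zpow_add, zpow_one, Equiv.Perm.mul_apply, ih, zpow_add, zpow_one,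
        Equiv.Perm.mul_apply]
      rfl
    | pred i ih =>
      rw [sub_eq_add_neg, add_comm, zpow_add, zpow_neg_one, Equiv.Perm.mul_apply, ih, zpow_add,
        zpow_neg_one, Equiv.Perm.mul_apply]
      rfl
  have := (ht_zpow k (a, a)).1
  rw [h] at this
  exact this

lemma ShSt.zpow {s : Set M} (h : ShSt s) (k : ℤ) (a : M) : (shE M ^ k) a ∈ s ↔ a ∈ s := by
  induction k using Int.induction_on with
  | zero => simp
  | succ i ih =>
    rw [add_comm, zpow_add, zpow_one, Equiv.Perm.mul_apply, shE_apply, h, ih]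
  | pred i ih =>
    rw [sub_eq_add_neg, add_comm, zpow_add, zpow_neg_one, Equiv.Perm.mul_apply, shE_inv_apply,
      h.shi, ih]

lemma zpow_sup (k : ℤ) (a b : M) :
    (shE M ^ k) (a ⊔ b) = (shE M ^ k) a ⊔ (shE M ^ k) b := by
  induction k using Int.induction_on with
  | zero => simp
  | succ i ih =>
    rw [add_comm, zpow_add, zpow_one]
    simp only [Equiv.Perm.mul_apply, ih, shE_apply, sh_sup]
  | pred i ih =>
    rw [sub_eq_add_neg, add_comm, zpow_add, zpow_neg_one]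
    simp only [Equiv.Perm.mul_apply, ih, shE_inv_apply, shi_sup]

lemma zpow_mono (k : ℤ) {a b : M} (h : a ≤ b) : (shE M ^ k) a ≤ (shE M ^ k) b := by
  have := zpow_sup k a b
  rw [sup_eq_right.2 h] at this
  rw [this]
  exact le_sup_left

lemma zpow_anti {j k : ℤ} (h : j ≤ k) (a : M) : (shE M ^ k) a ≤ (shE M ^ j) a := by
  obtain ⟨n, rfl⟩ := Int.le.dest h
  rw [add_comm, zpow_add, Equiv.Perm.mul_apply]
  generalize (shE M ^ j) a = c
  rw [zpow_natCast]
  clear h
  induction n with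
  | zero => exact le_rfl
  | succ n ih =>
    rw [pow_succ', Equiv.Perm.mul_apply, shE_apply]
    exact (ShL.sh_le _).trans ih

lemma arch' (a b : M) : ∃ k : ℤ, (shE M ^ k) a ≤ b := by
  obtain ⟨k, hk⟩ := ShL.arch a b
  refine ⟨k, ?_⟩
  rw [zpow_natCast]
  have : ∀ (k : ℕ) (a : M), (shE M ^ k) a = sh^[k] a := by
    intro k
    induction k with
    | zero => intro a; rfl
    | succ k ih =>
      intro a
      rw [pow_succ, Equiv.Perm.mul_apply, ih, shE_apply, Function.iterate_succ_apply]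
  rw [this]
  exact hk

lemma arch'' (a b : M) : ∃ k : ℤ, b ≤ (shE M ^ k) a := by
  obtain ⟨k, hk⟩ := arch' b a
  refine ⟨-k, ?_⟩
  have := zpow_mono (-k) hk
  rwa [← Equiv.Perm.mul_apply, ← zpow_add, neg_add_cancel, zpow_zero, Equiv.Perm.one_apply] at this

/-- Finitely many orbits of the shift. -/
def FOrb (X : Set M) : Prop := ∃ E : Finset M, ∀ y ∈ X, ∃ e ∈ E, ∃ j : ℤ, y = (shE M ^ j) e

lemma FOrb.wfin {X : Set M} (h : FOrb X) : WFin X := by
  classical
  obtain ⟨E, hE⟩ := h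
  have hp : (0 : ℤ) < per M := by exact_mod_cast ShL.per_pos
  apply (E.image fun e => (shE M ^ (ht e / (per M : ℤ))) e).finite_toSet.subset
  rintro y ⟨hy, h0, h1⟩
  obtain ⟨e, he, j, rfl⟩ := hE y hy
  rw [Finset.mem_coe, Finset.mem_image]
  refine ⟨e, he, ?_⟩
  rw [ht_zpow'] at h0 h1
  have : ht e / (per M : ℤ) = j := by
    rw [Int.ediv_eq_iff_of_pos hp]
    constructor <;> nlinarith
  rw [this]

lemma WFin.forb {X : Set M} (hX : ShSt X) (h : WFin X) : FOrb X := by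
  refine ⟨h.toFinset, fun y hy => ?_⟩
  have hp : (0 : ℤ) < per M := by exact_mod_cast ShL.per_pos
  refine ⟨(shE M ^ (ht y / (per M : ℤ))) y, ?_, -(ht y / (per M : ℤ)), ?_⟩
  · rw [Set.Finite.mem_toFinset]
    refine ⟨(hX.zpow _ _).2 hy, ?_⟩
    rw [ht_zpow']
    have h1 := Int.emod_nonneg (ht y) hp.ne'
    have h2 := Int.emod_lt_of_pos (ht y) hp
    have h3 := Int.emod_add_mul_ediv (ht y) (per M : ℤ)
    constructor <;> nlinarith
  · rw [← Equiv.Perm.mul_apply, ← zpow_add, neg_add_cancel, zpow_zero, Equiv.Perm.one_apply]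

/-- Adding one element to an admissible set. -/
def ext1 (X : Set M) (b : M) : Set M :=
  {x | x ∈ X ∨ (∃ k : ℤ, x = (shE M ^ k) b) ∨ ∃ y ∈ X, ∃ k : ℤ, x = y ⊔ (shE M ^ k) b}

lemma zpow_sup_zpow (b : M) (j k : ℤ) :
    (shE M ^ j) b ⊔ (shE M ^ k) b = (shE M ^ (min j k)) b := by
  rcases le_total j k with h | h
  · rw [min_eq_left h]
    exact sup_eq_left.2 (zpow_anti h b)
  · rw [min_eq_right h]
    exact sup_eq_right.2 (zpow_anti h b)

lemma ext1_adm {X : Set M} (hX : Adm X) (b : M) : Adm (ext1 X b) where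
  ne := hX.ne.mono fun _ h => Or.inl h
  st := by
    have key : ∀ (a : M) (i : ℤ), a ∈ ext1 X b → (shE M ^ i) a ∈ ext1 X b := by
      rintro a i (h | ⟨k, rfl⟩ | ⟨y, hy, k, rfl⟩)
      · exact Or.inl ((hX.st.zpow _ _).2 h)
      · exact Or.inr (Or.inl ⟨i + k, by rw [zpow_add, Equiv.Perm.mul_apply]⟩)
      · exact Or.inr (Or.inr ⟨(shE M ^ i) y, (hX.st.zpow _ _).2 hy, i + k, by
          rw [zpow_sup, zpow_add, Equiv.Perm.mul_apply]⟩)
    intro a
    constructor
    · intro h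
      have := key _ (-1) h
      rwa [zpow_neg_one, shE_inv_apply, ShL.shi_sh] at this
    · intro h
      have := key _ 1 h
      rwa [zpow_one, shE_apply] at this
  sup := by
    rintro a (h | ⟨k, rfl⟩ | ⟨y, hy, k, rfl⟩) a' (h' | ⟨k', rfl⟩ | ⟨y', hy', k', rfl⟩)
    · exact Or.inl (hX.sup _ h _ h')
    · exact Or.inr (Or.inr ⟨a, h, k', rfl⟩)
    · exact Or.inr (Or.inr ⟨a ⊔ y', hX.sup _ h _ hy', k', by rw [sup_assoc]⟩)
    · exact Or.inr (Or.inr ⟨a', h', k, by rw [sup_comm]⟩)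
    · exact Or.inr (Or.inl ⟨min k k', zpow_sup_zpow b k k'⟩)
    · refine Or.inr (Or.inr ⟨y', hy', min k k', ?_⟩)
      rw [← zpow_sup_zpow, sup_left_comm]
    · exact Or.inr (Or.inr ⟨y ⊔ a', hX.sup _ hy _ h', k, by rw [sup_right_comm]⟩)
    · refine Or.inr (Or.inr ⟨y, hy, min k k', ?_⟩)
      rw [← zpow_sup_zpow, sup_assoc]
    · refine Or.inr (Or.inr ⟨y ⊔ y', hX.sup _ hy _ hy', min k k', ?_⟩)
      rw [← zpow_sup_zpow, sup_sup_sup_comm]

lemma ext1_forb {X : Set M} (hX : FOrb X) (b : M) : FOrb (ext1 X b) := by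
  classical
  obtain ⟨E, hE⟩ := hX
  choose lo hlo using fun e : M => arch' b e
  choose hi hhi using fun e : M => arch'' b e
  refine ⟨E ∪ {b} ∪ E.biUnion fun e => (Finset.Icc (hi e) (lo e)).image
    fun k => e ⊔ (shE M ^ k) b, ?_⟩
  rintro x (h | ⟨k, rfl⟩ | ⟨y, hy, k, rfl⟩)
  · obtain ⟨e, he, j, rfl⟩ := hE x h
    exact ⟨e, by simp [he], j, rfl⟩
  · exact ⟨b, by simp, k, rfl⟩
  · obtain ⟨e, he, j, rfl⟩ := hE y hy
    have e1 : (shE M ^ j) e ⊔ (shE M ^ k) b = (shE M ^ j) (e ⊔ (shE M ^ (k - j)) b) := by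
      rw [zpow_sup, ← Equiv.Perm.mul_apply, ← zpow_add]
      congr 3
      ring
    rw [e1]
    rcases le_or_gt (lo e) (k - j) with h1 | h1
    · refine ⟨e, by simp [he], j, ?_⟩
      congr 1
      exact sup_eq_left.2 ((zpow_anti h1 b).trans (hlo e))
    rcases le_or_gt (k - j) (hi e) with h2 | h2
    · refine ⟨b, by simp, j + (k - j), ?_⟩
      rw [zpow_add, Equiv.Perm.mul_apply]
      congr 1
      exact sup_eq_right.2 ((hhi e).trans (zpow_anti h2 b))
    · refine ⟨e ⊔ (shE M ^ (k - j)) b, ?_, j, rfl⟩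
      rw [Finset.mem_union, Finset.mem_biUnion]
      right
      exact ⟨e, he, Finset.mem_image.2 ⟨k - j, Finset.mem_Icc.2 ⟨h2.le, h1.le⟩, rfl⟩⟩

/-- The orbit of one element. -/
lemma orb_adm (b : M) : Adm {x : M | ∃ k : ℤ, x = (shE M ^ k) b} where
  ne := ⟨b, 0, by simp⟩
  st := by
    intro a
    constructor
    · rintro ⟨k, h⟩
      refine ⟨-1 + k, ?_⟩
      rw [zpow_add, Equiv.Perm.mul_apply, ← h, zpow_neg_one, shE_inv_apply, ShL.shi_sh]
    · rintro ⟨k, h⟩
      refine ⟨1 + k, ?_⟩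
      rw [zpow_add, Equiv.Perm.mul_apply, ← h, zpow_one, shE_apply]
  sup := by
    rintro _ ⟨j, rfl⟩ _ ⟨k, rfl⟩
    exact ⟨min j k, zpow_sup_zpow b j k⟩

/-- There is an exhausting sequence. -/
theorem exists_exh [Countable M] [Nonempty M] : ∃ X : ℕ → Set M,
    (∀ h, Adm (X h)) ∧ (∀ h, WFin (X h)) ∧ Monotone X ∧ ∀ a : M, ∃ h, a ∈ X h := by
  obtain ⟨f, hf⟩ := exists_surjective_nat M
  let X : ℕ → Set M := fun h => Nat.rec {x : M | ∃ k : ℤ, x = (shE M ^ k) (f 0)}
    (fun n Y => ext1 Y (f n)) h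
  have hX0 : X 0 = {x : M | ∃ k : ℤ, x = (shE M ^ k) (f 0)} := rfl
  have hXs : ∀ n, X (n + 1) = ext1 (X n) (f n) := fun n => rfl
  have hA : ∀ h, Adm (X h) := by
    intro h
    induction h with
    | zero => rw [hX0]; exact orb_adm _
    | succ n ih => rw [hXs]; exact ext1_adm ih _
  have hF : ∀ h, FOrb (X h) := by
    intro h
    induction h with
    | zero =>
      rw [hX0]
      refine ⟨{f 0}, ?_⟩
      rintro y ⟨k, hk⟩
      exact ⟨f 0, by simp, k, hk⟩
    | succ n ih => rw [hXs]; exact ext1_forb ih _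
  refine ⟨X, hA, fun h => (hF h).wfin, monotone_nat_of_le_succ fun n => ?_, fun a => ?_⟩
  · rw [hXs]
    exact fun x hx => Or.inl hx
  · obtain ⟨n, rfl⟩ := hf a
    exact ⟨n + 1, by rw [hXs]; exact Or.inr (Or.inl ⟨0, by simp⟩)⟩

/-- A stable set with finitely many elements modulo the shift lies in some `X h`. -/
lemma exh_sub {X : ℕ → Set M} (hA : ∀ h, Adm (X h)) (hm : Monotone X)
    (hex : ∀ a : M, ∃ h, a ∈ X h) {Y : Set M} (hY : ShSt Y) (hW : WFin Y) : ∃ h, Y ⊆ X h := by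
  classical
  obtain ⟨E, hE⟩ := hW.forb hY
  choose n hn using hex
  refine ⟨E.sup n, fun y hy => ?_⟩
  obtain ⟨e, he, j, rfl⟩ := hE y hy
  rw [(hA _).st.zpow]
  exact hm (Finset.le_sup he) (hn e)

/-- Finitely many cells inside a set with finitely many elements modulo the shift. -/
lemma cells_fin {X : Set M} (hW : WFin X) : {σ : Cell M | σ.s ⊆ X}.Finite := by
  have hinj : Set.InjOn (fun σ : Cell M => {x | x ∈ σ.s ∧ 0 ≤ ht x ∧ ht x < per M})
      {σ : Cell M | σ.s ⊆ X} := by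
    have key : ∀ σ τ : Cell M, {x | x ∈ σ.s ∧ 0 ≤ ht x ∧ ht x < per M} =
        {x | x ∈ τ.s ∧ 0 ≤ ht x ∧ ht x < per M} → σ.s ⊆ τ.s := by
      intro σ τ h x hx
      have hp : (0 : ℤ) < per M := by exact_mod_cast ShL.per_pos
      have h1 : (shE M ^ (ht x / (per M : ℤ))) x ∈
          {x | x ∈ σ.s ∧ 0 ≤ ht x ∧ ht x < per M} := by
        refine ⟨(σ.st.zpow _ _).2 hx, ?_⟩
        rw [ht_zpow']
        have h1 := Int.emod_nonneg (ht x) hp.ne'
        have h2 := Int.emod_lt_of_pos (ht x) hp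
        have h3 := Int.emod_add_mul_ediv (ht x) (per M : ℤ)
        constructor <;> nlinarith
      rw [h] at h1
      exact (τ.st.zpow _ _).1 h1.1
    intro σ _ τ _ h
    exact Cell.ext (Set.Subset.antisymm (key σ τ h) (key τ σ h.symm))
  apply Set.Finite.of_finite_image _ hinj
  apply hW.finite_subsets.subset
  rintro _ ⟨σ, hσ, rfl⟩ x hx
  exact ⟨hσ hx.1, hx.2⟩

/-! ### Labels supported on a cell -/

/-- The set of pairs `P` is supported on the set `s`. -/
def Supp (P : Set (M × M)) (s : Set M) : Prop :=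
  ∀ p ∈ P, p.2 ∈ s ∧ ∀ a ∈ s, a < p.2 → a ≤ p.1

lemma lab_supp (X s : Set M) : Supp (lab X s) s := by
  rintro p ⟨h1, h2, l, c, h3, h4, h5⟩
  refine ⟨h1, fun a ha hlt => ?_⟩
  rw [h5]
  exact (h3.2 ⟨ha, hlt⟩).trans le_sup_left

/-- E8: comparable labels supported on the same chain are equal. -/
lemma supp_eq {P Q : Set (M × M)} (hP : PGood P) (hQ : PGood Q) {s : Set M} (h1 : Supp P s)
    (h2 : Supp Q s) (h : Up P Q) (hr : rk P = rk Q) : P = Q := by
  classical
  have hsub : Q ⊆ P := by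
    intro q hq
    obtain ⟨p, hp, e1, e2⟩ := h q hq
    have hle : p.2 ≤ q.2 := by rw [← e1]; exact le_sup_left
    have hF : p.2 = q.2 := by
      by_contra hne
      have h3 := (h2 q hq).2 _ (h1 p hp).1 (lt_of_le_of_ne hle hne)
      rw [sup_eq_right.2 h3] at e1
      exact (hQ.lt q hq).ne e1
    have hU : p.1 = q.1 := by
      rw [← e2, hF]
      exact inf_eq_right.2 (hQ.lt q hq).le
    have : q = p := Prod.ext hU.symm hF.symm
    rw [this]
    exact hp
  refine Set.Subset.antisymm ?_ hsub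
  intro p hp
  by_contra hnot
  rw [rk_eq P hP.fin, rk_eq Q hQ.fin] at hr
  have h3 : hQ.fin.toFinset ⊆ hP.fin.toFinset := by
    intro q hq
    rw [Set.Finite.mem_toFinset] at hq ⊢
    exact ⟨hsub hq.1, hq.2⟩
  have h4 : rep p ∈ hP.fin.toFinset := by
    rw [Set.Finite.mem_toFinset]
    exact ⟨(hP.st.zpow _ _).2 hp, rep_win p⟩
  have h5 : rep p ∉ hQ.fin.toFinset := by
    rw [Set.Finite.mem_toFinset]
    intro h6
    exact hnot ((hQ.st.zpow _ _).1 h6.1)
  have h6 := Finset.sum_lt_sum_of_subset h3 h4 h5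
    (wt_pos (hP.lt _ ((hP.st.zpow _ _).2 hp))) (fun _ _ _ => Nat.zero_le _)
  omega

end

section
variable {Γ M : Type} [Group Γ] [ShL M] [ShAct Γ M]

lemma hull_smul (g : Γ) (X s : Set M) : hull (g • X) (g • s) = g • hull X s := by
  ext x
  rw [Set.mem_smul_set_iff_inv_smul_mem]
  unfold hull
  simp only [Set.mem_setOf_eq, Set.mem_smul_set_iff_inv_smul_mem]
  constructor
  · rintro (h | h | ⟨l, hl, c, hc, h⟩)
    · exact Or.inl h
    · exact Or.inr (Or.inl h)
    · exact Or.inr (Or.inr ⟨_, hl, _, hc, by rw [h, smul_sup]⟩)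
  · rintro (h | h | ⟨l, hl, c, hc, h⟩)
    · exact Or.inl h
    · exact Or.inr (Or.inl h)
    · refine Or.inr (Or.inr ⟨g • l, by rwa [inv_smul_smul], g • c, by rwa [inv_smul_smul], ?_⟩)
      rw [← smul_sup, ← h, smul_inv_smul]

lemma isGreatest_smul (g : Γ) {S : Set M} {l : M} (h : IsGreatest S l) :
    IsGreatest (g • S) (g • l) := by
  refine ⟨Set.smul_mem_smul_set h.1, fun a ha => ?_⟩
  rw [Set.mem_smul_set_iff_inv_smul_mem] at ha
  have := (smul_le_iff g _ _).2 (h.2 ha)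
  rwa [smul_inv_smul] at this

lemma lab_smul_sub (g : Γ) (X s : Set M) : g • lab X s ⊆ lab (g • X) (g • s) := by
  rintro _ ⟨p, ⟨h1, h2, l, c, h3, h4, h5⟩, rfl⟩
  refine ⟨Set.smul_mem_smul_set h1, ?_, g • l, g • c, ?_, ?_, ?_⟩
  · intro h
    exact h2 (smul_left_cancel g h)
  · have := isGreatest_smul g h3
    convert this using 1
    ext a
    simp only [Set.mem_setOf_eq, Set.mem_smul_set_iff_inv_smul_mem]
    refine and_congr_right fun _ => ?_
    rw [← smul_lt_iff g⁻¹, Prod.smul_snd, inv_smul_smul]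
  · have := isGreatest_smul g h4
    convert this using 1
    ext a
    simp only [Set.mem_setOf_eq, Set.mem_smul_set_iff_inv_smul_mem]
    refine and_congr_right fun _ => ?_
    rw [← smul_le_iff g⁻¹, Prod.smul_snd, inv_smul_smul]
  · show (g • p).1 = _
    rw [Prod.smul_fst, h5, smul_sup]

lemma lab_smul (g : Γ) (X s : Set M) : lab (g • X) (g • s) = g • lab X s := by
  refine Set.Subset.antisymm ?_ (lab_smul_sub g X s)
  have h := lab_smul_sub g⁻¹ (g • X) (g • s)
  rw [inv_smul_smul, inv_smul_smul] at h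
  rw [← Set.smul_set_subset_smul_set_iff (a := g⁻¹), inv_smul_smul]
  exact h

lemma adm_smul (g : Γ) {X : Set M} (h : Adm X) : Adm (g • X) where
  ne := h.ne.smul_set
  st := by
    intro a
    rw [Set.mem_smul_set_iff_inv_smul_mem, Set.mem_smul_set_iff_inv_smul_mem, ShAct.smul_sh]
    exact h.st _
  sup := by
    intro a ha b hb
    rw [Set.mem_smul_set_iff_inv_smul_mem] at ha hb ⊢
    rw [smul_sup]
    exact h.sup _ ha _ hb

lemma wfin_smul (g : Γ) {X : Set M} (h : WFin X) : WFin (g • X) := by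
  have : {x | x ∈ g • X ∧ 0 ≤ ht x ∧ ht x < per M} =
      (fun a => g • a) '' {x | x ∈ X ∧ 0 ≤ ht x ∧ ht x < per M} := by
    ext x
    constructor
    · rintro ⟨⟨y, hy, rfl⟩, h1⟩
      simp only [ShAct.ht_smul] at h1
      exact ⟨y, ⟨hy, h1⟩, rfl⟩
    · rintro ⟨y, ⟨hy, h1⟩, rfl⟩
      simp only
      exact ⟨Set.smul_mem_smul_set hy, by rw [ShAct.ht_smul]; exact h1⟩
  show Set.Finite _
  rw [this]
  exact Set.Finite.image _ h

/-- Translates of the members of an exhausting sequence. -/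
lemma exh_smul {X : ℕ → Set M} (hA : ∀ h, Adm (X h)) (hW : ∀ h, WFin (X h)) (hm : Monotone X)
    (hex : ∀ a : M, ∃ h, a ∈ X h) (g : Γ) (h' : ℕ) : ∃ h, g • X h' ⊆ X h :=
  exh_sub hA hm hex (adm_smul g (hA h')).st (wfin_smul g (hW h'))

end

end Pool.Agent.GLA
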