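import Pool.Agent.Lib.MP_8f66f0_al_GLA.Rank

/-! The rank decreases under inward moves, and labels of equal rank are related by
perspectivities. -/

set_option autoImplicit false

namespace Pool.Agent.GLA

variable {M : Type} [ShL M]

/-- The gap relation: the pair `p` lies in the gap below the pair `q` of a chain `s`. -/
def Gap (s : Set M) (q p : M × M) : Prop :=
  p.2 ≤ q.2 ∧ ∀ l, IsGreatest {a | a ∈ s ∧ a < q.2} l → ¬ p.2 ≤ l

lemma hull_mem {X : Set M} (hX : Adm X) {s : Set M} {F c : M}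
    (hF : F ∈ hull X s) (hc : IsGreatest {a | a ∈ X ∧ a ≤ F} c) (hne : c ≠ F) :
    ∃ L ∈ s, L ≤ F ∧ L ⊔ c = F := by
  rcases hF with h | h | ⟨L, hL, c', hc', h⟩
  · exact absurd (le_antisymm hc.1.2 (hc.2 ⟨h, le_rfl⟩)) hne
  · exact ⟨F, h, le_rfl, sup_eq_left.2 hc.1.2⟩
  · have h1 : L ≤ F := by rw [h]; exact le_sup_left
    have h2 : c' ≤ F := by rw [h]; exact le_sup_right
    refine ⟨L, hL, h1, le_antisymm (sup_le h1 hc.1.2) ?_⟩
    conv_lhs => rw [h]
    exact sup_le le_sup_left ((hc.2 ⟨hc', h2⟩).trans le_sup_right)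

section
variable {X : Set M} (hX : Adm X) (σ τ : Cell M) (h : τ.s ⊆ hull X σ.s)

include hX in
/-- Sum estimate along the chain. -/
lemma gap_sum {q : M × M} {l' c' : M} (hU : q.1 = l' ⊔ c')
    (hc' : IsGreatest {a | a ∈ X ∧ a ≤ q.2} c') :
    ∀ (n : ℕ) (L : M), L ∈ σ.s → L ≤ q.2 → ∀ L1, L1 ∈ σ.s → L1 ≤ l' → (ht L - ht L1).toNat ≤ n →
      ∀ A : Finset (M × M), (∀ p, p ∈ lab X σ.s → p.2 ≤ L → ¬ p.2 ≤ l' → p ∈ A) →
      (∀ p ∈ A, p.1 ≤ p.2) →
      ht (L ⊔ q.1) - ht q.1 ≤ ∑ p ∈ A, (ht p.2 - ht p.1) := by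
  classical
  intro n
  induction n with
  | zero =>
    intro L hL hLq L1 hL1 hL1l hn A hA hA2
    have h0 : (0 : ℤ) ≤ ∑ p ∈ A, (ht p.2 - ht p.1) :=
      Finset.sum_nonneg fun p hp => by have := ht_le (hA2 p hp); linarith
    have hLL : L ≤ L1 := by
      rcases σ.ch _ hL _ hL1 with h1 | h1
      · exact h1
      · exact (eq_of_ht h1 (by omega)).ge
    have : L ⊔ q.1 = q.1 := sup_eq_right.2 (by rw [hU]; exact (hLL.trans hL1l).trans le_sup_left)
    rw [this]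
    linarith
  | succ n ih =>
    intro L hL hLq L1 hL1 hL1l hn A hA hA2
    have h0 : (0 : ℤ) ≤ ∑ p ∈ A, (ht p.2 - ht p.1) :=
      Finset.sum_nonneg fun p hp => by have := ht_le (hA2 p hp); linarith
    by_cases hLl : L ≤ l'
    · have : L ⊔ q.1 = q.1 := sup_eq_right.2 (by rw [hU]; exact hLl.trans le_sup_left)
      rw [this]
      linarith
    have hlt : L1 < L := by
      rcases σ.ch _ hL _ hL1 with h1 | h1
      · exact absurd (h1.trans hL1l) hLl
      · exact lt_of_le_of_ne h1 (fun e => hLl (by rw [← e]; exact hL1l))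
    obtain ⟨l, c, hl, hc, hor⟩ := lab_or hX σ hL
    have hll := ShL.ht_lt _ _ hl.1.2
    have hcc : c ≤ q.1 := by
      rw [hU]
      exact (hc'.2 ⟨hc.1.1, hc.1.2.trans hLq⟩).trans le_sup_right
    have hn' : (ht l - ht L1).toNat ≤ n := by omega
    -- the step
    have hstep : ht (L ⊔ q.1) - ht (l ⊔ q.1) ≤ ht L - ht (l ⊔ c) := by
      have e1 := ShL.ht_mod L (l ⊔ q.1)
      have e2 : L ⊔ (l ⊔ q.1) = L ⊔ q.1 := by
        rw [← sup_assoc, sup_eq_left.2 hl.1.2.le]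
      rw [e2] at e1
      have e3 : l ⊔ c ≤ L ⊓ (l ⊔ q.1) :=
        le_inf (sup_le hl.1.2.le hc.1.2) (sup_le le_sup_left (hcc.trans le_sup_right))
      have := ht_le e3
      linarith
    rcases hor with hor | hor
    · have hmem : (l ⊔ c, L) ∈ A := hA _ hor le_rfl hLl
      have h1 := ih l hl.1.1 (hl.1.2.le.trans hLq) L1 hL1 hL1l hn' (A.erase (l ⊔ c, L)) ?_ ?_
      · rw [← Finset.add_sum_erase A _ hmem]
        simp only at hstep ⊢
        linarith
      · intro p hp hpl hpn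
        rw [Finset.mem_erase]
        refine ⟨?_, hA p hp (hpl.trans hl.1.2.le) hpn⟩
        rintro rfl
        exact absurd hpl (not_le_of_gt hl.1.2)
      · intro p hp
        exact hA2 p (Finset.mem_of_mem_erase hp)
    · have h1 := ih l hl.1.1 (hl.1.2.le.trans hLq) L1 hL1 hL1l hn' A ?_ hA2
      · rw [hor] at hstep
        linarith
      · intro p hp hpl hpn
        exact hA p hp (hpl.trans hl.1.2.le) hpn

include hX h in
lemma gap_key {q : M × M} (hq : q ∈ lab X τ.s) :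
    ∃ l' c' : M, IsGreatest {a | a ∈ τ.s ∧ a < q.2} l' ∧ IsGreatest {a | a ∈ X ∧ a ≤ q.2} c' ∧
      q.1 = l' ⊔ c' ∧ (∃ L1 ∈ σ.s, L1 ≤ l') ∧
      (∃ L ∈ σ.s, L ≤ q.2 ∧ L ⊔ c' = q.2) := by
  obtain ⟨h1, h2, l', c', h3, h4, h5⟩ := hq
  have hne : c' ≠ q.2 := by
    rintro rfl
    apply h2
    rw [h5]
    exact sup_eq_right.2 h3.1.2.le
  obtain ⟨L, hL, hLF, hLc⟩ := hull_mem hX (h h1) h4 hne
  obtain ⟨L1, hL1, hL1l⟩ := exists_below ⟨L, hL⟩ σ.st l'
  exact ⟨l', c', h3, h4, h5, ⟨L1, hL1, hL1l⟩, L, hL, hLF, hLc⟩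

include hX h in
lemma gap_fin {q : M × M} (hq : q ∈ lab X τ.s) : {p | p ∈ lab X σ.s ∧ Gap τ.s q p}.Finite := by
  obtain ⟨l', c', h3, h4, h5, ⟨L1, hL1, hL1l⟩, -⟩ := gap_key hX σ τ h hq
  apply (lab_fin (X := X) σ (ht L1) (ht q.2)).subset
  rintro p ⟨hp, hg1, hg2⟩
  refine ⟨hp, ?_, ht_le hg1⟩
  rcases σ.ch _ hp.1 _ hL1 with h6 | h6
  · exact absurd (h6.trans hL1l) (hg2 l' h3)
  · exact ht_le h6

include hX h in
lemma gap_dim {q : M × M} (hq : q ∈ lab X τ.s) :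
    ht q.2 - ht q.1 ≤ ∑ p ∈ (gap_fin hX σ τ h hq).toFinset, (ht p.2 - ht p.1) := by
  obtain ⟨l', c', h3, h4, h5, ⟨L1, hL1, hL1l⟩, L, hL, hLF, hLc⟩ := gap_key hX σ τ h hq
  have e : L ⊔ q.1 = q.2 := by
    apply le_antisymm (sup_le hLF (lab_lt hq).le)
    conv_lhs => rw [← hLc]
    exact sup_le le_sup_left (by rw [h5]; exact le_sup_right.trans le_sup_right)
  have key := gap_sum hX σ h5 h4 _ L hL hLF L1 hL1 hL1l le_rfl
    (gap_fin hX σ τ h hq).toFinset ?_ ?_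
  · rw [e] at key
    exact key
  · intro p hp hpL hpn
    rw [Set.Finite.mem_toFinset]
    refine ⟨hp, hpL.trans hLF, fun l hl => ?_⟩
    rw [hl.unique h3]
    exact hpn
  · intro p hp
    rw [Set.Finite.mem_toFinset] at hp
    exact (lab_lt hp.1).le

include hX h in
lemma gap_ne {q : M × M} (hq : q ∈ lab X τ.s) : (gap_fin hX σ τ h hq).toFinset.Nonempty := by
  by_contra hne
  rw [Finset.not_nonempty_iff_eq_empty] at hne
  have h1 := gap_dim hX σ τ h hq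
  rw [hne, Finset.sum_empty] at h1
  have h2 := ShL.ht_lt _ _ (lab_lt hq)
  linarith

lemma sum_wt (A : Finset (M × M)) (hA : ∀ p ∈ A, p.1 ≤ p.2) :
    ((∑ p ∈ A, wt p : ℕ) : ℤ) = A.card + ∑ p ∈ A, (ht p.2 - ht p.1) := by
  rw [Nat.cast_sum, Finset.card_eq_sum_ones, Nat.cast_sum, ← Finset.sum_add_distrib]
  apply Finset.sum_congr rfl
  intro p hp
  have := ht_le (hA p hp)
  unfold wt
  rw [Int.toNat_of_nonneg (by linarith)]
  push_cast
  ring

include hX h in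
lemma gap_wt {q : M × M} (hq : q ∈ lab X τ.s) :
    wt q ≤ ∑ p ∈ (gap_fin hX σ τ h hq).toFinset, wt p ∧
      (wt q = ∑ p ∈ (gap_fin hX σ τ h hq).toFinset, wt p →
        (gap_fin hX σ τ h hq).toFinset.card = 1) := by
  have h1 := gap_dim hX σ τ h hq
  have h2 := (gap_ne hX σ τ h hq).card_pos
  have h3 := sum_wt (gap_fin hX σ τ h hq).toFinset (fun p hp => by
    rw [Set.Finite.mem_toFinset] at hp
    exact (lab_lt hp.1).le)
  have h4 := ShL.ht_lt _ _ (lab_lt hq)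
  have h5 : ((wt q : ℕ) : ℤ) = 1 + (ht q.2 - ht q.1) := by
    unfold wt
    rw [Int.toNat_of_nonneg (by linarith)]
    ring
  constructor
  · zify
    push_cast at h3 ⊢
    linarith
  · intro he
    zify at he h2 ⊢
    push_cast at he h3 ⊢
    linarith

end

lemma gap_sh {s : Set M} (hs : ShSt s) (q p : M × M) :
    Gap s (sh q.1, sh q.2) (sh p.1, sh p.2) ↔ Gap s q p := by
  unfold Gap
  simp only [sh_le_iff]
  refine and_congr_right fun _ => ⟨fun h l hl => ?_, fun h l hl => ?_⟩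
  · have := h (sh l) ((pred_sh hs _ _).2 hl)
    rwa [sh_le_iff] at this
  · have h1 := h (shi l) (by rw [← pred_sh hs, ShL.sh_shi]; exact hl)
    rwa [← sh_le_iff, ShL.sh_shi] at h1

lemma gap_dis (τ : Cell M) {X : Set M} {q q' p : M × M} (hq : q ∈ lab X τ.s)
    (hq' : q' ∈ lab X τ.s) (h : Gap τ.s q p) (h' : Gap τ.s q' p) : q = q' := by
  by_contra hne
  have hne2 : q.2 ≠ q'.2 := fun e => hne (lab_uni hq hq' e)
  obtain ⟨h1, h2, l, c, h3, h4, h5⟩ := hq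
  obtain ⟨h1', h2', l', c', h3', h4', h5'⟩ := hq'
  rcases τ.ch _ h1 _ h1' with h6 | h6
  · exact h'.2 l' h3' (h.1.trans (h3'.2 ⟨h1, lt_of_le_of_ne h6 hne2⟩))
  · exact h.2 l h3 (h'.1.trans (h3.2 ⟨h1', lt_of_le_of_ne h6 hne2.symm⟩))

/-- Inward moves decrease the rank; labels of equal rank are related by perspectivities. -/
theorem lab_hull {X : Set M} (hX : Adm X) (σ τ : Cell M) (h : τ.s ⊆ hull X σ.s) :
    rk (lab X τ.s) ≤ rk (lab X σ.s) ∧
      (rk (lab X τ.s) = rk (lab X σ.s) → Up (lab X σ.s) (lab X τ.s)) := by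
  classical
  have hP := lab_pgood hX.st σ
  have hQ := lab_pgood hX.st τ
  have key := rk_rel' hP hQ (Gap τ.s) (fun q hq => gap_fin hX σ τ h hq)
    (fun q hq q' hq' p h1 h2 => gap_dis τ hq hq' h1 h2)
    (fun q _ p h1 => (gap_sh τ.st q p).2 h1)
    (fun q _ p h1 => by
      rw [← gap_sh τ.st]
      simpa only [ShL.sh_shi] using h1)
    (fun q hq => (gap_wt hX σ τ h hq).1)
  refine ⟨key.1, fun heq => ?_⟩
  obtain ⟨-, k2⟩ := key.2 heq
  intro q hq
  have hcard := (gap_wt hX σ τ h hq).2 (k2 q hq)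
  obtain ⟨p, hp⟩ := Finset.card_eq_one.1 hcard
  have hpm : p ∈ (gap_fin hX σ τ h hq).toFinset := by rw [hp]; exact Finset.mem_singleton_self p
  have huni : ∀ p' : M × M, p' ∈ lab X σ.s → Gap τ.s q p' → p' = p := by
    intro p' h1 h2
    have : p' ∈ (gap_fin hX σ τ h hq).toFinset := by
      rw [Set.Finite.mem_toFinset]; exact ⟨h1, h2⟩
    rw [hp] at this
    exact Finset.mem_singleton.1 this
  rw [Set.Finite.mem_toFinset] at hpm
  obtain ⟨hpP, hpG⟩ := hpm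
  have hwt := k2 q hq
  rw [hp, Finset.sum_singleton] at hwt
  obtain ⟨l', c', h3, h4, h5, ⟨L1, hL1, hL1l⟩, L, hL, hLF, hLc⟩ := gap_key hX σ τ h hq
  have hlq : l' ≤ q.1 := by rw [h5]; exact le_sup_left
  have hcq : c' ≤ q.1 := by rw [h5]; exact le_sup_right
  -- the least member `F0` with `F0 ⊔ q.1 = q.2`
  set S : Set M := {L | L ∈ σ.s ∧ L ≤ q.2 ∧ L ⊔ q.1 = q.2} with hS
  have hLS : L ∈ S := by
    refine ⟨hL, hLF, le_antisymm (sup_le hLF (lab_lt hq).le) ?_⟩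
    conv_lhs => rw [← hLc]
    exact sup_le le_sup_left (hcq.trans le_sup_right)
  have hSl : ∀ a ∈ S, ¬ a ≤ q.1 := by
    intro a ha hle
    have := ha.2.2
    rw [sup_eq_right.2 hle] at this
    exact (lab_lt hq).ne this
  obtain ⟨F0, hF0, hmin⟩ := exists_least ⟨L, hLS⟩ (ht L1) (fun a ha => by
    rcases σ.ch _ ha.1 _ hL1 with h6 | h6
    · exact absurd ((h6.trans hL1l).trans hlq) (hSl a ha)
    · exact ht_le h6) (σ.chain_dir S (fun a ha => ha.1))
  obtain ⟨l, c, hl, hc, hor⟩ := lab_or hX σ hF0.1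
  have hcc : c ≤ q.1 := (h4.2 ⟨hc.1.1, hc.1.2.trans hF0.2.1⟩).trans hcq
  have hirr : (l ⊔ c, F0) ∈ lab X σ.s := by
    rcases hor with h6 | h6
    · exact h6
    · exfalso
      have hlS : l ∈ S := by
        refine ⟨hl.1.1, hl.1.2.le.trans hF0.2.1, ?_⟩
        have h7 := hF0.2.2
        rw [← h6, sup_assoc, sup_eq_right.2 hcc] at h7
        exact h7
      exact absurd (hmin hlS) (not_le_of_gt hl.1.2)
  have hF0p : (l ⊔ c, F0) = p := by
    apply huni _ hirr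
    refine ⟨hF0.2.1, fun l0 hl0 h6 => ?_⟩
    rw [hl0.unique h3] at h6
    exact hSl F0 hF0 (h6.trans hlq)
  -- members below `F0` are below `q.1`
  have hdown : l ≤ q.1 := by
    by_contra hnot
    set T : Set M := {a | a ∈ σ.s ∧ a < F0 ∧ ¬ a ≤ q.1} with hT
    obtain ⟨a, ha, hamin⟩ := exists_least (S := T) ⟨l, hl.1.1, hl.1.2, hnot⟩ (ht L1) (fun a ha => by
      rcases σ.ch _ ha.1 _ hL1 with h6 | h6
      · exact absurd ((h6.trans hL1l).trans hlq) ha.2.2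
      · exact ht_le h6) (σ.chain_dir T (fun a ha => ha.1))
    obtain ⟨l2, c2, hl2, hc2, hor2⟩ := lab_or hX σ ha.1
    have haq : a ≤ q.2 := ha.2.1.le.trans hF0.2.1
    have hc2q : c2 ≤ q.1 := (h4.2 ⟨hc2.1.1, hc2.1.2.trans haq⟩).trans hcq
    have hl2q : l2 ≤ q.1 := by
      by_contra hn
      have : l2 ∈ T := ⟨hl2.1.1, hl2.1.2.trans ha.2.1, hn⟩
      exact absurd (hamin this) (not_le_of_gt hl2.1.2)
    rcases hor2 with h6 | h6
    · have h7 : (l2 ⊔ c2, a) = p := by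
        apply huni _ h6
        refine ⟨haq, fun l0 hl0 h8 => ?_⟩
        rw [hl0.unique h3] at h8
        exact ha.2.2 (h8.trans hlq)
      rw [← hF0p] at h7
      have h8 : a = F0 := congrArg Prod.snd h7
      exact absurd h8 ha.2.1.ne
    · apply ha.2.2
      rw [← h6]
      exact sup_le hl2q hc2q
  refine ⟨p, hpP, ?_, ?_⟩
  · rw [← hF0p]
    exact hF0.2.2
  · have hple : p.1 ≤ p.2 ⊓ q.1 := by
      rw [← hF0p]
      exact le_inf (sup_le hl.1.2.le hc.1.2) (sup_le hdown hcc)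
    have hsup : p.2 ⊔ q.1 = q.2 := by rw [← hF0p]; exact hF0.2.2
    have e1 := ShL.ht_mod p.2 q.1
    rw [hsup] at e1
    have l1 := ShL.ht_lt _ _ (lab_lt hq)
    have l2 := ShL.ht_lt _ _ (lab_lt hpP)
    unfold wt at hwt
    have e2 : ht (p.2 ⊓ q.1) = ht p.1 := by omega
    exact (eq_of_ht hple e2.le).symm

end Pool.Agent.GLA
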