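import Mathlib

/-! MP_8f66f0_al, project GLn, part A: the geometry of the affine building of `GL_d`.

`M` is the set of lattices of `K ^ d` (`sup` = sum, `inf` = intersection), `sh` the multiplication by
the uniformizer, `ht` the length. Only the properties in the class `ShL` are used. -/

set_option autoImplicit false

namespace Pool.Agent.GLA

open scoped Pointwise

/-- A modular lattice with an integral height `ht` and a shift `sh` with the inverse `shi`. -/
class ShL (M : Type) extends Lattice M where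
  /-- the height -/
  ht : M → ℤ
  /-- the period -/
  per : ℕ
  /-- the shift -/
  sh : M → M
  /-- the inverse of the shift -/
  shi : M → M
  per_pos : 0 < per
  sh_shi : ∀ a : M, sh (shi a) = a
  shi_sh : ∀ a : M, shi (sh a) = a
  sh_mono : ∀ a b : M, a ≤ b → sh a ≤ sh b
  shi_mono : ∀ a b : M, a ≤ b → shi a ≤ shi b
  sh_le : ∀ a : M, sh a ≤ a
  ht_sh : ∀ a : M, ht (sh a) = ht a - per
  ht_lt : ∀ a b : M, a < b → ht a < ht b
  ht_mod : ∀ a b : M, ht (a ⊔ b) + ht (a ⊓ b) = ht a + ht b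
  arch : ∀ a b : M, ∃ k : ℕ, sh^[k] a ≤ b
  cover : ∀ a b : M, a < b → ∃ c, a ≤ c ∧ c < b ∧ ht c = ht b - 1

/-- A group which acts on `M` by automorphisms which commute with the shift and keep the height. -/
class ShAct (Γ M : Type) [Group Γ] [ShL M] extends MulAction Γ M where
  smul_mono : ∀ (g : Γ) (a b : M), a ≤ b → g • a ≤ g • b
  smul_sh : ∀ (g : Γ) (a : M), g • ShL.sh a = ShL.sh (g • a)
  ht_smul : ∀ (g : Γ) (a : M), ShL.ht (g • a) = ShL.ht a

export ShL (ht per sh shi)

section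
variable {M : Type} [ShL M]

/-- The set `s` is stable under the shift and its inverse. -/
def ShSt (s : Set M) : Prop := ∀ a : M, sh a ∈ s ↔ a ∈ s

/-! ### Cells -/

variable (M) in
/-- A cell: a shift stable chain of elements of `M` (the empty chain is allowed). -/
@[ext] structure Cell where
  /-- the members -/
  s : Set M
  st : ShSt s
  ch : ∀ a ∈ s, ∀ b ∈ s, a ≤ b ∨ b ≤ a

/-- The type of an element. -/
def typ (a : M) : ℕ := (ht a % (per M : ℤ)).toNat

/-- The types of the members of a cell. -/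
noncomputable def Cell.types (σ : Cell M) : Finset ℕ := by
  classical exact (Finset.range (per M)).filter fun t => ∃ a ∈ σ.s, typ a = t

/-- The cell without the members of type `t`. -/
def Cell.rem (σ : Cell M) (t : ℕ) : Cell M where
  s := {a | a ∈ σ.s ∧ typ a ≠ t}
  st := by
    intro a
    have h : typ (sh a) = typ a := by
      unfold typ
      rw [ShL.ht_sh, Int.sub_emod_right]
    show (sh a ∈ σ.s ∧ typ (sh a) ≠ t) ↔ (a ∈ σ.s ∧ typ a ≠ t)
    rw [h, σ.st a]
  ch := fun a ha b hb => σ.ch a ha.1 b hb.1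

/-- The sign of a face. -/
noncomputable def Cell.sgn (σ : Cell M) (t : ℕ) : ℤ := (-1) ^ (σ.types.filter (· < t)).card

/-- The augmented boundary on the chains of cells. -/
noncomputable def bdry : (Cell M →₀ ℤ) →ₗ[ℤ] (Cell M →₀ ℤ) :=
  Finsupp.lift (Cell M →₀ ℤ) ℤ (Cell M) fun σ =>
    ∑ t ∈ σ.types, Finsupp.single (σ.rem t) (σ.sgn t)

/-! ### Admissible sets, hulls -/

/-- A non-empty shift stable set which is closed under joins. -/
structure Adm (X : Set M) : Prop where
  ne : X.Nonempty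
  st : ShSt X
  sup : ∀ a ∈ X, ∀ b ∈ X, a ⊔ b ∈ X

/-- The smallest shift stable set which contains `B` and is closed under joins. -/
def gen (B : Set M) : Set M :=
  {x | ∀ X : Set M, ShSt X → (∀ a ∈ X, ∀ b ∈ X, a ⊔ b ∈ X) → B ⊆ X → x ∈ X}

/-- The elements of `X`, the members of `s`, and their joins. -/
def hull (X s : Set M) : Set M := {x | x ∈ X ∨ x ∈ s ∨ ∃ l ∈ s, ∃ c ∈ X, x = l ⊔ c}

/-- Finite modulo the shift. -/
def WFin (X : Set M) : Prop := {x | x ∈ X ∧ 0 ≤ ht x ∧ ht x < per M}.Finite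

/-! ### Labels -/

/-- The label of the chain `s` with respect to `X`: the pairs `(U, F)` with `F ∈ s`, `U ≠ F`,
`U = l ⊔ c`, where `l` is the predecessor of `F` in `s` and `c` the greatest element of `X` below
`F`. -/
def lab (X s : Set M) : Set (M × M) :=
  {p | p.2 ∈ s ∧ p.1 ≠ p.2 ∧ ∃ l c : M, IsGreatest {a | a ∈ s ∧ a < p.2} l ∧
    IsGreatest {a | a ∈ X ∧ a ≤ p.2} c ∧ p.1 = l ⊔ c}

/-- The rank of a set of pairs: the sum over the pairs modulo the shift of
`1 + (height of the second) - (height of the first)`. -/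
noncomputable def rk (P : Set (M × M)) : ℕ :=
  ∑ᶠ (p : M × M) (_ : p ∈ P ∧ 0 ≤ ht p.2 ∧ ht p.2 < per M), (1 + ht p.2 - ht p.1).toNat

/-- Labels. -/
structure IsLab (P : Set (M × M)) : Prop where
  ne : P.Nonempty
  st : ∀ p : M × M, (sh p.1, sh p.2) ∈ P ↔ p ∈ P
  lt : ∀ p ∈ P, p.1 < p.2
  ch : ∀ p ∈ P, ∀ q ∈ P, p ≠ q → p.2 ≤ q.1 ∨ q.2 ≤ p.1

/-- Every pair of `Q` is obtained from a pair of `P` by a perspectivity (upwards). -/
def Up (P Q : Set (M × M)) : Prop :=
  ∀ q ∈ Q, ∃ p ∈ P, p.2 ⊔ q.1 = q.2 ∧ p.2 ⊓ q.1 = p.1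

/-- Every pair of `Q` is a pair of `P` with a larger first component. -/
def Nest (P Q : Set (M × M)) : Prop := ∀ q ∈ Q, ∃ p ∈ P, p.2 = q.2 ∧ p.1 ≤ q.1

variable (M) in
/-- The type of the labels. -/
def Lab : Type := {P : Set (M × M) // IsLab P}

/-- The rank of a label. -/
noncomputable def Lab.rk (P : Lab M) : ℕ := GLA.rk P.1

/-- The order of the labels: only labels of equal rank are comparable. -/
def Lab.le (P Q : Lab M) : Prop := P.rk = Q.rk ∧ Up P.1 Q.1

/-- `Q` may follow `P` in a flag. -/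
def Lab.nest (P Q : Lab M) : Prop := Q.rk < P.rk ∧ Nest P.1 Q.1

variable (M) in
/-- The type of the flags: nested sequences of labels of strictly decreasing ranks. -/
def Flag : Type := {l : List (Lab M) // l.IsChain Lab.nest}

/-- The order of the flags (flags of different length or different ranks are not comparable). -/
def Flag.le (φ ψ : Flag M) : Prop := List.Forall₂ Lab.le φ.1 ψ.1

end

section
variable {Γ M : Type} [Group Γ] [ShL M] [ShAct Γ M]

lemma smul_le_iff (g : Γ) (a b : M) : g • a ≤ g • b ↔ a ≤ b := by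
  constructor
  · intro h
    have h2 := ShAct.smul_mono g⁻¹ _ _ h
    rwa [inv_smul_smul, inv_smul_smul] at h2
  · exact ShAct.smul_mono g a b

lemma smul_lt_iff (g : Γ) (a b : M) : g • a < g • b ↔ a < b := by
  rw [lt_iff_le_not_ge, lt_iff_le_not_ge, smul_le_iff, smul_le_iff]

lemma smul_sup (g : Γ) (a b : M) : g • (a ⊔ b) = g • a ⊔ g • b := by
  apply le_antisymm
  · have h : a ⊔ b ≤ g⁻¹ • (g • a ⊔ g • b) := by
      apply sup_le
      · rw [← smul_le_iff g, smul_inv_smul]; exact le_sup_left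
      · rw [← smul_le_iff g, smul_inv_smul]; exact le_sup_right
    rwa [← smul_le_iff g, smul_inv_smul] at h
  · exact sup_le ((smul_le_iff g _ _).2 le_sup_left) ((smul_le_iff g _ _).2 le_sup_right)

lemma smul_inf (g : Γ) (a b : M) : g • (a ⊓ b) = g • a ⊓ g • b := by
  apply le_antisymm
  · exact le_inf ((smul_le_iff g _ _).2 inf_le_left) ((smul_le_iff g _ _).2 inf_le_right)
  · have h : g⁻¹ • (g • a ⊓ g • b) ≤ a ⊓ b := by
      apply le_inf
      · rw [← smul_le_iff g, smul_inv_smul]; exact inf_le_left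
      · rw [← smul_le_iff g, smul_inv_smul]; exact inf_le_right
    rwa [← smul_le_iff g, smul_inv_smul] at h

/-- The action on cells. -/
instance : MulAction Γ (Cell M) where
  smul g σ :=
    { s := g • σ.s
      st := by
        intro a
        rw [Set.mem_smul_set_iff_inv_smul_mem, Set.mem_smul_set_iff_inv_smul_mem, ShAct.smul_sh]
        exact σ.st _
      ch := by
        intro a ha b hb
        rw [Set.mem_smul_set_iff_inv_smul_mem] at ha hb
        rcases σ.ch _ ha _ hb with h | h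
        · exact Or.inl ((smul_le_iff g⁻¹ _ _).1 h)
        · exact Or.inr ((smul_le_iff g⁻¹ _ _).1 h) }
  one_smul σ := by
    cases σ with
    | mk s st ch =>
      show (⟨(1 : Γ) • s, _, _⟩ : Cell M) = ⟨s, st, ch⟩
      congr 1
      exact one_smul Γ s
  mul_smul g h σ := by
    cases σ with
    | mk s st ch =>
      show (⟨(g * h) • s, _, _⟩ : Cell M) = ⟨g • h • s, _, _⟩
      congr 1
      exact mul_smul g h s

lemma Cell.smul_s (g : Γ) (σ : Cell M) : (g • σ).s = g • σ.s := rfl

lemma IsLab.smul (g : Γ) {P : Set (M × M)} (h : IsLab P) : IsLab (g • P) where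
  ne := h.ne.smul_set
  st := by
    intro p
    rw [Set.mem_smul_set_iff_inv_smul_mem, Set.mem_smul_set_iff_inv_smul_mem]
    have e : g⁻¹ • ((sh p.1, sh p.2) : M × M) = (sh (g⁻¹ • p).1, sh (g⁻¹ • p).2) := by
      rw [Prod.smul_fst, Prod.smul_snd, ← ShAct.smul_sh, ← ShAct.smul_sh]
      rfl
    rw [e]
    exact h.st _
  lt := by
    intro p hp
    rw [Set.mem_smul_set_iff_inv_smul_mem] at hp
    exact (smul_lt_iff g⁻¹ _ _).1 (h.lt _ hp)
  ch := by
    intro p hp q hq hpq
    rw [Set.mem_smul_set_iff_inv_smul_mem] at hp hq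
    have hne : g⁻¹ • p ≠ g⁻¹ • q := fun e => hpq (smul_left_cancel g⁻¹ e)
    rcases h.ch _ hp _ hq hne with h | h
    · exact Or.inl ((smul_le_iff g⁻¹ _ _).1 h)
    · exact Or.inr ((smul_le_iff g⁻¹ _ _).1 h)

/-- The action on labels. -/
instance : MulAction Γ (Lab M) where
  smul g P := ⟨g • P.1, P.2.smul g⟩
  one_smul P := Subtype.ext (one_smul Γ P.1)
  mul_smul g h P := Subtype.ext (mul_smul g h P.1)

lemma Lab.smul_val (g : Γ) (P : Lab M) : (g • P).1 = g • P.1 := rfl

lemma rk_smul (g : Γ) (P : Set (M × M)) : GLA.rk (g • P) = GLA.rk P := by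
  unfold GLA.rk
  have e : ∀ p : M × M, (g • p ∈ g • P ∧ 0 ≤ ht (g • p).2 ∧ ht (g • p).2 < per M) ↔
      (p ∈ P ∧ 0 ≤ ht p.2 ∧ ht p.2 < per M) := by
    intro p
    rw [Set.smul_mem_smul_set_iff, Prod.smul_snd, ShAct.ht_smul]
  rw [← finsum_comp_equiv (MulAction.toPerm g)]
  apply finsum_congr
  intro p
  rw [MulAction.toPerm_apply]
  refine finsum_congr_Prop (propext (e p)) ?_
  intro _
  rw [Prod.smul_fst, Prod.smul_snd, ShAct.ht_smul, ShAct.ht_smul]

lemma Lab.rk_smul (g : Γ) (P : Lab M) : (g • P).rk = P.rk := GLA.rk_smul g P.1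

lemma Up.smul (g : Γ) {P Q : Set (M × M)} (h : Up P Q) : Up (g • P) (g • Q) := by
  intro q hq
  rw [Set.mem_smul_set_iff_inv_smul_mem] at hq
  obtain ⟨p, hp, h1, h2⟩ := h _ hq
  refine ⟨g • p, Set.smul_mem_smul_set hp, ?_, ?_⟩
  · have h3 := congrArg (fun x => g • x) h1
    simpa only [smul_sup, Prod.smul_fst, Prod.smul_snd, smul_inv_smul] using h3
  · have h3 := congrArg (fun x => g • x) h2
    simpa only [smul_inf, Prod.smul_fst, Prod.smul_snd, smul_inv_smul] using h3

lemma Nest.smul (g : Γ) {P Q : Set (M × M)} (h : Nest P Q) : Nest (g • P) (g • Q) := by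
  intro q hq
  rw [Set.mem_smul_set_iff_inv_smul_mem] at hq
  obtain ⟨p, hp, h1, h2⟩ := h _ hq
  refine ⟨g • p, Set.smul_mem_smul_set hp, ?_, ?_⟩
  · have h3 := congrArg (fun x => g • x) h1
    simpa only [Prod.smul_snd, smul_inv_smul] using h3
  · have h3 := ShAct.smul_mono g _ _ h2
    simpa only [Prod.smul_fst, smul_inv_smul] using h3

lemma Lab.le_smul (g : Γ) {P Q : Lab M} (h : Lab.le P Q) : Lab.le (g • P) (g • Q) :=
  ⟨by rw [Lab.rk_smul, Lab.rk_smul, h.1], Up.smul g h.2⟩

lemma Lab.nest_smul (g : Γ) {P Q : Lab M} (h : Lab.nest P Q) : Lab.nest (g • P) (g • Q) :=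
  ⟨by rw [Lab.rk_smul, Lab.rk_smul]; exact h.1, Nest.smul g h.2⟩

lemma isChain_map_smul (g : Γ) {l : List (Lab M)} (h : l.IsChain Lab.nest) :
    (l.map (g • ·)).IsChain Lab.nest := by
  rw [List.isChain_map]
  exact h.imp fun _ _ h => Lab.nest_smul g h

/-- The action on flags. -/
instance : MulAction Γ (Flag M) where
  smul g φ := ⟨φ.1.map (g • ·), isChain_map_smul g φ.2⟩
  one_smul φ := by
    apply Subtype.ext
    show φ.1.map ((1 : Γ) • ·) = φ.1
    simp
  mul_smul g h φ := by
    apply Subtype.ext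
    show φ.1.map ((g * h) • ·) = (φ.1.map (h • ·)).map (g • ·)
    rw [List.map_map]
    congr 1
    funext x
    exact mul_smul g h x

lemma Flag.smul_val (g : Γ) (φ : Flag M) : (g • φ).1 = φ.1.map (g • ·) := rfl

lemma Flag.le_smul (g : Γ) {φ ψ : Flag M} (h : Flag.le φ ψ) : Flag.le (g • φ) (g • ψ) := by
  unfold Flag.le at h ⊢
  rw [Flag.smul_val, Flag.smul_val, List.forall₂_map_left_iff, List.forall₂_map_right_iff]
  exact h.imp fun _ _ h => Lab.le_smul g h

end

end Pool.Agent.GLA
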