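import Pool.Agent.Lib.MP_8f66f0_al_GLA.Defs

/-!
Elementary facts on `ShL`: modular law, Nakayama, integer powers of the shift, and the
matching relation `Mt` of pairs.
-/

set_option autoImplicit false

namespace Pool.Agent.GLA2

open Pool.Agent.GLA

variable {M : Type} [ShL M]

theorem ht_le {a b : M} (h : a ≤ b) : ht a ≤ ht b := by
  rcases h.eq_or_lt with rfl | h
  · exact le_rfl
  · exact (ShL.ht_lt _ _ h).le

theorem eq_of_ht {a b : M} (h : a ≤ b) (h' : ht b ≤ ht a) : a = b := by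
  by_contra hne
  exact absurd (ShL.ht_lt _ _ (lt_of_le_of_ne h hne)) (not_lt.2 h')

/-- Modular law. -/
theorem modular {a b c : M} (h : a ≤ c) : (a ⊔ b) ⊓ c = a ⊔ (b ⊓ c) := by
  refine (eq_of_ht (sup_le (le_inf le_sup_left h) (inf_le_inf_right _ le_sup_right)) ?_).symm
  have h1 := ShL.ht_mod (a ⊔ b) c
  have h2 := ShL.ht_mod a (b ⊓ c)
  have h3 := ShL.ht_mod b c
  have h4 := ShL.ht_mod a b
  have e1 : a ⊔ b ⊔ c = b ⊔ c := by
    rw [sup_comm a b, sup_assoc, sup_eq_right.2 h]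
  have e2 : a ⊓ (b ⊓ c) = a ⊓ b := by
    rw [← inf_assoc]
    exact inf_eq_left.2 (inf_le_left.trans h)
  rw [e1] at h1
  rw [e2] at h2
  omega

/-- Modular law, other side. -/
theorem modular' {a b c : M} (h : a ≤ c) : c ⊓ (a ⊔ b) = a ⊔ (c ⊓ b) := by
  rw [inf_comm, modular h, inf_comm b c]

variable (M) in
/-- The shift as an order isomorphism. -/
def shO : M ≃o M where
  toFun := sh
  invFun := shi
  left_inv := ShL.shi_sh
  right_inv := ShL.sh_shi
  map_rel_iff' := by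
    intro a b
    refine ⟨fun h => ?_, ShL.sh_mono a b⟩
    have h1 := ShL.shi_mono _ _ h
    simp only [Equiv.coe_fn_mk, ShL.shi_sh] at h1
    exact h1

theorem shO_apply (a : M) : shO M a = sh a := rfl

theorem sh_sup (a b : M) : sh (a ⊔ b) = sh a ⊔ sh b := map_sup (shO M) a b

theorem sh_inf (a b : M) : sh (a ⊓ b) = sh a ⊓ sh b := map_inf (shO M) a b

theorem sh_le_iff {a b : M} : sh a ≤ sh b ↔ a ≤ b := (shO M).le_iff_le

theorem sh_lt (a : M) : sh a < a := by
  refine lt_of_le_of_ne (ShL.sh_le a) fun h => ?_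
  have h1 := ShL.ht_sh a
  rw [h] at h1
  have := ShL.per_pos (M := M)
  omega

/-- Nakayama. -/
theorem nak {a b : M} (h : a ≤ b ⊔ sh a) : a ≤ b := by
  have key : ∀ k : ℕ, a ≤ b ⊔ (sh^[k]) a := by
    intro k
    induction k with
    | zero => exact le_sup_right
    | succ k ih =>
      refine h.trans (sup_le le_sup_left ?_)
      refine (ShL.sh_mono _ _ ih).trans ?_
      rw [sh_sup, Function.iterate_succ_apply']
      exact sup_le ((ShL.sh_le b).trans le_sup_left) le_sup_right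
  obtain ⟨k, hk⟩ := ShL.arch a b
  exact (key k).trans (sup_le le_rfl hk)

/-- Integer powers of the shift. -/
def shz (k : ℤ) : M ≃o M := (shO M) ^ k

theorem shz_zero (a : M) : shz 0 a = a := by
  simp [shz]

theorem shz_one (a : M) : shz 1 a = sh a := by
  simp [shz, shO_apply]

theorem shz_add (k l : ℤ) (a : M) : shz (k + l) a = shz k (shz l a) := by
  simp [shz, zpow_add, RelIso.mul_apply]

theorem shz_succ (k : ℤ) (a : M) : shz (k + 1) a = shz k (sh a) := by
  rw [shz_add, shz_one]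

theorem shz_succ' (k : ℤ) (a : M) : shz (k + 1) a = sh (shz k a) := by
  rw [add_comm, shz_add, shz_one]

theorem ht_shz (k : ℤ) (a : M) : ht (shz k a) = ht a - k * per M := by
  induction k using Int.induction_on with
  | zero => rw [shz_zero]; simp
  | succ k ih =>
    rw [shz_succ', ShL.ht_sh, ih]
    ring
  | pred k ih =>
    have h1 : shz (-(k : ℤ)) a = sh (shz (-(k : ℤ) - 1) a) := by
      rw [← shz_succ', sub_add_cancel]
    rw [h1, ShL.ht_sh] at ih
    linear_combination ih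

/-- The pair shifted. -/
def shp (k : ℤ) (p : M × M) : M × M := (shz k p.1, shz k p.2)

theorem shp_zero (p : M × M) : shp 0 p = p := by
  simp [shp, shz_zero]

theorem shp_add (k l : ℤ) (p : M × M) : shp (k + l) p = shp k (shp l p) := by
  simp [shp, shz_add]

theorem shp_neg (k : ℤ) (p : M × M) : shp (-k) (shp k p) = p := by
  rw [← shp_add, neg_add_cancel, shp_zero]

theorem shp_neg' (k : ℤ) (p : M × M) : shp k (shp (-k) p) = p := by
  rw [← shp_add, add_neg_cancel, shp_zero]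

theorem shp_one (p : M × M) : shp 1 p = (sh p.1, sh p.2) := by
  simp [shp, shz_one]

theorem shp_inj (k : ℤ) {p q : M × M} (h : shp k p = shp k q) : p = q := by
  rw [← shp_neg k p, h, shp_neg]

theorem shp_snd (k : ℤ) (p : M × M) : (shp k p).2 = shz k p.2 := rfl

theorem shp_fst (k : ℤ) (p : M × M) : (shp k p).1 = shz k p.1 := rfl

/-- The matching relation of two pairs `(U, F)`, `(U', F')`. -/
def Mt (p q : M × M) : Prop := p.2 ⊔ q.1 = q.2 ∧ p.2 ⊓ q.1 = p.1

theorem Mt.le1 {p q : M × M} (h : Mt p q) : p.1 ≤ q.1 := by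
  rw [← h.2]
  exact inf_le_right

theorem Mt.le2 {p q : M × M} (h : Mt p q) : p.2 ≤ q.2 := by
  rw [← h.1]
  exact le_sup_left

theorem Mt.ht {p q : M × M} (h : Mt p q) : ht q.2 - ht q.1 = ht p.2 - ht p.1 := by
  have := ShL.ht_mod p.2 q.1
  rw [h.1, h.2] at this
  omega

theorem Mt.trans {p q r : M × M} (h : Mt p q) (h' : Mt q r) : Mt p r := by
  constructor
  · rw [← h'.1, ← h.1, sup_assoc, sup_eq_right.2 h'.le1]
  · have : p.2 ⊓ r.1 = p.2 ⊓ (q.2 ⊓ r.1) := by
      rw [← inf_assoc, inf_eq_left.2 h.le2]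
    rw [this, h'.2, h.2]

theorem Mt.refl {p : M × M} (h : p.1 ≤ p.2) : Mt p p :=
  ⟨sup_eq_left.2 h, inf_eq_right.2 h⟩

theorem Mt.shp {p q : M × M} (h : Mt p q) (k : ℤ) : Mt (shp k p) (shp k q) := by
  constructor
  · change shz k p.2 ⊔ shz k q.1 = shz k q.2
    rw [← map_sup, h.1]
  · change shz k p.2 ⊓ shz k q.1 = shz k p.1
    rw [← map_inf, h.2]

theorem Mt.antisymm {p q : M × M} (h : Mt p q) (h' : Mt q p) : p = q :=
  Prod.ext (le_antisymm h.le1 h'.le1) (le_antisymm h.le2 h'.le2)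

theorem Mt.fst_le {p q : M × M} (h : Mt p q) : p.1 ≤ p.2 := by
  rw [← h.2]
  exact inf_le_left

/-- If `p` is matched to `q` and `u` is in between. -/
theorem Mt.mid {p q : M × M} (h : Mt p q) {u : M} (h1 : p.1 ≤ u) (h2 : u ≤ q.1) :
    Mt p (u, p.2 ⊔ u) ∧ Mt (u, p.2 ⊔ u) q := by
  refine ⟨⟨rfl, ?_⟩, ?_, ?_⟩
  · refine le_antisymm ?_ (le_inf ?_ h1)
    · exact (inf_le_inf_left _ h2).trans h.2.le
    · rw [← h.2]
      exact inf_le_left
  · change p.2 ⊔ u ⊔ q.1 = q.2
    rw [sup_assoc, sup_eq_right.2 h2, h.1]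
  · change (p.2 ⊔ u) ⊓ q.1 = u
    rw [sup_comm, modular h2, h.2, sup_eq_left.2 h1]

/-- A matched pair has the form `(r.1, p.2 ⊔ r.1)`. -/
theorem Mt.mid_eq {p r : M × M} (h1 : Mt p r) : r = (r.1, p.2 ⊔ r.1) :=
  Prod.ext rfl h1.1.symm

/-- Equal first components: equal pairs. -/
theorem Mt.eq_of_fst {p q : M × M} (h : Mt p q) (h' : p.1 = q.1) : p = q := by
  have h1 : p.1 ≤ p.2 := h.fst_le
  refine Prod.ext h' ?_
  rw [← h.1, ← h', sup_eq_left.2 h1]

/-- Equal second components: equal pairs. -/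
theorem Mt.eq_of_snd {p q : M × M} (h : Mt p q) (h' : p.2 = q.2) : p = q := by
  refine Prod.ext ?_ h'
  have h1 : q.1 ≤ p.2 := by
    rw [h', ← h.1]
    exact le_sup_right
  rw [← h.2, inf_eq_right.2 h1]

end Pool.Agent.GLA2
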