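import Pool.Agent.Lib.MP_8f66f0_al_GLA.A2Flag

/-!
Extensions of flags by labels of rank 2 (E4); stabilisers of flags (E5).
-/

set_option autoImplicit false

namespace Pool.Agent.GLA2

open Pool.Agent.GLA
open scoped Pointwise

variable {M : Type} [ShL M]

/-- The label generated by a pair. -/
def orb (p : M × M) : Set (M × M) := {q | ∃ k : ℤ, q = shp k p}

theorem shz_le (k : ℕ) (a : M) : shz (k : ℤ) a ≤ a := by
  induction k with
  | zero => exact (shz_zero a).le
  | succ k ih =>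
    rw [Nat.cast_succ, shz_succ']
    exact (ShL.sh_le _).trans ih

theorem shz_le' {k l : ℤ} (h : k ≤ l) (a : M) : shz l a ≤ shz k a := by
  obtain ⟨n, hn⟩ := Int.le.dest h
  rw [← hn, add_comm, shz_add]
  exact shz_le n _

theorem isLab_orb {p : M × M} (h : p.1 < p.2) (h' : sh p.2 ≤ p.1) : IsLab (orb p) := by
  have key : ∀ k l : ℤ, k < l → (shp l p).2 ≤ (shp k p).1 := by
    intro k l hkl
    have h1 : shz l p.2 ≤ shz (k + 1) p.2 := shz_le' (by omega) _
    refine h1.trans ?_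
    rw [shz_succ]
    exact (shz k).monotone h'
  refine ⟨⟨p, 0, (shp_zero p).symm⟩, ?_, ?_, ?_⟩
  · intro q
    rw [← shp_one]
    constructor
    · rintro ⟨k, hk⟩
      refine ⟨-1 + k, ?_⟩
      rw [shp_add, ← hk, shp_neg]
    · rintro ⟨k, hk⟩
      exact ⟨1 + k, by rw [shp_add, hk]⟩
  · rintro q ⟨k, rfl⟩
    exact (shz k).lt_iff_lt.2 h
  · rintro q ⟨k, rfl⟩ q' ⟨l, rfl⟩ hne
    rcases lt_trichotomy k l with h1 | h1 | h1
    · exact Or.inr (key k l h1)
    · rw [h1] at hne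
      exact absurd rfl hne
    · exact Or.inl (key l k h1)

theorem rk_orb {p : M × M} (h : p.1 < p.2) (h' : sh p.2 ≤ p.1) : rk (orb p) = wt p := by
  have h1 : FD (orb p) = {nf p} := by
    ext q
    constructor
    · intro hq
      obtain ⟨k, hk⟩ := hq.1
      have h2 := nf_eq hq
      rw [hk, nf_shp] at h2
      rw [Set.mem_singleton_iff, hk, h2]
    · intro hq
      rw [Set.mem_singleton_iff] at hq
      rw [hq]
      exact nf_mem (isLab_orb h h') ⟨0, (shp_zero p).symm⟩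
  rw [rk_eq, h1, finsum_mem_singleton]
  exact wt_shp _ _

theorem sh_le_of_mem {P : Set (M × M)} (hP : IsLab P) {p : M × M} (hp : p ∈ P) :
    sh p.2 ≤ p.1 := by
  have h1 : (sh p.1, sh p.2) ∈ P := (hP.st p).2 hp
  have hne : p ≠ (sh p.1, sh p.2) := by
    intro he
    exact (sh_lt p.1).ne' (congrArg Prod.fst he)
  rcases hP.ch p hp _ h1 hne with h2 | h2
  · exfalso
    exact absurd (hP.lt p hp) (not_lt_of_ge (h2.trans (ShL.sh_le _)))
  · exact h2

/-- A pair of colength one below `F`, above `U`. -/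
theorem exists_rank_two {P : Set (M × M)} (hP : IsLab P) :
    ∃ Q : Set (M × M), IsLab Q ∧ rk Q = 2 ∧ Nest P Q := by
  obtain ⟨p, hp⟩ := hP.ne
  obtain ⟨c, h1, h2, h3⟩ := ShL.cover p.1 p.2 (hP.lt p hp)
  have h4 : sh p.2 ≤ c := (sh_le_of_mem hP hp).trans h1
  refine ⟨orb (c, p.2), isLab_orb h2 h4, ?_, ?_⟩
  · rw [rk_orb (p := (c, p.2)) h2 h4]
    change (1 + ht p.2 - ht c).toNat = 2
    rw [h3]
    omega
  · rintro q ⟨k, rfl⟩
    exact ⟨shp k p, (mem_shp hP _ _).2 hp, rfl, (shz k).monotone h1⟩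

/-- (E4) A flag whose last rank is larger than 2 extends by a label of rank 2. -/
theorem exists_ext (φ : List (Lab M)) (P : Lab M) (hφ : (φ ++ [P]).IsChain Lab.nest)
    (h2 : 2 < P.rk) :
    ∃ Q : Lab M, Q.rk = 2 ∧ (φ ++ [P] ++ [Q]).IsChain Lab.nest := by
  obtain ⟨Q', hQ, hr, hn⟩ := exists_rank_two P.2
  let Q : Lab M := ⟨Q', hQ⟩
  refine ⟨Q, hr, ?_⟩
  refine List.IsChain.append hφ (List.isChain_singleton _) ?_
  intro a ha b hb
  have e1 : (φ ++ [P]).getLast? = some P := by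
    rw [List.getLast?_append]
    rfl
  rw [e1] at ha
  have e2 : P = a := by simpa using ha
  have e3 : Q = b := by simpa using hb
  rw [← e2, ← e3]
  exact ⟨lt_of_eq_of_lt hr h2, hn⟩

/-- There is a label of rank 2 as soon as `M` is not empty. -/
theorem exists_lab_two [Nonempty M] : ∃ Q : Lab M, Q.rk = 2 := by
  obtain ⟨a⟩ := ‹Nonempty M›
  have h := isLab_orb (p := (sh a, a)) (sh_lt a) le_rfl
  obtain ⟨Q, hQ, hr, _⟩ := exists_rank_two h
  exact ⟨⟨Q, hQ⟩, hr⟩

theorem two_le_rk (P : Lab M) : 2 ≤ P.rk := by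
  obtain ⟨p, hp⟩ := P.2.ne
  have h1 : 2 ≤ wt (nf p) := by
    have h2 := P.2.lt _ (nf_mem P.2 hp).1
    have h3 := ShL.ht_lt _ _ h2
    unfold wt
    omega
  change 2 ≤ rk P.1
  rw [rk_eq, finsum_mem_eq_finite_toFinset_sum _ (FD_fin P.2)]
  refine h1.trans (Finset.single_le_sum (f := fun q => wt q) (fun _ _ => Nat.zero_le _) ?_)
  rw [Set.Finite.mem_toFinset]
  exact nf_mem P.2 hp

/-- An upper bound of the rank. -/
theorem rk_le (P : Lab M) : P.rk ≤ per M * (1 + per M) := by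
  change rk P.1 ≤ _
  rw [rk_eq, finsum_mem_eq_finite_toFinset_sum _ (FD_fin P.2)]
  refine (Finset.sum_le_card_nsmul _ _ (1 + per M) fun q hq => ?_).trans ?_
  · have h1 := (FD_fin P.2).mem_toFinset.1 hq
    have h2 := ht_le (sh_le_of_mem P.2 h1.1)
    rw [ShL.ht_sh] at h2
    unfold wt
    omega
  · rw [smul_eq_mul]
    exact Nat.mul_le_mul_right _ (FD_card P.2)

/-! ### Stabilisers -/

section
variable {G : Type} [Group G] [ShAct G M]

/-- The stabiliser of a label fixes every pair of it. -/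
theorem fix_pair {P : Lab M} {g : G} (h : g • P = P) {p : M × M} (hp : p ∈ P.1) :
    g • p = p := by
  have h1 : g • p ∈ P.1 := by
    have h2 : g • p ∈ (g • P).1 := Set.smul_mem_smul_set hp
    rwa [h] at h2
  refine eq_of_ht_snd P.2 h1 hp ?_
  rw [Prod.smul_snd, ShAct.ht_smul]

/-- (E5) The stabiliser of a non-empty flag fixes a point. -/
theorem exists_fix (φ : GLA.Flag M) (h : φ.1 ≠ []) :
    ∃ m : M, ∀ g : G, g • φ = φ → g • m = m := by
  obtain ⟨l, c⟩ := φ
  cases l with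
  | nil => exact absurd rfl h
  | cons P l =>
    obtain ⟨p, hp⟩ := P.2.ne
    refine ⟨p.2, fun g hg => ?_⟩
    have h1 : (P :: l).map (g • ·) = P :: l := congrArg Subtype.val hg
    rw [List.map_cons, List.cons.injEq] at h1
    exact congrArg Prod.snd (fix_pair h1.1 hp)

theorem exists_fix_lab (P : Lab M) : ∃ m : M, ∀ g : G, g • P = P → g • m = m := by
  obtain ⟨p, hp⟩ := P.2.ne
  exact ⟨p.2, fun g hg => congrArg Prod.snd (fix_pair hg hp)⟩

end

end Pool.Agent.GLA2
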