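import Pool.Agent.Lib.MP_8f66f0_al_GLA.Toggle

/-!
Lists over a toggle poset; unions of components of a toggle poset.
-/

set_option autoImplicit false

namespace Pool.Agent.GLA2

open Pool.Agent.GLA TogglePoset List

section
variable {P : Type} [TogglePoset P]

/-- Componentwise order. -/
def LLe (l x : List P) : Prop := Forall₂ (fun a b : P => a ≤ b) l x

/-- Componentwise bounded. -/
def LBd (l x : List P) : Prop := Forall₂ (fun a b : P => bd a b) l x

/-- Componentwise toggle. -/
def LPsi (l x : List P) : List P := zipWith psi l x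

theorem LLe.refl : ∀ x : List P, LLe x x
  | [] => Forall₂.nil
  | a :: x => Forall₂.cons le_rfl (LLe.refl x)

theorem LLe.trans : ∀ {x y z : List P}, LLe x y → LLe y z → LLe x z
  | _, _, _, Forall₂.nil, Forall₂.nil => Forall₂.nil
  | _, _, _, Forall₂.cons h h', Forall₂.cons k k' =>
    Forall₂.cons (h.trans k) (LLe.trans h' k')

theorem LLe.antisymm : ∀ {x y : List P}, LLe x y → LLe y x → x = y
  | _, _, Forall₂.nil, _ => rfl
  | _, _, Forall₂.cons h h', Forall₂.cons k k' => by
    rw [le_antisymm h k, LLe.antisymm h' k']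

theorem LBd.le : ∀ {y x : List P}, LBd y x → LLe y x
  | _, _, Forall₂.nil => Forall₂.nil
  | _, _, Forall₂.cons h h' => Forall₂.cons (bd_le _ _ h) (LBd.le h')

theorem LBd.refl : ∀ x : List P, LBd x x
  | [] => Forall₂.nil
  | a :: x => Forall₂.cons (bd_refl a) (LBd.refl x)

theorem LBd.face : ∀ {y y' x' x : List P}, LLe y y' → LLe y' x' → LLe x' x → LBd y x →
    LBd y' x'
  | _, _, _, _, Forall₂.nil, Forall₂.nil, _, _ => Forall₂.nil
  | _, _, _, _, Forall₂.cons a a', Forall₂.cons b b', Forall₂.cons c c', Forall₂.cons d d' =>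
    Forall₂.cons (bd_face _ _ _ _ a b c d) (LBd.face a' b' c' d')

theorem le_LPsi : ∀ {l x : List P}, LLe l x → LLe l (LPsi l x)
  | _, _, Forall₂.nil => Forall₂.nil
  | _, _, Forall₂.cons h h' => Forall₂.cons (le_psi _ _ h) (le_LPsi h')

theorem LPsi_le : ∀ {l x : List P}, LLe l x → LLe (LPsi l x) x
  | _, _, Forall₂.nil => Forall₂.nil
  | _, _, Forall₂.cons h h' => Forall₂.cons (psi_le _ _ h) (LPsi_le h')

theorem eq_of_LPsi : ∀ {l x : List P}, LLe l x → LPsi l x = x → x = l
  | _, _, Forall₂.nil, _ => rfl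
  | _, _, Forall₂.cons (l₁ := l) (l₂ := x) h h', e => by
    have e' : psi _ _ :: LPsi l x = _ :: x := e
    rw [List.cons.injEq] at e'
    rw [eq_of_psi _ _ h e'.1, eq_of_LPsi h' e'.2]

theorem LPsi_mono : ∀ {l x y : List P}, LLe l x → LLe x y → LLe (LPsi l x) (LPsi l y)
  | _, _, _, Forall₂.nil, Forall₂.nil => Forall₂.nil
  | _, _, _, Forall₂.cons h h', Forall₂.cons k k' =>
    Forall₂.cons (psi_mono _ _ _ h k) (LPsi_mono h' k')

theorem bd_LPsi : ∀ {l x : List P}, LLe l x → LBd (LPsi l x) x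
  | _, _, Forall₂.nil => Forall₂.nil
  | _, _, Forall₂.cons h h' => Forall₂.cons (bd_psi _ _ h) (bd_LPsi h')

theorem LPsi_bd : ∀ {l y x : List P}, LLe l y → LBd y x → LLe (LPsi l x) y
  | _, _, _, Forall₂.nil, Forall₂.nil => Forall₂.nil
  | _, _, _, Forall₂.cons h h', Forall₂.cons k k' =>
    Forall₂.cons (psi_bd _ _ _ h k) (LPsi_bd h' k')

/-- The degree of the first components. -/
def LNu : List P → List P → ℕ
  | a :: _, b :: _ => nu a b
  | _, _ => 0

theorem LNu_add : ∀ {x y z : List P}, LLe x y → LLe y z → LNu x z = LNu x y + LNu y z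
  | _, _, _, Forall₂.nil, Forall₂.nil => rfl
  | _, _, _, Forall₂.cons h _, Forall₂.cons k _ => nu_add _ _ _ h k

variable {G : Type} [Group G] [ToggleAct G P]

theorem LLe.smul (g : G) : ∀ {x y : List P}, LLe x y → LLe (x.map (g • ·)) (y.map (g • ·))
  | _, _, Forall₂.nil => Forall₂.nil
  | _, _, Forall₂.cons h h' => Forall₂.cons (ToggleAct.smul_mono g _ _ h) (LLe.smul g h')

theorem LBd.smul (g : G) : ∀ {x y : List P}, LBd x y → LBd (x.map (g • ·)) (y.map (g • ·))
  | _, _, Forall₂.nil => Forall₂.nil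
  | _, _, Forall₂.cons h h' => Forall₂.cons (ToggleAct.bd_smul g _ _ h) (LBd.smul g h')

theorem LPsi_smul (g : G) : ∀ {x y : List P}, LLe x y →
    LPsi (x.map (g • ·)) (y.map (g • ·)) = (LPsi x y).map (g • ·)
  | _, _, Forall₂.nil => rfl
  | _, _, Forall₂.cons (l₁ := x) (l₂ := y) h h' => by
    change psi _ _ :: LPsi (x.map (g • ·)) (y.map (g • ·)) = _ :: (LPsi x y).map (g • ·)
    rw [LPsi_smul g h']
    congr 1
    exact ToggleAct.psi_smul g _ _ h

theorem LNu_smul (g : G) : ∀ {x y : List P}, LLe x y →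
    LNu (x.map (g • ·)) (y.map (g • ·)) = LNu x y
  | _, _, Forall₂.nil => rfl
  | _, _, Forall₂.cons h _ => ToggleAct.nu_smul g _ _ h

end

/-! ### Unions of components -/

section
variable {P : Type} [TogglePoset P] (D : P → Prop) (hD : ∀ x y : P, x ≤ y → (D x ↔ D y))

include hD in
open Classical in
/-- The toggle on a union of components. -/
noncomputable def subPsi (l x : {x : P // D x}) : {x : P // D x} :=
  if h : l.1 ≤ x.1 then ⟨psi l.1 x.1, (hD _ _ (le_psi _ _ h)).1 l.2⟩ else x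

theorem subPsi_val (l x : {x : P // D x}) (h : l.1 ≤ x.1) :
    (subPsi D hD l x).1 = psi l.1 x.1 := by
  unfold subPsi
  rw [dif_pos h]

/-- A union of components is a toggle poset. -/
@[reducible] noncomputable def subToggle : TogglePoset {x : P // D x} where
  le a b := a.1 ≤ b.1
  lt a b := a.1 < b.1
  le_refl a := le_rfl
  le_trans a b c h h' := h.trans h'
  le_antisymm a b h h' := Subtype.ext (le_antisymm h h')
  lt_iff_le_not_ge a b := lt_iff_le_not_ge
  nu a b := nu a.1 b.1
  nu_add a b c h h' := nu_add a.1 b.1 c.1 h h'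
  eq_of_nu a b h h' := Subtype.ext (eq_of_nu a.1 b.1 h h')
  bd a b := bd a.1 b.1
  bnd := bnd P
  bd_le a b h := bd_le a.1 b.1 h
  bd_refl a := bd_refl a.1
  bd_face y y' x' x h1 h2 h3 h := bd_face y.1 y'.1 x'.1 x.1 h1 h2 h3 h
  bd_nu y x h := bd_nu y.1 x.1 h
  psi := subPsi D hD
  le_psi l x h := by
    have h1 : l.1 ≤ x.1 := h
    rw [subPsi_val D hD l x h1]
    exact le_psi l.1 x.1 h1
  psi_le l x h := by
    have h1 : l.1 ≤ x.1 := h
    rw [subPsi_val D hD l x h1]
    exact psi_le l.1 x.1 h1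
  eq_of_psi l x h e := by
    have h1 : l.1 ≤ x.1 := h
    have h2 := congrArg Subtype.val e
    rw [subPsi_val D hD l x h1] at h2
    exact Subtype.ext (eq_of_psi l.1 x.1 h1 h2)
  psi_mono l x y h h' := by
    have h1 : l.1 ≤ x.1 := h
    have h2 : x.1 ≤ y.1 := h'
    rw [subPsi_val D hD l x h1, subPsi_val D hD l y (h1.trans h2)]
    exact psi_mono l.1 x.1 y.1 h1 h2
  bd_psi l x h := by
    have h1 : l.1 ≤ x.1 := h
    rw [subPsi_val D hD l x h1]
    exact bd_psi l.1 x.1 h1
  psi_bd l y x h h' := by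
    have h1 : l.1 ≤ y.1 := h
    have h2 : y.1 ≤ x.1 := bd_le y.1 x.1 h'
    rw [subPsi_val D hD l x (h1.trans h2)]
    exact psi_bd l.1 y.1 x.1 h1 h'

variable (G : Type) [Group G] [ToggleAct G P] (hG : ∀ (g : G) (x : P), D x → D (g • x))

include hG in
/-- The action on a union of components. -/
@[reducible] noncomputable def subToggleAct :
    @ToggleAct G {x : P // D x} _ (subToggle D hD) :=
  letI := subToggle D hD
  { smul := fun g x => ⟨g • x.1, hG g x.1 x.2⟩
    one_smul := fun x => Subtype.ext (one_smul G x.1)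
    mul_smul := fun g h x => Subtype.ext (mul_smul g h x.1)
    smul_mono := fun g x y h => ToggleAct.smul_mono g x.1 y.1 h
    nu_smul := fun g x y h => ToggleAct.nu_smul g x.1 y.1 h
    bd_smul := fun g x y h => ToggleAct.bd_smul g x.1 y.1 h
    psi_smul := fun g l x h => by
      have h1 : l.1 ≤ x.1 := h
      have h2 : g • l.1 ≤ g • x.1 := ToggleAct.smul_mono g _ _ h1
      have e1 := subPsi_val D hD ⟨g • l.1, hG g l.1 l.2⟩ ⟨g • x.1, hG g x.1 x.2⟩ h2
      have e2 := subPsi_val D hD l x h1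
      apply Subtype.ext
      change (subPsi D hD ⟨g • l.1, hG g l.1 l.2⟩ ⟨g • x.1, hG g x.1 x.2⟩).1 =
        g • (subPsi D hD l x).1
      rw [e1, e2]
      exact ToggleAct.psi_smul g l.1 x.1 h1 }

end

end Pool.Agent.GLA2
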