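import Pool.Agent.Lib.MP_8f66f0_al_GLA.A2Psi
import Pool.Agent.Lib.MP_8f66f0_al_GLA.A2List

/-!
The toggle posets of labels and flags; extensions of flags; stabilisers.
-/

set_option autoImplicit false

namespace Pool.Agent.GLA2

open Pool.Agent.GLA
open scoped Pointwise

variable {M : Type} [ShL M]

open Classical in
/-- The toggle of labels. -/
noncomputable def psiL (l x : Lab M) : Lab M :=
  if h : MT l.1 x.1 then ⟨psiS l.1 x.1, isLab_psiS l.2 x.2 h⟩ else x

theorem psiL_val {l x : Lab M} (h : MT l.1 x.1) : (psiL l x).1 = psiS l.1 x.1 := by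
  unfold psiL
  rw [dif_pos h]

noncomputable instance : TogglePoset (Lab M) where
  toPartialOrder := inferInstance
  nu l x := nuS l.1 x.1
  nu_add x y z h h' := nuS_add x.2 y.2 z.2 (lab_le_iff.1 h) (lab_le_iff.1 h')
  eq_of_nu x y h h' := Subtype.ext (eq_of_nuS x.2 y.2 (lab_le_iff.1 h) h')
  bd y x := BdS y.1 x.1
  bnd := per M * per M
  bd_le y x h := lab_le_iff.2 h.mt
  bd_refl x := BdS.refl x.2
  bd_face y y' x' x h1 h2 h3 h := ⟨lab_le_iff.1 h2, h.face (lab_le_iff.1 h1) (lab_le_iff.1 h3)⟩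
  bd_nu y x h := nuS_le x.2 h
  psi := psiL
  le_psi l x h := by
    have h1 := lab_le_iff.1 h
    rw [lab_le_iff, psiL_val h1]
    exact le_psiS h1
  psi_le l x h := by
    have h1 := lab_le_iff.1 h
    rw [lab_le_iff, psiL_val h1]
    exact psiS_le h1
  eq_of_psi l x h e := by
    have h1 := lab_le_iff.1 h
    have h2 := congrArg Subtype.val e
    rw [psiL_val h1] at h2
    exact (Subtype.ext (psiS_eq l.2 x.2 h1 h2)).symm
  psi_mono l x y h h' := by
    have h1 := lab_le_iff.1 h
    have h2 := lab_le_iff.1 h'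
    rw [lab_le_iff, psiL_val h1, psiL_val (h1.trans h2)]
    exact psiS_mono l.2 y.2 h1 h2
  bd_psi l x h := by
    have h1 := lab_le_iff.1 h
    rw [psiL_val h1]
    exact bd_psiS x.2 h1
  psi_bd l y x h h' := by
    have h1 := lab_le_iff.1 h
    rw [lab_le_iff, psiL_val (h1.trans h'.mt)]
    exact psiS_bd l.2 x.2 h1 h'

noncomputable instance {G : Type} [Group G] [ShAct G M] : ToggleAct G (Lab M) where
  toMulAction := inferInstance
  smul_mono g x y h := Lab.le_smul g h
  nu_smul g x y h := nuS_smul g x.2 y.2 (lab_le_iff.1 h)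
  bd_smul g y x h := BdS.smul g h
  psi_smul g l x h := by
    have h1 := lab_le_iff.1 h
    have h2 : MT (g • l).1 (g • x).1 := MT.smul g h1
    apply Subtype.ext
    change (psiL (g • l) (g • x)).1 = g • (psiL l x).1
    rw [psiL_val h1, psiL_val h2]
    exact psiS_smul g l.1 x.1

/-! ### Nested labels -/

/-- The matchings of nested labels agree. -/
theorem align {l x : Set (M × M)} (hx : IsLab x) (h : MT l x) {p q p' q' : M × M}
    (hp : p ∈ l) (hq : q ∈ x) (h1 : p.2 = p'.2) (h2 : q.2 = q'.2) (h3 : q.1 ≤ q'.1)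
    (hq' : q'.1 < q'.2) (hm : Mt p' q') : Mt p q := by
  obtain ⟨q1, hq1, h4⟩ := h.down p hp
  by_cases h5 : q1 = q
  · rwa [← h5]
  · exfalso
    rcases hx.ch q1 hq1 q hq h5 with h6 | h6
    · have h7 : p'.2 ≤ q'.1 := by
        rw [← h1]
        exact (h4.le2.trans h6).trans h3
      have h8 : q'.1 = q'.2 := by
        rw [← hm.1, sup_eq_right.2 h7]
      exact hq'.ne h8
    · have h7 : p.2 ≤ q1.1 := by
        rw [h1]
        refine hm.le2.trans ?_
        rw [← h2]
        exact h6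
      have h8 : q1.1 = q1.2 := by
        rw [← h4.1, sup_eq_right.2 h7]
      exact (hx.lt q1 hq1).ne h8

theorem nest_psiS {l x l' x' : Set (M × M)} (hx : IsLab x) (hx' : IsLab x') (h : MT l x)
    (hl : Nest l l') (hx2 : Nest x x') : Nest (psiS l x) (psiS l' x') := by
  rintro t ⟨p', hp', q', hq', h1, rfl⟩
  obtain ⟨p, hp, h2, h3⟩ := hl p' hp'
  obtain ⟨q, hq, h4, h5⟩ := hx2 q' hq'
  have h6 : Mt p q := align hx h hp hq h2 h4 h5 (hx'.lt q' hq') h1
  refine ⟨tp p q, ⟨p, hp, q, hq, h6, rfl⟩, ?_, ?_⟩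
  · change p.2 ⊔ sh q.2 = p'.2 ⊔ sh q'.2
    rw [h2, h4]
  · exact sup_le_sup h3 (ShL.sh_mono _ _ h5)

theorem nest_psiL {l x l' x' : Lab M} (h : l ≤ x) (h' : l' ≤ x') (hl : Lab.nest l l')
    (hx : Lab.nest x x') : Lab.nest (psiL l x) (psiL l' x') := by
  have h1 := lab_le_iff.1 h
  have h2 := lab_le_iff.1 h'
  refine ⟨?_, ?_⟩
  · have e1 : (psiL l x).rk = l.rk := (TogglePoset.le_psi l x h).1.symm
    have e2 : (psiL l' x').rk = l'.rk := (TogglePoset.le_psi l' x' h').1.symm
    rw [e1, e2]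
    exact hl.1
  · rw [psiL_val h1, psiL_val h2]
    exact nest_psiS x.2 x'.2 h1 hl.2 hx.2

/-- Flags are determined by the first component, inside an interval. -/
theorem nest_eq {x l' x' : Lab M} (h' : l' ≤ x') (hl : Lab.nest x l')
    (hx : Lab.nest x x') : l' = x' := by
  have h2 := lab_le_iff.1 h'
  refine Subtype.ext (h2.eq_of_sub l'.2 x'.2 fun q' hq' => ?_)
  obtain ⟨p', hp', h1⟩ := h2.up q' hq'
  obtain ⟨p, hp, h3, h4⟩ := hl.2 p' hp'
  obtain ⟨q, hq, h5, h6⟩ := hx.2 q' hq'
  have h7 : Mt p q := align x.2 (MT.refl x.2) hp hq h3 h5 h6 (x'.2.lt q' hq') h1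
  have h8 : p = q := mt_right x.2 hp hq (Mt.refl (x.2.lt p hp).le) h7
  rw [← h1.eq_of_snd (by rw [← h3, h8, h5])]
  exact hp'

theorem chain_psi : ∀ {l x : List (Lab M)}, LLe l x → l.IsChain Lab.nest →
    x.IsChain Lab.nest → (LPsi l x).IsChain Lab.nest
  | _, _, List.Forall₂.nil, _, _ => List.IsChain.nil
  | _, _, List.Forall₂.cons _ List.Forall₂.nil, _, _ => List.isChain_singleton _
  | _, _, List.Forall₂.cons h (List.Forall₂.cons k k'), c, d => by
    rw [List.isChain_cons_cons] at c d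
    have ih := chain_psi (List.Forall₂.cons k k') c.2 d.2
    exact List.isChain_cons_cons.2 ⟨nest_psiL h k c.1 d.1, ih⟩

theorem chain_eq : ∀ {l x : List (Lab M)} {a : Lab M}, LLe l x →
    (a :: l).IsChain Lab.nest → (a :: x).IsChain Lab.nest → l = x
  | _, _, _, List.Forall₂.nil, _, _ => rfl
  | _, _, a, List.Forall₂.cons (a := b) (b := b') k k', c, d => by
    rw [List.isChain_cons_cons] at c d
    have h1 : b = b' := nest_eq k c.1 d.1
    rw [← h1] at d
    rw [chain_eq k' c.2 d.2, h1]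

open Classical in
/-- The toggle of flags. -/
noncomputable def psiF (l x : GLA.Flag M) : GLA.Flag M :=
  if h : LLe l.1 x.1 then ⟨LPsi l.1 x.1, chain_psi h l.2 x.2⟩ else x

theorem psiF_val {l x : GLA.Flag M} (h : LLe l.1 x.1) : (psiF l x).1 = LPsi l.1 x.1 := by
  unfold psiF
  rw [dif_pos h]

instance : PartialOrder (GLA.Flag M) where
  le := GLA.Flag.le
  le_refl x := LLe.refl x.1
  le_trans x y z h h' := LLe.trans h h'
  le_antisymm x y h h' := Subtype.ext (LLe.antisymm h h')

theorem flag_le_iff {x y : GLA.Flag M} : x ≤ y ↔ LLe x.1 y.1 := Iff.rfl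

noncomputable instance : TogglePoset (GLA.Flag M) where
  toPartialOrder := inferInstance
  nu l x := LNu l.1 x.1
  nu_add x y z h h' := LNu_add h h'
  eq_of_nu x y h h' := by
    obtain ⟨x, cx⟩ := x
    obtain ⟨y, cy⟩ := y
    apply Subtype.ext
    cases h with
    | nil => rfl
    | cons k k' =>
      have h1 := TogglePoset.eq_of_nu _ _ k h'
      change _ :: _ = _ :: _
      subst h1
      rw [chain_eq k' cx cy]
  bd y x := LBd y.1 x.1
  bnd := per M * per M
  bd_le y x h := h.le
  bd_refl x := LBd.refl x.1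
  bd_face y y' x' x h1 h2 h3 h := h.face h1 h2 h3
  bd_nu y x h := by
    obtain ⟨y, cy⟩ := y
    obtain ⟨x, cx⟩ := x
    cases h with
    | nil => exact Nat.zero_le _
    | cons k k' => exact TogglePoset.bd_nu _ _ k
  psi := psiF
  le_psi l x h := by
    rw [flag_le_iff, psiF_val h]
    exact le_LPsi h
  psi_le l x h := by
    rw [flag_le_iff, psiF_val h]
    exact LPsi_le h
  eq_of_psi l x h e := by
    have h2 := congrArg Subtype.val e
    rw [psiF_val h] at h2
    exact Subtype.ext (eq_of_LPsi h h2)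
  psi_mono l x y h h' := by
    rw [flag_le_iff, psiF_val h, psiF_val (LLe.trans h h')]
    exact LPsi_mono h h'
  bd_psi l x h := by
    rw [psiF_val h]
    exact bd_LPsi h
  psi_bd l y x h h' := by
    rw [flag_le_iff, psiF_val (LLe.trans h h'.le)]
    exact LPsi_bd h h'

noncomputable instance {G : Type} [Group G] [ShAct G M] : ToggleAct G (GLA.Flag M) where
  toMulAction := inferInstance
  smul_mono g x y h := GLA.Flag.le_smul g h
  nu_smul g x y h := LNu_smul g h
  bd_smul g y x h := LBd.smul g h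
  psi_smul g l x h := by
    have h1 : LLe l.1 x.1 := h
    have h2 : LLe (g • l).1 (g • x).1 := LLe.smul g h1
    apply Subtype.ext
    change (psiF (g • l) (g • x)).1 = (psiF l x).1.map (g • ·)
    rw [psiF_val h1, psiF_val h2]
    exact LPsi_smul g h1

/-! ### Flags of fixed ranks -/

/-- The ranks of a flag. -/
noncomputable def rks (φ : GLA.Flag M) : List ℕ := φ.1.map Lab.rk

theorem rks_aux : ∀ {l x : List (Lab M)}, LLe l x → l.map Lab.rk = x.map Lab.rk
  | _, _, List.Forall₂.nil => rfl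
  | _, _, List.Forall₂.cons k k' => by
    rw [List.map_cons, List.map_cons, rks_aux k']
    congr 1
    exact (show Lab.le _ _ from k).1

theorem rks_eq {φ ψ : GLA.Flag M} (h : φ ≤ ψ) : rks φ = rks ψ := rks_aux h

theorem rks_smul {G : Type} [Group G] [ShAct G M] (g : G) (φ : GLA.Flag M) :
    rks (g • φ) = rks φ := by
  unfold rks
  rw [GLA.Flag.smul_val, List.map_map]
  congr 1
  funext x
  exact Lab.rk_smul g x

end Pool.Agent.GLA2
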