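import Pool.Agent.Lib.MP_8f66f0_al_GLA.A2Base

/-!
Labels: sums modulo the shift, the matching, the order.
-/

set_option autoImplicit false

namespace Pool.Agent.GLA2

open Pool.Agent.GLA

variable {M : Type} [ShL M]

theorem mem_shp {P : Set (M × M)} (hP : IsLab P) (k : ℤ) (p : M × M) :
    shp k p ∈ P ↔ p ∈ P := by
  induction k using Int.induction_on generalizing p with
  | zero => rw [shp_zero]
  | succ k ih =>
    rw [add_comm, shp_add, shp_one]
    exact (hP.st _).trans (ih p)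
  | pred k ih =>
    have h1 : shp (-(k : ℤ)) p = shp 1 (shp (-(k : ℤ) - 1) p) := by
      rw [← shp_add, add_sub_cancel]
    rw [← ih p, h1, shp_one]
    exact (hP.st _).symm

theorem le_or {P : Set (M × M)} (hP : IsLab P) {p q : M × M} (hp : p ∈ P) (hq : q ∈ P) :
    p.2 ≤ q.2 ∨ q.2 ≤ p.2 := by
  by_cases h : p = q
  · rw [h]
    exact Or.inl le_rfl
  · rcases hP.ch p hp q hq h with h1 | h1
    · exact Or.inl (h1.trans (hP.lt q hq).le)
    · exact Or.inr (h1.trans (hP.lt p hp).le)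

theorem eq_of_ht_snd {P : Set (M × M)} (hP : IsLab P) {p q : M × M} (hp : p ∈ P) (hq : q ∈ P)
    (h : ht p.2 = ht q.2) : p = q := by
  by_contra hne
  rcases hP.ch p hp q hq hne with h1 | h1
  · exact absurd (ShL.ht_lt _ _ (h1.trans_lt (hP.lt q hq))) (by omega)
  · exact absurd (ShL.ht_lt _ _ (h1.trans_lt (hP.lt p hp))) (by omega)

/-- The fundamental domain. -/
def FD (P : Set (M × M)) : Set (M × M) := {p | p ∈ P ∧ 0 ≤ ht p.2 ∧ ht p.2 < per M}

theorem FD_fin {P : Set (M × M)} (hP : IsLab P) : (FD P).Finite := by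
  refine Set.Finite.of_finite_image (f := fun p : M × M => ht p.2) ?_ ?_
  · refine (Set.finite_Ico (0 : ℤ) (per M)).subset ?_
    rintro _ ⟨p, hp, rfl⟩
    exact ⟨hp.2.1, hp.2.2⟩
  · intro p hp q hq h
    exact eq_of_ht_snd hP hp.1 hq.1 h

/-- The normal form. -/
def nf (p : M × M) : M × M := shp (ht p.2 / per M) p

theorem ht_nf (p : M × M) : ht (nf p).2 = ht p.2 % per M := by
  unfold nf
  rw [shp_snd, ht_shz]
  have := Int.mul_ediv_add_emod (ht p.2) (per M)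
  linear_combination -this

theorem nf_mem {P : Set (M × M)} (hP : IsLab P) {p : M × M} (hp : p ∈ P) : nf p ∈ FD P := by
  have h0 : (0 : ℤ) < per M := by exact_mod_cast ShL.per_pos (M := M)
  refine ⟨(mem_shp hP _ _).2 hp, ?_, ?_⟩
  · rw [ht_nf]
    exact Int.emod_nonneg _ h0.ne'
  · rw [ht_nf]
    exact Int.emod_lt_of_pos _ h0

theorem nf_shp (k : ℤ) (p : M × M) : nf (shp k p) = nf p := by
  have h0 : (0 : ℤ) < per M := by exact_mod_cast ShL.per_pos (M := M)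
  unfold nf
  rw [← shp_add, shp_snd, ht_shz]
  congr 1
  rw [Int.sub_mul_ediv_right _ _ h0.ne']
  ring

theorem nf_eq {P : Set (M × M)} {p : M × M} (hp : p ∈ FD P) : nf p = p := by
  unfold nf
  rw [Int.ediv_eq_zero_of_lt hp.2.1 hp.2.2, shp_zero]

/-- Sums modulo the shift are invariant under bijections. -/
theorem sm_bij {P Q : Set (M × M)} (hP : IsLab P) (hQ : IsLab Q) (β : M × M → M × M)
    (hm : ∀ q ∈ Q, β q ∈ P) (hi : ∀ q ∈ Q, ∀ q' ∈ Q, β q = β q' → q = q')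
    (hsu : ∀ p ∈ P, ∃ q ∈ Q, β q = p)
    (hs : ∀ q ∈ Q, ∀ k, β (shp k q) = shp k (β q)) (w : M × M → ℕ)
    (hw : ∀ p ∈ P, ∀ k, w (shp k p) = w p) :
    ∑ᶠ q ∈ FD Q, w (β q) = ∑ᶠ p ∈ FD P, w p := by
  have h0 : (0 : ℤ) < per M := by exact_mod_cast ShL.per_pos (M := M)
  refine finsum_mem_eq_of_bijOn (fun q => nf (β q)) ⟨?_, ?_, ?_⟩ ?_
  · intro q hq
    exact nf_mem hP (hm q hq.1)
  · intro q hq q' hq' h
    change nf (β q) = nf (β q') at h
    unfold nf at h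
    rw [← hs q hq.1, ← hs q' hq'.1] at h
    have h1 := hi _ ((mem_shp hQ _ _).2 hq.1) _ ((mem_shp hQ _ _).2 hq'.1) h
    have h2 : nf q = nf q' := by
      have := congrArg nf h1
      rwa [nf_shp, nf_shp] at this
    rwa [nf_eq hq, nf_eq hq'] at h2
  · intro p hp
    obtain ⟨q, hq, rfl⟩ := hsu p hp.1
    refine ⟨nf q, nf_mem hQ hq, ?_⟩
    change nf (β (nf q)) = β q
    unfold nf
    rw [hs q hq]
    change nf (shp _ (β q)) = β q
    rw [nf_shp, nf_eq hp]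
  · intro q hq
    unfold nf
    rw [hw _ (hm q hq.1)]

/-- The weight of a pair. -/
def wt (p : M × M) : ℕ := (1 + ht p.2 - ht p.1).toNat

theorem wt_pos {p : M × M} (h : p.1 ≤ p.2) : 0 < wt p := by
  have := ht_le h
  unfold wt
  omega

theorem wt_shp (k : ℤ) (p : M × M) : wt (shp k p) = wt p := by
  unfold wt
  rw [shp_snd, shp_fst, ht_shz, ht_shz]
  congr 1
  ring

theorem rk_eq (P : Set (M × M)) : rk P = ∑ᶠ p ∈ FD P, wt p := rfl

theorem Mt.wt {p q : M × M} (h : Mt p q) : wt q = wt p := by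
  have := h.ht
  unfold GLA2.wt
  congr 1
  omega

theorem rk_lt {P P' : Set (M × M)} (hP : IsLab P) (hP' : IsLab P') (h : P' ⊆ P)
    (hne : ∃ p ∈ P, p ∉ P') : rk P' < rk P := by
  have h1 : FD P' ⊆ FD P := fun p hp => ⟨h hp.1, hp.2⟩
  rw [rk_eq, rk_eq, ← finsum_mem_add_sdiff h1 (FD_fin hP)]
  obtain ⟨p, hp, hp'⟩ := hne
  have h2 : nf p ∈ FD P \ FD P' := by
    refine ⟨nf_mem hP hp, fun h3 => hp' ?_⟩
    exact (mem_shp hP' _ _).1 h3.1
  have h3 : 0 < ∑ᶠ q ∈ FD P \ FD P', wt q := by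
    rw [finsum_mem_eq_finite_toFinset_sum _ ((FD_fin hP).diff)]
    refine Finset.sum_pos' (fun _ _ => Nat.zero_le _) ⟨nf p, ?_, ?_⟩
    · rw [Set.Finite.mem_toFinset]
      exact h2
    · exact wt_pos (hP.lt _ h2.1.1).le
  omega

theorem rk_pos {P : Set (M × M)} (hP : IsLab P) : 0 < rk P := by
  obtain ⟨p, hp⟩ := hP.ne
  rw [rk_eq, finsum_mem_eq_finite_toFinset_sum _ (FD_fin hP)]
  refine Finset.sum_pos' (fun _ _ => Nat.zero_le _) ⟨nf p, ?_, ?_⟩
  · rw [Set.Finite.mem_toFinset]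
    exact nf_mem hP hp
  · exact wt_pos (hP.lt _ (nf_mem hP hp).1).le

/-! ### Uniqueness of the matching -/

theorem mt_left {l m : Set (M × M)} (hl : IsLab l) (hm : IsLab m) {p p' q : M × M}
    (hp : p ∈ l) (hp' : p' ∈ l) (hq : q ∈ m) (h : Mt p q) (h' : Mt p' q) : p = p' := by
  have key : ∀ {a b : M × M}, Mt a q → Mt b q → ¬ a.2 ≤ b.1 := by
    intro a b ha hb hab
    have h1 : a.2 ≤ q.1 := hab.trans hb.le1
    have h2 : q.1 = q.2 := by
      rw [← ha.1, sup_eq_right.2 h1]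
    exact (hm.lt q hq).ne h2
  by_contra hne
  rcases hl.ch p hp p' hp' hne with h1 | h1
  · exact key h h' h1
  · exact key h' h h1

theorem mt_right {m : Set (M × M)} (hm : IsLab m) {p q q' : M × M}
    (hq : q ∈ m) (hq' : q' ∈ m) (h : Mt p q) (h' : Mt p q') : q = q' := by
  have key : ∀ {a b : M × M}, a ∈ m → b ∈ m → Mt p a → Mt p b → ¬ a.2 ≤ b.1 := by
    intro a b _ hb ha hb' hab
    have h2 : b.1 = b.2 := by
      rw [← hb'.1, sup_eq_right.2 (ha.le2.trans hab)]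
    exact (hm.lt b hb).ne h2
  by_contra hne
  rcases hm.ch q hq q' hq' hne with h1 | h1
  · exact key hq hq' h h' h1
  · exact key hq' hq h' h h1

/-- A two sided matching. -/
structure MT (P Q : Set (M × M)) : Prop where
  up : ∀ q ∈ Q, ∃ p ∈ P, Mt p q
  down : ∀ p ∈ P, ∃ q ∈ Q, Mt p q

theorem MT.refl {P : Set (M × M)} (hP : IsLab P) : MT P P :=
  ⟨fun q hq => ⟨q, hq, Mt.refl (hP.lt q hq).le⟩, fun q hq => ⟨q, hq, Mt.refl (hP.lt q hq).le⟩⟩

theorem MT.trans {P Q R : Set (M × M)} (h : MT P Q) (h' : MT Q R) : MT P R := by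
  refine ⟨fun r hr => ?_, fun p hp => ?_⟩
  · obtain ⟨q, hq, h1⟩ := h'.up r hr
    obtain ⟨p, hp, h2⟩ := h.up q hq
    exact ⟨p, hp, h2.trans h1⟩
  · obtain ⟨q, hq, h1⟩ := h.down p hp
    obtain ⟨r, hr, h2⟩ := h'.down q hq
    exact ⟨r, hr, h1.trans h2⟩

/-- The matched pair. -/
noncomputable def mp (P : Set (M × M)) (q : M × M) : M × M := by
  classical exact if h : ∃ p ∈ P, Mt p q then h.choose else q

theorem mp_spec {P : Set (M × M)} {q : M × M} (h : ∃ p ∈ P, Mt p q) :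
    mp P q ∈ P ∧ Mt (mp P q) q := by
  unfold mp
  rw [dif_pos h]
  exact h.choose_spec

theorem mp_eq {P Q : Set (M × M)} (hP : IsLab P) (hQ : IsLab Q) {p q : M × M} (hp : p ∈ P)
    (hq : q ∈ Q) (h : Mt p q) : mp P q = p := by
  have h1 := mp_spec ⟨p, hp, h⟩
  exact mt_left hP hQ h1.1 hp hq h1.2 h

theorem mp_shp {P Q : Set (M × M)} (hP : IsLab P) (hQ : IsLab Q) (h : Up P Q) {q : M × M}
    (hq : q ∈ Q) (k : ℤ) : mp P (shp k q) = shp k (mp P q) := by
  have h1 := mp_spec (P := P) (h q hq)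
  exact mp_eq hP hQ ((mem_shp hP _ _).2 h1.1) ((mem_shp hQ _ _).2 hq) (h1.2.shp k)

/-- A two sided matching gives equal ranks. -/
theorem MT.rk {P Q : Set (M × M)} (hP : IsLab P) (hQ : IsLab Q) (h : MT P Q) :
    rk P = rk Q := by
  rw [rk_eq, rk_eq, ← sm_bij hP hQ (mp P) (fun q hq => (mp_spec (h.up q hq)).1) ?_ ?_
    (fun q hq k => mp_shp hP hQ h.up hq k) GLA2.wt (fun p _ k => wt_shp k p)]
  · refine finsum_mem_congr rfl fun q hq => ?_
    exact (mp_spec (h.up q hq.1)).2.wt.symm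
  · intro q hq q' hq' he
    have h1 := (mp_spec (h.up q hq)).2
    have h2 := (mp_spec (h.up q' hq')).2
    rw [← he] at h2
    exact mt_right hQ hq hq' h1 h2
  · intro p hp
    obtain ⟨q, hq, h1⟩ := h.down p hp
    exact ⟨q, hq, mp_eq hP hQ hp hq h1⟩

theorem isLab_sub {P P' : Set (M × M)} (hP : IsLab P) (h : P' ⊆ P) (hne : P'.Nonempty)
    (hs : ∀ p : M × M, (sh p.1, sh p.2) ∈ P' ↔ p ∈ P') : IsLab P' :=
  ⟨hne, hs, fun p hp => hP.lt p (h hp), fun p hp q hq => hP.ch p (h hp) q (h hq)⟩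

/-- The order of `Defs` is a two sided matching. -/
theorem le_iff (P Q : Lab M) : Lab.le P Q ↔ MT P.1 Q.1 := by
  constructor
  · rintro ⟨h1, h2⟩
    refine ⟨h2, ?_⟩
    by_contra hne
    push Not at hne
    obtain ⟨p0, hp0, hno⟩ := hne
    let P' : Set (M × M) := {p | p ∈ P.1 ∧ ∃ q ∈ Q.1, Mt p q}
    have hsub : P' ⊆ P.1 := fun p hp => hp.1
    have hP' : IsLab P' := by
      refine isLab_sub P.2 hsub ?_ ?_
      · obtain ⟨q, hq⟩ := Q.2.ne
        obtain ⟨p, hp, h3⟩ := h2 q hq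
        exact ⟨p, hp, q, hq, h3⟩
      · intro p
        rw [← shp_one]
        constructor
        · rintro ⟨h3, q, hq, h4⟩
          refine ⟨(mem_shp P.2 _ _).1 h3, shp (-1) q, (mem_shp Q.2 _ _).2 hq, ?_⟩
          have := h4.shp (-1)
          rwa [shp_neg] at this
        · rintro ⟨h3, q, hq, h4⟩
          exact ⟨(mem_shp P.2 _ _).2 h3, shp 1 q, (mem_shp Q.2 _ _).2 hq, h4.shp 1⟩
    have h4 : MT P' Q.1 := by
      refine ⟨fun q hq => ?_, fun p hp => hp.2⟩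
      obtain ⟨p, hp, h3⟩ := h2 q hq
      exact ⟨p, ⟨hp, q, hq, h3⟩, h3⟩
    have h5 := h4.rk hP' Q.2
    have h6 := rk_lt P.2 hP' hsub ⟨p0, hp0, fun h => by
      obtain ⟨_, q, hq, h7⟩ := h
      exact hno q hq h7⟩
    have h7 : GLA.rk P.1 = GLA.rk Q.1 := h1
    omega
  · intro h
    exact ⟨h.rk P.2 Q.2, h.up⟩

theorem MT.antisymm_aux {P Q : Set (M × M)} (hQ : IsLab Q) (h : MT P Q)
    (h' : MT Q P) {q : M × M} (hq : q ∈ Q) : q ∈ P := by
  obtain ⟨p, hp, h1⟩ := h.up q hq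
  obtain ⟨q', hq', h2⟩ := h'.up p hp
  have h3 : Mt q' q := h2.trans h1
  have h4 : q' = q := mt_right hQ hq' hq (Mt.refl (hQ.lt q' hq').le) h3
  rw [h4] at h2
  rw [← h1.antisymm h2]
  exact hp

theorem MT.antisymm {P Q : Set (M × M)} (hP : IsLab P) (hQ : IsLab Q) (h : MT P Q)
    (h' : MT Q P) : P = Q :=
  Set.Subset.antisymm (fun _ hp => MT.antisymm_aux hP h' h hp)
    (fun _ hq => MT.antisymm_aux hQ h h' hq)

instance : PartialOrder (Lab M) where
  le := Lab.le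
  le_refl P := (le_iff P P).2 (MT.refl P.2)
  le_trans P Q R h h' := (le_iff P R).2 (((le_iff P Q).1 h).trans ((le_iff Q R).1 h'))
  le_antisymm P Q h h' := Subtype.ext
    (MT.antisymm P.2 Q.2 ((le_iff P Q).1 h) ((le_iff Q P).1 h'))

theorem lab_le_iff {P Q : Lab M} : P ≤ Q ↔ MT P.1 Q.1 := le_iff P Q

/-- The matching preserves the order. -/
theorem mt_order {P Q : Set (M × M)} (hP : IsLab P) (hQ : IsLab Q) {p p' q q' : M × M}
    (hp : p ∈ P) (hp' : p' ∈ P) (hq : q ∈ Q) (hq' : q' ∈ Q) (h : Mt p q) (h' : Mt p' q')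
    (hlt : p.2 ≤ p'.1) : q.2 ≤ q'.1 := by
  have hne : q ≠ q' := by
    rintro rfl
    have h1 := mt_left hP hQ hp hp' hq h h'
    rw [h1] at hlt
    exact absurd (hP.lt p' hp') (not_lt_of_ge hlt)
  rcases hQ.ch q hq q' hq' hne with h1 | h1
  · exact h1
  · exfalso
    have h2 : p.2 ≤ q.1 := (hlt.trans (hP.lt p' hp').le).trans (h'.le2.trans h1)
    have h3 : q.1 = q.2 := by
      rw [← h.1, sup_eq_right.2 h2]
    exact (hQ.lt q hq).ne h3

end Pool.Agent.GLA2
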