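import Pool.Agent.Lib.MP_8f66f0_al_GLA.A2Lab
import Pool.Agent.Lib.MP_8f66f0_al_GLA.Toggle

/-!
The toggle poset of labels.
-/

set_option autoImplicit false

namespace Pool.Agent.GLA2

open Pool.Agent.GLA
open scoped Pointwise

variable {M : Type} [ShL M]

theorem Mt.up {p r r' : M × M} (h : Mt p r) (h' : Mt p r') (hle : r.1 ≤ r'.1) : Mt r r' := by
  constructor
  · rw [← h.1, sup_assoc, sup_eq_right.2 hle, h'.1]
  · rw [← h.1, sup_comm, modular hle, h'.2, sup_eq_left.2 h.le1]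

theorem Mt.lt {p q : M × M} (h : Mt p q) (hp : p.1 < p.2) : q.1 < q.2 := by
  have h1 : q.1 ≤ q.2 := by
    rw [← h.1]
    exact le_sup_right
  refine lt_of_le_of_ne h1 fun he => ?_
  have h2 := h.ht
  rw [he] at h2
  have := ShL.ht_lt _ _ hp
  omega

/-- The toggle of a matched pair. -/
def tp (p q : M × M) : M × M := (p.1 ⊔ sh q.1, p.2 ⊔ sh q.2)

theorem tp_eq {p q : M × M} (h : Mt p q) : tp p q = (p.1 ⊔ sh q.1, p.2 ⊔ (p.1 ⊔ sh q.1)) := by
  refine Prod.ext rfl ?_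
  change p.2 ⊔ sh q.2 = p.2 ⊔ (p.1 ⊔ sh q.1)
  rw [← h.1, sh_sup, ← sup_assoc, ← sup_assoc, sup_eq_left.2 (ShL.sh_le p.2),
    sup_eq_left.2 h.fst_le]

theorem tp_fst_le {p q : M × M} (h : Mt p q) : (tp p q).1 ≤ q.1 :=
  sup_le h.le1 (ShL.sh_le _)

theorem tp_l {p q : M × M} (h : Mt p q) : Mt p (tp p q) := by
  rw [tp_eq h]
  exact (h.mid le_sup_left (tp_fst_le h)).1

theorem tp_r {p q : M × M} (h : Mt p q) : Mt (tp p q) q := by
  rw [tp_eq h]
  exact (h.mid le_sup_left (tp_fst_le h)).2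

theorem tp_shp (k : ℤ) (p q : M × M) : tp (shp k p) (shp k q) = shp k (tp p q) := by
  have h : ∀ a : M, sh (shz k a) = shz k (sh a) := by
    intro a
    rw [← shz_succ', shz_succ]
  refine Prod.ext ?_ ?_
  · change shz k p.1 ⊔ sh (shz k q.1) = shz k (p.1 ⊔ sh q.1)
    rw [map_sup, h]
  · change shz k p.2 ⊔ sh (shz k q.2) = shz k (p.2 ⊔ sh q.2)
    rw [map_sup, h]

/-- The toggle on sets of pairs. -/
def psiS (l x : Set (M × M)) : Set (M × M) := {t | ∃ p ∈ l, ∃ q ∈ x, Mt p q ∧ t = tp p q}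

theorem isLab_psiS {l x : Set (M × M)} (hl : IsLab l) (hx : IsLab x) (h : MT l x) :
    IsLab (psiS l x) := by
  refine ⟨?_, ?_, ?_, ?_⟩
  · obtain ⟨q, hq⟩ := hx.ne
    obtain ⟨p, hp, h1⟩ := h.up q hq
    exact ⟨tp p q, p, hp, q, hq, h1, rfl⟩
  · intro t
    rw [← shp_one]
    constructor
    · rintro ⟨p, hp, q, hq, h1, h2⟩
      refine ⟨shp (-1) p, (mem_shp hl _ _).2 hp, shp (-1) q, (mem_shp hx _ _).2 hq,
        h1.shp _, ?_⟩
      rw [tp_shp, ← h2, shp_neg]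
    · rintro ⟨p, hp, q, hq, h1, h2⟩
      exact ⟨shp 1 p, (mem_shp hl _ _).2 hp, shp 1 q, (mem_shp hx _ _).2 hq, h1.shp _, by
        rw [tp_shp, ← h2]⟩
  · rintro t ⟨p, hp, q, hq, h1, rfl⟩
    exact (tp_l h1).lt (hl.lt p hp)
  · rintro t ⟨p, hp, q, hq, h1, rfl⟩ t' ⟨p', hp', q', hq', h1', rfl⟩ hne
    have hpp : p ≠ p' := by
      rintro rfl
      have := mt_right hx hq hq' h1 h1'
      rw [this] at hne
      exact hne rfl
    rcases hl.ch p hp p' hp' hpp with h2 | h2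
    · refine Or.inl ?_
      have h3 := mt_order hl hx hp hp' hq hq' h1 h1' h2
      exact sup_le (h2.trans le_sup_left) ((ShL.sh_mono _ _ h3).trans le_sup_right)
    · refine Or.inr ?_
      have h3 := mt_order hl hx hp' hp hq' hq h1' h1 h2
      exact sup_le (h2.trans le_sup_left) ((ShL.sh_mono _ _ h3).trans le_sup_right)

theorem le_psiS {l x : Set (M × M)} (h : MT l x) : MT l (psiS l x) := by
  refine ⟨?_, ?_⟩
  · rintro t ⟨p, hp, q, hq, h1, rfl⟩
    exact ⟨p, hp, tp_l h1⟩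
  · intro p hp
    obtain ⟨q, hq, h1⟩ := h.down p hp
    exact ⟨tp p q, ⟨p, hp, q, hq, h1, rfl⟩, tp_l h1⟩

theorem psiS_le {l x : Set (M × M)} (h : MT l x) : MT (psiS l x) x := by
  refine ⟨?_, ?_⟩
  · intro q hq
    obtain ⟨p, hp, h1⟩ := h.up q hq
    exact ⟨tp p q, ⟨p, hp, q, hq, h1, rfl⟩, tp_r h1⟩
  · rintro t ⟨p, hp, q, hq, h1, rfl⟩
    exact ⟨q, hq, tp_r h1⟩

theorem MT.eq_of_sub {l x : Set (M × M)} (hl : IsLab l) (hx : IsLab x) (h : MT l x)
    (hs : x ⊆ l) : l = x := by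
  refine Set.Subset.antisymm (fun p hp => ?_) hs
  obtain ⟨q, hq, h1⟩ := h.down p hp
  rw [mt_left hl hx hp (hs hq) hq h1 (Mt.refl (hx.lt q hq).le)]
  exact hq

theorem psiS_eq {l x : Set (M × M)} (hl : IsLab l) (hx : IsLab x) (h : MT l x)
    (he : psiS l x = x) : l = x := by
  refine h.eq_of_sub hl hx fun q hq => ?_
  have h1 : q ∈ psiS l x := by
    rw [he]
    exact hq
  obtain ⟨p, hp, q', hq', h2, h3⟩ := h1
  have h4 : Mt q q' := by
    rw [h3]
    exact tp_r h2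
  have h5 : q = q' := mt_right hx hq hq' (Mt.refl (hx.lt q hq).le) h4
  rw [← h5] at h2 h3
  have h6 : q.1 ≤ p.1 := by
    refine nak ?_
    have := congrArg Prod.fst h3
    exact this.le
  rw [← h2.eq_of_fst (le_antisymm h2.le1 h6)]
  exact hp

theorem psiS_mono {l x y : Set (M × M)} (hl : IsLab l) (hy : IsLab y) (h : MT l x)
    (h' : MT x y) : MT (psiS l x) (psiS l y) := by
  have key : ∀ {p q q' : M × M}, Mt p q → Mt q q' → Mt (tp p q) (tp p q') := by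
    intro p q q' h1 h2
    exact (tp_l h1).up (tp_l (h1.trans h2))
      (sup_le_sup_left (ShL.sh_mono _ _ h2.le1) _)
  refine ⟨?_, ?_⟩
  · rintro t ⟨p, hp, q', hq', h1, rfl⟩
    obtain ⟨q, hq, h2⟩ := h'.up q' hq'
    obtain ⟨p', hp', h3⟩ := h.up q hq
    have h4 : p = p' := mt_left hl hy hp hp' hq' h1 (h3.trans h2)
    rw [← h4] at h3
    exact ⟨tp p q, ⟨p, hp, q, hq, h3, rfl⟩, key h3 h2⟩
  · rintro t ⟨p, hp, q, hq, h1, rfl⟩
    obtain ⟨q', hq', h2⟩ := h'.down q hq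
    exact ⟨tp p q', ⟨p, hp, q', hq', h1.trans h2, rfl⟩, key h1 h2⟩

/-- Bounded pairs. -/
structure BdS (y x : Set (M × M)) : Prop where
  mt : MT y x
  bd : ∀ p ∈ y, ∀ q ∈ x, Mt p q → sh q.1 ≤ p.1

theorem BdS.refl {x : Set (M × M)} (hx : IsLab x) : BdS x x := by
  refine ⟨MT.refl hx, fun p hp q hq h => ?_⟩
  rw [← mt_right hx hp hq (Mt.refl (hx.lt p hp).le) h]
  exact ShL.sh_le _

theorem BdS.face {y y' x' x : Set (M × M)} (h1 : MT y y') (h3 : MT x' x)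
    (h : BdS y x) : ∀ p ∈ y', ∀ q ∈ x', Mt p q → sh q.1 ≤ p.1 := by
  intro p hp q hq h4
  obtain ⟨q1, hq1, h5⟩ := h3.down q hq
  obtain ⟨p1, hp1, h6⟩ := h1.up p hp
  exact (ShL.sh_mono _ _ h5.le1).trans
    ((h.bd p1 hp1 q1 hq1 ((h6.trans h4).trans h5)).trans h6.le1)

theorem bd_psiS {l x : Set (M × M)} (hx : IsLab x) (h : MT l x) : BdS (psiS l x) x := by
  refine ⟨psiS_le h, ?_⟩
  rintro t ⟨p, hp, q, hq, h1, rfl⟩ q' hq' h2
  rw [mt_right hx hq' hq h2 (tp_r h1)]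
  exact le_sup_right

theorem psiS_bd {l y x : Set (M × M)} (hl : IsLab l) (hx : IsLab x) (h : MT l y)
    (hb : BdS y x) : MT (psiS l x) y := by
  refine ⟨?_, ?_⟩
  · intro r hr
    obtain ⟨p, hp, h1⟩ := h.up r hr
    obtain ⟨q, hq, h2⟩ := hb.mt.down r hr
    refine ⟨tp p q, ⟨p, hp, q, hq, h1.trans h2, rfl⟩, (tp_l (h1.trans h2)).up h1 ?_⟩
    exact sup_le h1.le1 (hb.bd r hr q hq h2)
  · rintro t ⟨p, hp, q, hq, h1, rfl⟩
    obtain ⟨r, hr, h2⟩ := hb.mt.up q hq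
    obtain ⟨p', hp', h3⟩ := h.up r hr
    have h4 : p = p' := mt_left hl hx hp hp' hq h1 (h3.trans h2)
    rw [← h4] at h3
    refine ⟨r, hr, (tp_l h1).up h3 ?_⟩
    exact sup_le h3.le1 (hb.bd r hr q hq h2)

/-! ### The degree -/

/-- The difference of heights. -/
def dh (p q : M × M) : ℕ := (ht q.2 - ht p.2).toNat

theorem dh_shp (k : ℤ) (p q : M × M) : dh (shp k p) (shp k q) = dh p q := by
  unfold dh
  rw [shp_snd, shp_snd, ht_shz, ht_shz]
  congr 1
  ring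

theorem dh_add {p q r : M × M} (h : Mt p q) (h' : Mt q r) : dh p r = dh p q + dh q r := by
  have h1 := ht_le h.le2
  have h2 := ht_le h'.le2
  unfold dh
  omega

/-- The degree. -/
noncomputable def nuS (l x : Set (M × M)) : ℕ := ∑ᶠ q ∈ FD x, dh (mp l q) q

theorem nuS_add {x y z : Set (M × M)} (hx : IsLab x) (hy : IsLab y) (hz : IsLab z)
    (h : MT x y) (h' : MT y z) : nuS x z = nuS x y + nuS y z := by
  have h1 : nuS x z = ∑ᶠ q ∈ FD z, (dh (mp x (mp y q)) (mp y q) + dh (mp y q) q) := by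
    refine finsum_mem_congr rfl fun q hq => ?_
    have h2 := mp_spec (h'.up q hq.1)
    have h3 := mp_spec (h.up _ h2.1)
    rw [mp_eq hx hz h3.1 hq.1 (h3.2.trans h2.2)]
    exact dh_add h3.2 h2.2
  rw [h1, finsum_mem_add_distrib (FD_fin hz)]
  congr 1
  refine sm_bij hy hz (mp y) (fun q hq => (mp_spec (h'.up q hq)).1) ?_ ?_
    (fun q hq k => mp_shp hy hz h'.up hq k) (fun r => dh (mp x r) r) ?_
  · intro q hq q' hq' he
    have h1 := (mp_spec (h'.up q hq)).2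
    have h2 := (mp_spec (h'.up q' hq')).2
    rw [← he] at h2
    exact mt_right hz hq hq' h1 h2
  · intro p hp
    obtain ⟨q, hq, h1⟩ := h'.down p hp
    exact ⟨q, hq, mp_eq hy hz hp hq h1⟩
  · intro p hp k
    change dh (mp x (shp k p)) (shp k p) = dh (mp x p) p
    rw [mp_shp hx hy h.up hp, dh_shp]

theorem eq_of_nuS {x y : Set (M × M)} (hx : IsLab x) (hy : IsLab y) (h : MT x y)
    (h0 : nuS x y = 0) : x = y := by
  refine h.eq_of_sub hx hy fun q hq => ?_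
  have h1 : nf q ∈ x := by
    have h2 := nf_mem hy hq
    have h3 := mp_spec (h.up _ h2.1)
    have h4 : dh (mp x (nf q)) (nf q) = 0 := by
      unfold nuS at h0
      rw [finsum_mem_eq_finite_toFinset_sum _ (FD_fin hy)] at h0
      exact (Finset.sum_eq_zero_iff.1 h0) _ ((FD_fin hy).mem_toFinset.2 h2)
    have h5 : (mp x (nf q)).2 = (nf q).2 := by
      refine eq_of_ht h3.2.le2 ?_
      unfold dh at h4
      omega
    rw [← h3.2.eq_of_snd h5]
    exact h3.1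
  exact (mem_shp hx _ _).1 h1

theorem FD_card {P : Set (M × M)} (hP : IsLab P) : (FD_fin hP).toFinset.card ≤ per M := by
  have h1 : ((FD_fin hP).toFinset.image fun p : M × M => ht p.2).card ≤
      (Finset.Ico (0 : ℤ) (per M)).card := by
    refine Finset.card_le_card fun a ha => ?_
    obtain ⟨p, hp, rfl⟩ := Finset.mem_image.1 ha
    have h2 := (FD_fin hP).mem_toFinset.1 hp
    exact Finset.mem_Ico.2 ⟨h2.2.1, h2.2.2⟩
  rw [Finset.card_image_of_injOn] at h1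
  · simpa using h1
  · intro p hp q hq h
    have hp' := (FD_fin hP).mem_toFinset.1 hp
    have hq' := (FD_fin hP).mem_toFinset.1 hq
    exact eq_of_ht_snd hP hp'.1 hq'.1 h

theorem nuS_le {y x : Set (M × M)} (hx : IsLab x) (h : BdS y x) :
    nuS y x ≤ per M * per M := by
  unfold nuS
  rw [finsum_mem_eq_finite_toFinset_sum _ (FD_fin hx)]
  refine (Finset.sum_le_card_nsmul _ _ (per M) fun q hq => ?_).trans ?_
  · have h1 := (FD_fin hx).mem_toFinset.1 hq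
    have h2 := mp_spec (h.mt.up q h1.1)
    have h3 := ht_le (h.bd _ h2.1 q h1.1 h2.2)
    rw [ShL.ht_sh] at h3
    have h4 := h2.2.ht
    unfold dh
    omega
  · rw [smul_eq_mul]
    exact Nat.mul_le_mul_right _ (FD_card hx)

/-! ### The action -/

section
variable {G : Type} [Group G] [ShAct G M]

theorem Mt.smul (g : G) {p q : M × M} (h : Mt p q) : Mt (g • p) (g • q) := by
  constructor
  · rw [Prod.smul_snd, Prod.smul_fst, ← smul_sup, h.1, Prod.smul_snd]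
  · rw [Prod.smul_snd, Prod.smul_fst, ← smul_inf, h.2, Prod.smul_fst]

theorem MT.smul (g : G) {P Q : Set (M × M)} (h : MT P Q) : MT (g • P) (g • Q) := by
  constructor
  · intro q hq
    obtain ⟨q0, hq0, rfl⟩ := hq
    obtain ⟨p, hp, h1⟩ := h.up q0 hq0
    exact ⟨g • p, Set.smul_mem_smul_set hp, h1.smul g⟩
  · intro p hp
    obtain ⟨p0, hp0, rfl⟩ := hp
    obtain ⟨q, hq, h1⟩ := h.down p0 hp0
    exact ⟨g • q, Set.smul_mem_smul_set hq, h1.smul g⟩

theorem tp_smul (g : G) (p q : M × M) : tp (g • p) (g • q) = g • tp p q := by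
  refine Prod.ext ?_ ?_
  · change g • p.1 ⊔ sh (g • q.1) = g • (p.1 ⊔ sh q.1)
    rw [smul_sup, ShAct.smul_sh]
  · change g • p.2 ⊔ sh (g • q.2) = g • (p.2 ⊔ sh q.2)
    rw [smul_sup, ShAct.smul_sh]

theorem psiS_smul_sub (g : G) (l x : Set (M × M)) : g • psiS l x ⊆ psiS (g • l) (g • x) := by
  rintro _ ⟨t, ⟨p, hp, q, hq, h1, rfl⟩, rfl⟩
  exact ⟨g • p, Set.smul_mem_smul_set hp, g • q, Set.smul_mem_smul_set hq, h1.smul g,
    (tp_smul g p q).symm⟩

theorem psiS_smul (g : G) (l x : Set (M × M)) : psiS (g • l) (g • x) = g • psiS l x := by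
  refine Set.Subset.antisymm ?_ (psiS_smul_sub g l x)
  have h1 := psiS_smul_sub g⁻¹ (g • l) (g • x)
  rw [inv_smul_smul, inv_smul_smul] at h1
  intro t ht
  rw [Set.mem_smul_set_iff_inv_smul_mem]
  exact h1 (Set.smul_mem_smul_set ht)

theorem BdS.smul (g : G) {y x : Set (M × M)} (h : BdS y x) : BdS (g • y) (g • x) := by
  refine ⟨h.mt.smul g, ?_⟩
  rintro _ ⟨p, hp, rfl⟩ _ ⟨q, hq, rfl⟩ h1
  have h2 := h1.smul g⁻¹
  change Mt (g⁻¹ • g • p) (g⁻¹ • g • q) at h2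
  rw [inv_smul_smul, inv_smul_smul] at h2
  have h3 := ShAct.smul_mono g _ _ (h.bd p hp q hq h2)
  change sh (g • q.1) ≤ g • p.1
  rwa [← ShAct.smul_sh]

theorem nuS_smul (g : G) {l x : Set (M × M)} (hl : IsLab l) (hx : IsLab x) (h : MT l x) :
    nuS (g • l) (g • x) = nuS l x := by
  unfold nuS
  symm
  refine finsum_mem_eq_of_bijOn (fun q => g • q) ⟨?_, ?_, ?_⟩ ?_
  · rintro q ⟨h1, h2, h3⟩
    refine ⟨Set.smul_mem_smul_set h1, ?_, ?_⟩
    · change 0 ≤ ht (g • q.2)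
      rwa [ShAct.ht_smul]
    · change ht (g • q.2) < _
      rwa [ShAct.ht_smul]
  · intro q _ q' _ he
    exact smul_left_cancel g he
  · rintro _ ⟨⟨q, hq, rfl⟩, h2, h3⟩
    refine ⟨q, ⟨hq, ?_, ?_⟩, rfl⟩
    · change 0 ≤ ht (g • q.2) at h2
      rwa [ShAct.ht_smul] at h2
    · change ht (g • q.2) < _ at h3
      rwa [ShAct.ht_smul] at h3
  · intro q hq
    have h1 := mp_spec (h.up q hq.1)
    have h2 : mp (g • l) (g • q) = g • mp l q :=
      mp_eq (hl.smul g) (hx.smul g) (Set.smul_mem_smul_set h1.1)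
        (Set.smul_mem_smul_set hq.1) (h1.2.smul g)
    change dh (mp l q) q = dh (mp (g • l) (g • q)) (g • q)
    rw [h2]
    unfold dh
    rw [Prod.smul_snd, Prod.smul_snd, ShAct.ht_smul, ShAct.ht_smul]

end

end Pool.Agent.GLA2
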