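import Pool.Agent.Lib.MP_8f66f0_al_GLA.A2Ext

/-!
Labels supported on a cell (E8); discrete toggle posets; flags of fixed ranks.
-/

set_option autoImplicit false

namespace Pool.Agent.GLA2

open Pool.Agent.GLA
open scoped Pointwise

variable {M : Type} [ShL M]

/-- The label is supported on the chain `s`: every `F` is a member of `s`, and `U` contains all
members smaller than `F`. -/
def Supp (s : Set M) (P : Set (M × M)) : Prop := ∀ p ∈ P, p.2 ∈ s ∧ ∀ a ∈ s, a < p.2 → a ≤ p.1

/-- (E8) Comparable labels which are supported on the same chain are equal. -/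
theorem eq_of_supp {s : Set M} {P Q : Lab M} (hP : Supp s P.1) (hQ : Supp s Q.1)
    (h : Lab.le P Q) : P = Q := by
  have h1 := (le_iff P Q).1 h
  refine Subtype.ext (h1.eq_of_sub P.2 Q.2 fun q hq => ?_)
  obtain ⟨p, hp, h2⟩ := h1.up q hq
  have h3 : p.2 = q.2 := by
    by_contra hne
    have h4 : p.2 < q.2 := lt_of_le_of_ne h2.le2 hne
    have h5 := (hQ q hq).2 p.2 (hP p hp).1 h4
    have h6 : q.1 = q.2 := by
      rw [← h2.1, sup_eq_right.2 h5]
    exact (Q.2.lt q hq).ne h6
  rw [← h2.eq_of_snd h3]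
  exact hp

/-- Following labels are supported too. -/
theorem Supp.nest {s : Set M} {P Q : Set (M × M)} (hP : Supp s P) (h : Nest P Q) :
    Supp s Q := by
  intro q hq
  obtain ⟨p, hp, h1, h2⟩ := h q hq
  rw [← h1]
  exact ⟨(hP p hp).1, fun a ha hl => ((hP p hp).2 a ha hl).trans h2⟩

theorem Supp.smul {G : Type} [Group G] [ShAct G M] (g : G) {s : Set M} {P : Set (M × M)}
    (hP : Supp s P) : Supp (g • s) (g • P) := by
  rintro _ ⟨p, hp, rfl⟩
  refine ⟨Set.smul_mem_smul_set (hP p hp).1, ?_⟩
  rintro _ ⟨a, ha, rfl⟩ hl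
  exact ShAct.smul_mono g _ _ ((hP p hp).2 a ha ((smul_lt_iff g _ _).1 hl))

/-- Flags on the same chain: comparable flags are equal. -/
theorem flag_eq_of_supp {s : Set M} : ∀ {l x : List (Lab M)}, LLe l x →
    (∀ P ∈ l, Supp s P.1) → (∀ P ∈ x, Supp s P.1) → l = x
  | _, _, List.Forall₂.nil, _, _ => rfl
  | _, _, List.Forall₂.cons (a := a) (b := b) k k', h, h' => by
    have h1 : a = b := eq_of_supp (h a List.mem_cons_self) (h' b List.mem_cons_self) k
    rw [h1, flag_eq_of_supp k' (fun P hP => h P (List.mem_cons_of_mem _ hP))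
      (fun P hP => h' P (List.mem_cons_of_mem _ hP))]

/-! ### Discrete toggle posets -/

/-- The discrete toggle poset on a type. -/
@[reducible] def discToggle (X : Type) : TogglePoset X where
  le a b := a = b
  lt _ _ := False
  le_refl _ := rfl
  le_trans _ _ _ h h' := h.trans h'
  le_antisymm _ _ h _ := h
  lt_iff_le_not_ge a b := ⟨False.elim, fun h => h.2 h.1.symm⟩
  nu _ _ := 0
  nu_add _ _ _ _ _ := rfl
  eq_of_nu _ _ h _ := h
  bd a b := a = b
  bnd := 0
  bd_le _ _ h := h
  bd_refl _ := rfl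
  bd_face _ _ _ _ _ h _ _ := h
  bd_nu _ _ _ := le_rfl
  psi l _ := l
  le_psi _ _ _ := rfl
  psi_le _ _ h := h
  eq_of_psi _ _ _ h := h.symm
  psi_mono _ _ _ _ _ := rfl
  bd_psi _ _ h := h
  psi_bd _ _ _ h _ := h

/-- The action on a discrete toggle poset. -/
@[reducible] def discToggleAct (G X : Type) [Group G] [MulAction G X] :
    @ToggleAct G X _ (discToggle X) :=
  letI := discToggle X
  { smul_mono := fun g x y h => congrArg (g • ·) (show x = y from h)
    nu_smul := fun _ _ _ _ => rfl
    bd_smul := fun g x y h => congrArg (g • ·) (show x = y from h)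
    psi_smul := fun _ _ _ _ => rfl }

/-! ### Flags with fixed ranks -/

variable (M) in
/-- The flags with the list of ranks `D`. -/
def FlagR (D : List ℕ) : Type := {φ : GLA.Flag M // rks φ = D}

theorem flagR_iff (D : List ℕ) (x y : GLA.Flag M) (h : x ≤ y) : rks x = D ↔ rks y = D := by
  rw [rks_eq h]

noncomputable instance (D : List ℕ) : TogglePoset (FlagR M D) :=
  subToggle (fun φ : GLA.Flag M => rks φ = D) (flagR_iff D)

noncomputable instance (D : List ℕ) {G : Type} [Group G] [ShAct G M] :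
    ToggleAct G (FlagR M D) :=
  subToggleAct (fun φ : GLA.Flag M => rks φ = D) (flagR_iff D) G
    (fun g φ h => (rks_smul g φ).trans h)

theorem flagR_le_iff {D : List ℕ} {x y : FlagR M D} : x ≤ y ↔ x.1 ≤ y.1 := Iff.rfl

theorem flagR_smul_val {D : List ℕ} {G : Type} [Group G] [ShAct G M] (g : G) (x : FlagR M D) :
    (g • x).1 = g • x.1 := rfl

end Pool.Agent.GLA2
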