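import Mathlib

/-!
Linear algebra for the toggle contraction: endomorphisms `d`, `V` of `X →₀ ℤ` with `d d = 0`,
`V V = 0`, `d V + V d = 1 + N`, `N` locally nilpotent with respect to a weight.
-/

set_option autoImplicit false

namespace Pool.Agent.GLA2

variable {X : Type}

/-- The chains supported on `Y`. -/
abbrev Spd (Y : Set X) : Submodule ℤ (X →₀ ℤ) := Finsupp.supported ℤ ℤ Y

theorem single_spd {Y : Set X} {x : X} (h : x ∈ Y) (n : ℤ) : Finsupp.single x n ∈ Spd Y := by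
  rw [Finsupp.mem_supported]
  intro y hy
  have h1 := Finsupp.support_single_subset hy
  rw [Finset.mem_singleton] at h1
  rwa [h1]

theorem maps_of_single {Y : Set X} {W : Submodule ℤ (X →₀ ℤ)} (T : Module.End ℤ (X →₀ ℤ))
    (h : ∀ x ∈ Y, T (Finsupp.single x 1) ∈ W) {a : X →₀ ℤ} (ha : a ∈ Spd Y) : T a ∈ W := by
  rw [← Finsupp.sum_single a, Finsupp.sum, map_sum]
  refine W.sum_mem fun x hx => ?_
  rw [← mul_one (a x), ← smul_eq_mul, ← Finsupp.smul_single, map_smul]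
  exact W.smul_mem _ (h x ((Finsupp.mem_supported _ _).1 ha hx))

/-- The weight drops. -/
def Drop (wt : X → ℕ) (N : Module.End ℤ (X →₀ ℤ)) : Prop :=
  ∀ x, N (Finsupp.single x 1) ∈ Spd {y | wt y < wt x}

theorem exists_bound (wt : X → ℕ) (a : X →₀ ℤ) : ∃ k, a ∈ Spd {y | wt y < k} := by
  refine ⟨a.support.sup wt + 1, ?_⟩
  rw [Finsupp.mem_supported]
  intro y hy
  exact Nat.lt_succ_of_le (Finset.le_sup (f := wt) hy)

theorem Drop.step {wt : X → ℕ} {N : Module.End ℤ (X →₀ ℤ)} (h : Drop wt N) {k : ℕ}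
    {a : X →₀ ℤ} (ha : a ∈ Spd {y | wt y < k + 1}) : N a ∈ Spd {y | wt y < k} := by
  refine maps_of_single N (fun x hx => ?_) ha
  refine Finsupp.supported_mono ?_ (h x)
  intro y hy
  have h1 : wt y < wt x := hy
  have h2 : wt x < k + 1 := hx
  exact (by omega : wt y < k)

theorem Drop.pow {wt : X → ℕ} {N : Module.End ℤ (X →₀ ℤ)} (h : Drop wt N) :
    ∀ (k : ℕ) {a : X →₀ ℤ}, a ∈ Spd {y | wt y < k} → (N ^ k) a = 0
  | 0, a, ha => by
    have h1 : a = 0 := by
      rw [← Finsupp.support_eq_empty]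
      rw [Finsupp.mem_supported] at ha
      refine Finset.eq_empty_of_forall_notMem fun y hy => ?_
      exact Nat.not_lt_zero _ (ha hy)
    rw [h1, map_zero]
  | k + 1, a, ha => by
    rw [pow_succ, Module.End.mul_apply]
    exact h.pow k (h.step ha)

theorem Drop.pow_le {wt : X → ℕ} {N : Module.End ℤ (X →₀ ℤ)} (h : Drop wt N) {k l : ℕ}
    (hl : k ≤ l) {a : X →₀ ℤ} (ha : a ∈ Spd {y | wt y < k}) : (N ^ l) a = 0 :=
  h.pow l (Finsupp.supported_mono (fun _ hy => lt_of_lt_of_le hy hl) ha)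

theorem Drop.neg {wt : X → ℕ} {N : Module.End ℤ (X →₀ ℤ)} (h : Drop wt N) : Drop wt (-N) := by
  intro x
  rw [LinearMap.neg_apply]
  exact Submodule.neg_mem _ (h x)

/-- The partial sums of the geometric series. -/
noncomputable def gs (N : Module.End ℤ (X →₀ ℤ)) (k : ℕ) : Module.End ℤ (X →₀ ℤ) :=
  ∑ j ∈ Finset.range k, (-N) ^ j

/-- The inverse of `1 + N`. -/
noncomputable def ninv (wt : X → ℕ) (N : Module.End ℤ (X →₀ ℤ)) : Module.End ℤ (X →₀ ℤ) :=
  Finsupp.lift (X →₀ ℤ) ℤ X fun x => gs N (wt x + 1) (Finsupp.single x 1)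

theorem ninv_single (wt : X → ℕ) (N : Module.End ℤ (X →₀ ℤ)) (x : X) :
    ninv wt N (Finsupp.single x 1) = gs N (wt x + 1) (Finsupp.single x 1) := by
  unfold ninv
  rw [Finsupp.lift_apply, Finsupp.sum_single_index, one_smul]
  exact zero_smul _ _

theorem gs_stable {wt : X → ℕ} {N : Module.End ℤ (X →₀ ℤ)} (h : Drop wt N) {k l : ℕ}
    (hl : k ≤ l) {a : X →₀ ℤ} (ha : a ∈ Spd {y | wt y < k}) : gs N l a = gs N k a := by
  unfold gs
  rw [← Finset.sum_range_add_sum_Ico _ hl, LinearMap.add_apply]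
  have h1 : (∑ j ∈ Finset.Ico k l, (-N) ^ j) a = 0 := by
    rw [LinearMap.sum_apply]
    refine Finset.sum_eq_zero fun j hj => ?_
    exact h.neg.pow_le (Finset.mem_Ico.1 hj).1 ha
  rw [h1, add_zero]

theorem ninv_apply {wt : X → ℕ} {N : Module.End ℤ (X →₀ ℤ)} (h : Drop wt N) {k : ℕ}
    {a : X →₀ ℤ} (ha : a ∈ Spd {y | wt y < k}) : ninv wt N a = gs N k a := by
  have key : ∀ x : X, wt x < k → ninv wt N (Finsupp.single x 1) = gs N k (Finsupp.single x 1) := by
    intro x hx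
    rw [ninv_single]
    exact (gs_stable h (by omega) (single_spd (Y := {y | wt y < wt x + 1})
      (Nat.lt_succ_self _) 1)).symm
  have h1 : (ninv wt N - gs N k) a ∈ (⊥ : Submodule ℤ (X →₀ ℤ)) := by
    refine maps_of_single _ (fun x hx => ?_) ha
    rw [LinearMap.sub_apply, key x hx, sub_self]
    exact Submodule.zero_mem _
  rw [Submodule.mem_bot, LinearMap.sub_apply, sub_eq_zero] at h1
  exact h1

theorem ninv_mul {wt : X → ℕ} {N : Module.End ℤ (X →₀ ℤ)} (h : Drop wt N) :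
    ninv wt N * (1 + N) = 1 := by
  refine LinearMap.ext fun a => ?_
  obtain ⟨k, hk⟩ := exists_bound wt a
  have h1 : (1 + N) a ∈ Spd {y | wt y < k + 1} := by
    rw [LinearMap.add_apply]
    refine Submodule.add_mem _ ?_ ?_
    · exact Finsupp.supported_mono (fun y hy => Nat.lt_succ_of_lt hy) hk
    · refine Finsupp.supported_mono (fun y hy => Nat.lt_succ_of_lt hy) (h.step (k := k) ?_)
      exact Finsupp.supported_mono (fun y hy => Nat.lt_succ_of_lt hy) hk
  rw [Module.End.mul_apply, ninv_apply h h1, ← Module.End.mul_apply]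
  have h2 : gs N (k + 1) * (1 + N) = 1 - (-N) ^ (k + 1) := by
    unfold gs
    have := geom_sum_mul_neg (-N) (k + 1)
    rwa [sub_neg_eq_add] at this
  rw [h2, LinearMap.sub_apply, h.neg.pow_le (Nat.le_succ k) hk, sub_zero]

theorem mul_ninv {wt : X → ℕ} {N : Module.End ℤ (X →₀ ℤ)} (h : Drop wt N) :
    (1 + N) * ninv wt N = 1 := by
  refine LinearMap.ext fun a => ?_
  obtain ⟨k, hk⟩ := exists_bound wt a
  rw [Module.End.mul_apply, ninv_apply h hk, ← Module.End.mul_apply]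
  have h2 : (1 + N) * gs N k = 1 - (-N) ^ k := by
    unfold gs
    have := mul_neg_geom_sum (-N) k
    rwa [sub_neg_eq_add] at this
  rw [h2, LinearMap.sub_apply, h.neg.pow k hk, sub_zero]

/-- Submodules stable under `N` are stable under the inverse. -/
theorem ninv_mem {wt : X → ℕ} {N : Module.End ℤ (X →₀ ℤ)} (h : Drop wt N)
    {W : Submodule ℤ (X →₀ ℤ)} (hW : ∀ a ∈ W, N a ∈ W) {a : X →₀ ℤ} (ha : a ∈ W) :
    ninv wt N a ∈ W := by
  obtain ⟨k, hk⟩ := exists_bound wt a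
  rw [ninv_apply h hk]
  unfold gs
  rw [LinearMap.sum_apply]
  refine W.sum_mem fun j _ => ?_
  have key : ∀ j : ℕ, ((-N) ^ j) a ∈ W := by
    intro j
    induction j with
    | zero => exact ha
    | succ j ih =>
      rw [pow_succ', Module.End.mul_apply, LinearMap.neg_apply]
      exact W.neg_mem (hW _ ih)
  exact key j

/-- Uniqueness of inverses, with an intertwining map. -/
theorem ninv_comm {Y : Type} {wt : X → ℕ} {N : Module.End ℤ (X →₀ ℤ)} (h : Drop wt N)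
    {wt' : Y → ℕ} {N' : Module.End ℤ (Y →₀ ℤ)} (h' : Drop wt' N')
    (T : (X →₀ ℤ) →ₗ[ℤ] (Y →₀ ℤ)) (hT : T ∘ₗ (1 + N) = (1 + N') ∘ₗ T) :
    T ∘ₗ ninv wt N = ninv wt' N' ∘ₗ T := by
  have e1 : (1 + N) ∘ₗ ninv wt N = LinearMap.id := mul_ninv h
  have e2 : ninv wt' N' ∘ₗ (1 + N') = LinearMap.id := ninv_mul h'
  calc T ∘ₗ ninv wt N = (ninv wt' N' ∘ₗ (1 + N')) ∘ₗ T ∘ₗ ninv wt N := by
        rw [e2, LinearMap.id_comp]
    _ = ninv wt' N' ∘ₗ (T ∘ₗ (1 + N)) ∘ₗ ninv wt N := by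
        rw [hT]
        simp only [LinearMap.comp_assoc]
    _ = ninv wt' N' ∘ₗ T := by
        rw [LinearMap.comp_assoc, e1, LinearMap.comp_id]

/-! ### The contraction -/

/-- The data of a toggle contraction. -/
structure TC (wt : X → ℕ) (d V : Module.End ℤ (X →₀ ℤ)) : Prop where
  dd : d * d = 0
  vv : V * V = 0
  drop : Drop wt (d * V + V * d - 1)

/-- The contraction. -/
noncomputable def ctr (wt : X → ℕ) (d V : Module.End ℤ (X →₀ ℤ)) : Module.End ℤ (X →₀ ℤ) :=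
  V * ninv wt (d * V + V * d - 1)

section
variable {wt : X → ℕ} {d V : Module.End ℤ (X →₀ ℤ)} (h : TC wt d V)
include h

theorem TC.inv_mul : ninv wt (d * V + V * d - 1) * (d * V + V * d) = 1 := by
  have := ninv_mul h.drop
  rwa [add_sub_cancel] at this

theorem TC.mul_inv : (d * V + V * d) * ninv wt (d * V + V * d - 1) = 1 := by
  have := mul_ninv h.drop
  rwa [add_sub_cancel] at this

theorem TC.comm_d : d * ninv wt (d * V + V * d - 1) = ninv wt (d * V + V * d - 1) * d := by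
  have h1 : d * (d * V + V * d) = (d * V + V * d) * d := by
    rw [mul_add, add_mul, ← mul_assoc, h.dd, zero_mul, zero_add, mul_assoc V d d, h.dd,
      mul_zero, add_zero, mul_assoc]
  calc d * ninv wt (d * V + V * d - 1) = ninv wt (d * V + V * d - 1) * (d * V + V * d) *
        (d * ninv wt (d * V + V * d - 1)) := by
        rw [h.inv_mul, one_mul]
    _ = ninv wt (d * V + V * d - 1) * (d * ((d * V + V * d) *
        ninv wt (d * V + V * d - 1))) := by
        rw [mul_assoc, ← mul_assoc _ d, ← h1, mul_assoc d]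
    _ = _ := by
        rw [h.mul_inv, mul_one]

theorem TC.comm_v : V * ninv wt (d * V + V * d - 1) = ninv wt (d * V + V * d - 1) * V := by
  have h1 : V * (d * V + V * d) = (d * V + V * d) * V := by
    rw [mul_add, add_mul, ← mul_assoc V V d, h.vv, zero_mul, add_zero, mul_assoc d V V, h.vv,
      mul_zero, zero_add, mul_assoc]
  calc V * ninv wt (d * V + V * d - 1) = ninv wt (d * V + V * d - 1) * (d * V + V * d) *
        (V * ninv wt (d * V + V * d - 1)) := by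
        rw [h.inv_mul, one_mul]
    _ = ninv wt (d * V + V * d - 1) * (V * ((d * V + V * d) *
        ninv wt (d * V + V * d - 1))) := by
        rw [mul_assoc, ← mul_assoc _ V, ← h1, mul_assoc V]
    _ = _ := by
        rw [h.mul_inv, mul_one]

theorem TC.ctr_dp : d * ctr wt d V + ctr wt d V * d = 1 := by
  unfold ctr
  rw [mul_assoc V, ← h.comm_d, ← mul_assoc, ← mul_assoc, ← add_mul, h.mul_inv]

theorem TC.ctr_pp : ctr wt d V * ctr wt d V = 0 := by
  unfold ctr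
  rw [mul_assoc, ← mul_assoc _ V, ← h.comm_v, ← mul_assoc, ← mul_assoc, h.vv, zero_mul,
    zero_mul]

/-- Submodules stable under `N`, mapped by `V`. -/
theorem TC.ctr_mem {W W' : Submodule ℤ (X →₀ ℤ)} (h1 : ∀ a ∈ W, V a ∈ W')
    (h2 : ∀ a ∈ W, d a ∈ W') (h3 : ∀ a ∈ W', V a ∈ W) (h4 : ∀ a ∈ W', d a ∈ W)
    {a : X →₀ ℤ} (ha : a ∈ W) : ctr wt d V a ∈ W' := by
  refine h1 _ (ninv_mem h.drop (fun b hb => ?_) ha)
  rw [LinearMap.sub_apply, LinearMap.add_apply]
  exact W.sub_mem (W.add_mem (h4 _ (h1 b hb)) (h3 _ (h2 b hb))) hb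

end

/-- Naturality. -/
theorem ctr_nat {Y : Type} {wt : X → ℕ} {d V : Module.End ℤ (X →₀ ℤ)} (h : TC wt d V)
    {wt' : Y → ℕ} {d' V' : Module.End ℤ (Y →₀ ℤ)} (h' : TC wt' d' V')
    (T : (X →₀ ℤ) →ₗ[ℤ] (Y →₀ ℤ)) (hd : T ∘ₗ d = d' ∘ₗ T) (hV : T ∘ₗ V = V' ∘ₗ T) :
    T ∘ₗ ctr wt d V = ctr wt' d' V' ∘ₗ T := by
  have h1 : T ∘ₗ (1 + (d * V + V * d - 1)) = (1 + (d' * V' + V' * d' - 1)) ∘ₗ T := by
    rw [add_sub_cancel, add_sub_cancel]
    change T ∘ₗ (d ∘ₗ V + V ∘ₗ d) = (d' ∘ₗ V' + V' ∘ₗ d') ∘ₗ T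
    have a1 : T ∘ₗ (d ∘ₗ V) = (d' ∘ₗ V') ∘ₗ T := by
      rw [← LinearMap.comp_assoc, hd, LinearMap.comp_assoc, hV, LinearMap.comp_assoc]
    have a2 : T ∘ₗ (V ∘ₗ d) = (V' ∘ₗ d') ∘ₗ T := by
      rw [← LinearMap.comp_assoc, hV, LinearMap.comp_assoc, hd, LinearMap.comp_assoc]
    rw [LinearMap.comp_add, LinearMap.add_comp, a1, a2]
  have h2 := ninv_comm h.drop h'.drop T h1
  change T ∘ₗ (V ∘ₗ _) = (V' ∘ₗ _) ∘ₗ T
  rw [← LinearMap.comp_assoc, hV, LinearMap.comp_assoc, h2, LinearMap.comp_assoc]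

end Pool.Agent.GLA2
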