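import Pool.Agent.Lib.MP_8f66f0_al_GLA.A3Alg

/-!
The abstract toggle contraction on a coloured complex.
-/

set_option autoImplicit false

namespace Pool.Agent.GLA2

/-- The sign. -/
def sg (S : Finset ℕ) (t : ℕ) : ℤ := (-1) ^ (S.filter (· < t)).card

theorem sg_sq (S : Finset ℕ) (t : ℕ) : sg S t * sg S t = 1 := by
  unfold sg
  rw [← mul_pow, neg_one_mul, neg_neg, one_pow]

theorem sg_insert {S : Finset ℕ} {t : ℕ} (ht : t ∉ S) (u : ℕ) :
    sg (insert t S) u = if t < u then -sg S u else sg S u := by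
  unfold sg
  rw [Finset.filter_insert]
  split_ifs with h
  · rw [Finset.card_insert_of_notMem (fun h' => ht (Finset.mem_filter.1 h').1), pow_succ,
      mul_neg_one]
  · rfl

theorem sg_erase {S : Finset ℕ} {t : ℕ} (ht : t ∈ S) (u : ℕ) :
    sg (S.erase t) u = if t < u then -sg S u else sg S u := by
  have h1 := sg_insert (Finset.notMem_erase t S) u
  rw [Finset.insert_erase ht] at h1
  split_ifs with h
  · rw [if_pos h] at h1
    rw [h1, neg_neg]
  · rw [if_neg h] at h1
    exact h1.symm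

theorem sg_a {S : Finset ℕ} {t u : ℕ} (ht : t ∈ S) (hu : u ∈ S) (h : t ≠ u) :
    sg S t * sg (S.erase t) u = -(sg S u * sg (S.erase u) t) := by
  rw [sg_erase ht, sg_erase hu]
  rcases lt_or_gt_of_ne h with h1 | h1
  · rw [if_pos h1, if_neg (by omega)]
    ring
  · rw [if_neg (by omega), if_pos h1]
    ring

theorem sg_b {S : Finset ℕ} {t u : ℕ} (ht : t ∈ S) (hu : u ∉ S) :
    sg S t * sg (S.erase t) u = -(sg S u * sg (insert u S) t) := by
  have h : t ≠ u := fun h => hu (h ▸ ht)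
  rw [sg_erase ht, sg_insert hu]
  rcases lt_or_gt_of_ne h with h1 | h1
  · rw [if_pos h1, if_neg (by omega)]
    ring
  · rw [if_neg (by omega), if_pos h1]
    ring

variable {X : Type}

/-- Coloured complexes. -/
structure ColX (types : X → Finset ℕ) (rem : X → ℕ → X) : Prop where
  types_rem : ∀ σ t, types (rem σ t) = (types σ).erase t
  rem_comm : ∀ σ t u, rem (rem σ t) u = rem (rem σ u) t

section
variable (types : X → Finset ℕ) (rem : X → ℕ → X)

/-- The boundary. -/
noncomputable def bd : Module.End ℤ (X →₀ ℤ) :=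
  Finsupp.lift (X →₀ ℤ) ℤ X fun σ => ∑ t ∈ types σ, Finsupp.single (rem σ t) (sg (types σ) t)

theorem bd_single (σ : X) : bd types rem (Finsupp.single σ 1) =
    ∑ t ∈ types σ, Finsupp.single (rem σ t) (sg (types σ) t) := by
  unfold bd
  rw [Finsupp.lift_apply, Finsupp.sum_single_index, one_smul]
  exact zero_smul _ _

theorem single_eq_smul (σ : X) (n : ℤ) : Finsupp.single σ n = n • Finsupp.single σ (1 : ℤ) := by
  rw [Finsupp.smul_single, smul_eq_mul, mul_one]

theorem bd_single' (σ : X) (n : ℤ) : bd types rem (Finsupp.single σ n) =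
    ∑ t ∈ types σ, Finsupp.single (rem σ t) (n * sg (types σ) t) := by
  rw [single_eq_smul, map_smul, bd_single, Finset.smul_sum]
  refine Finset.sum_congr rfl fun t _ => ?_
  rw [Finsupp.smul_single, smul_eq_mul]

theorem bd_bd (H : ColX types rem) : bd types rem * bd types rem = 0 := by
  classical
  refine Finsupp.lhom_ext' fun σ => LinearMap.ext_ring ?_
  change bd types rem (bd types rem (Finsupp.single σ 1)) = 0
  rw [bd_single, map_sum]
  have h1 : ∀ t ∈ types σ, bd types rem (Finsupp.single (rem σ t) (sg (types σ) t)) =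
      ∑ u ∈ (types σ).erase t, Finsupp.single (rem (rem σ t) u)
        (sg (types σ) t * sg ((types σ).erase t) u) := by
    intro t _
    rw [bd_single', H.types_rem]
  rw [Finset.sum_congr rfl h1, Finset.sum_sigma']
  refine Finset.sum_involution (fun p _ => ⟨p.2, p.1⟩) ?_ ?_ ?_ ?_
  · rintro ⟨t, u⟩ hp
    rw [Finset.mem_sigma] at hp
    obtain ⟨h2, h3⟩ := hp
    rw [Finset.mem_erase] at h3
    have h4 := sg_a h2 h3.2 (Ne.symm h3.1)
    change Finsupp.single (rem (rem σ t) u) (sg (types σ) t * sg ((types σ).erase t) u) +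
      Finsupp.single (rem (rem σ u) t) (sg (types σ) u * sg ((types σ).erase u) t) = 0
    rw [h4, H.rem_comm σ u t, ← Finsupp.single_add, neg_add_cancel, Finsupp.single_zero]
  · rintro ⟨t, u⟩ hp _ h
    rw [Finset.mem_sigma, Finset.mem_erase] at hp
    have h2 : u = t := congrArg Sigma.fst h
    exact hp.2.1 h2
  · rintro ⟨t, u⟩ hp
    rw [Finset.mem_sigma, Finset.mem_erase] at hp
    exact Finset.mem_sigma.2 ⟨hp.2.2, Finset.mem_erase.2 ⟨Ne.symm hp.2.1, hp.1⟩⟩
  · rintro ⟨t, u⟩ _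
    rfl

end

/-- A toggle. -/
structure Tgl (types : X → Finset ℕ) (rem : X → ℕ → X) where
  tau : X → ℕ
  ad : X → X
  top : X → ℕ
  wt : X → ℕ
  types_ad : ∀ σ, tau σ ∉ types σ → types (ad σ) = insert (tau σ) (types σ)
  rem_ad : ∀ σ, tau σ ∉ types σ → rem (ad σ) (tau σ) = σ
  tau_ad : ∀ σ, tau σ ∉ types σ → tau (ad σ) = tau σ
  tau_rem : ∀ σ t, t ∈ types σ → t ≠ top σ → tau (rem σ t) = tau σ
  ad_rem : ∀ σ t, t ∈ types σ → t ≠ top σ → tau σ ∉ types σ → ad (rem σ t) = rem (ad σ) t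
  tau_rem' : ∀ σ, tau σ ∈ types σ → tau (rem σ (tau σ)) = tau σ
  ad_rem' : ∀ σ, tau σ ∈ types σ → ad (rem σ (tau σ)) = σ
  wt1 : ∀ σ, top σ ∈ types σ → tau σ ∉ types σ → wt (rem (ad σ) (top σ)) < wt σ
  wt2 : ∀ σ, top σ ∈ types σ → top σ ≠ tau σ →
    tau (rem σ (top σ)) ∉ types (rem σ (top σ)) → wt (ad (rem σ (top σ))) < wt σ

namespace Tgl

variable {types : X → Finset ℕ} {rem : X → ℕ → X} (T : Tgl types rem)

/-- The adding half of the toggle. -/
noncomputable def V : Module.End ℤ (X →₀ ℤ) :=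
  Finsupp.lift (X →₀ ℤ) ℤ X fun σ =>
    if T.tau σ ∈ types σ then 0 else Finsupp.single (T.ad σ) (sg (types σ) (T.tau σ))

theorem V_in {σ : X} (h : T.tau σ ∈ types σ) (n : ℤ) : T.V (Finsupp.single σ n) = 0 := by
  unfold V
  rw [Finsupp.lift_apply, Finsupp.sum_single_index (by simp), if_pos h, smul_zero]

theorem V_out {σ : X} (h : T.tau σ ∉ types σ) (n : ℤ) :
    T.V (Finsupp.single σ n) = Finsupp.single (T.ad σ) (n * sg (types σ) (T.tau σ)) := by
  unfold V
  rw [Finsupp.lift_apply, Finsupp.sum_single_index (by simp), if_neg h, Finsupp.smul_single,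
    smul_eq_mul]

theorem V_V : T.V * T.V = 0 := by
  refine Finsupp.lhom_ext' fun σ => LinearMap.ext_ring ?_
  change T.V (T.V (Finsupp.single σ 1)) = 0
  by_cases h : T.tau σ ∈ types σ
  · rw [T.V_in h, map_zero]
  · rw [T.V_out h, T.V_in]
    rw [T.tau_ad σ h, T.types_ad σ h]
    exact Finset.mem_insert_self _ _

theorem V_top {σ : X} (h1 : T.top σ ∈ types σ) (h2 : T.top σ ≠ T.tau σ) (n : ℤ) :
    T.V (Finsupp.single (rem σ (T.top σ)) n) ∈ Spd {y | T.wt y < T.wt σ} := by
  by_cases h : T.tau (rem σ (T.top σ)) ∈ types (rem σ (T.top σ))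
  · rw [T.V_in h]
    exact Submodule.zero_mem _
  · rw [T.V_out h]
    exact single_spd (Y := {y | T.wt y < T.wt σ}) (T.wt2 σ h1 h2 h) _

theorem drop (H : ColX types rem) : Drop T.wt (bd types rem * T.V + T.V * bd types rem - 1) := by
  classical
  intro σ
  rw [LinearMap.sub_apply, LinearMap.add_apply, Module.End.mul_apply, Module.End.mul_apply,
    Module.End.one_apply, bd_single, map_sum]
  by_cases h : T.tau σ ∈ types σ
  · rw [T.V_in h, map_zero, zero_add, ← Finset.add_sum_erase _ _ h]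
    have h1 : T.tau (rem σ (T.tau σ)) ∉ types (rem σ (T.tau σ)) := by
      rw [T.tau_rem' σ h, H.types_rem]
      exact Finset.notMem_erase _ _
    rw [T.V_out h1, T.tau_rem' σ h, T.ad_rem' σ h, H.types_rem, sg_erase h, if_neg (lt_irrefl _),
      sg_sq, add_sub_cancel_left]
    refine Submodule.sum_mem _ fun t ht => ?_
    rw [Finset.mem_erase] at ht
    by_cases h2 : t = T.top σ
    · rw [h2]
      refine T.V_top ?_ ?_ _
      · rw [← h2]
        exact ht.2
      · rw [← h2]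
        exact ht.1
    · rw [T.V_in]
      · exact Submodule.zero_mem _
      · rw [T.tau_rem σ t ht.2 h2, H.types_rem]
        exact Finset.mem_erase.2 ⟨Ne.symm ht.1, h⟩
  · rw [T.V_out h, one_mul, bd_single', T.types_ad σ h, Finset.sum_insert h, T.rem_ad σ h,
      sg_insert h, if_neg (lt_irrefl _), sg_sq]
    have h0 : ∀ a b c : X →₀ ℤ, a + b + c - a = b + c := fun a b c => by abel
    rw [h0, ← Finset.sum_add_distrib]
    refine Submodule.sum_mem _ fun t ht => ?_
    by_cases h2 : t = T.top σ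
    · refine Submodule.add_mem _ ?_ ?_
      · rw [h2]
        refine single_spd (Y := {y | T.wt y < T.wt σ}) (T.wt1 σ ?_ h) _
        rw [← h2]
        exact ht
      · rw [h2]
        refine T.V_top ?_ ?_ _
        · rw [← h2]
          exact ht
        · rintro h3
          rw [← h3, ← h2] at h
          exact h ht
    · have h3 : T.tau (rem σ t) ∉ types (rem σ t) := by
        rw [T.tau_rem σ t ht h2, H.types_rem]
        exact fun h' => h (Finset.mem_of_mem_erase h')
      rw [T.V_out h3, T.tau_rem σ t ht h2, T.ad_rem σ t ht h2 h, H.types_rem, sg_b ht h,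
        ← Finsupp.single_add, add_neg_cancel, Finsupp.single_zero]
      exact Submodule.zero_mem _

theorem tc (H : ColX types rem) : TC T.wt (bd types rem) T.V := ⟨bd_bd _ _ H, T.V_V, T.drop H⟩

/-- The contraction of the toggle. -/
noncomputable def h : Module.End ℤ (X →₀ ℤ) := ctr T.wt (bd types rem) T.V

theorem dh (H : ColX types rem) : bd types rem * T.h + T.h * bd types rem = 1 :=
  (T.tc H).ctr_dp

theorem hh (H : ColX types rem) : T.h * T.h = 0 := (T.tc H).ctr_pp

/-- The support. -/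
theorem h_mem (H : ColX types rem) {Y : Set X} (h1 : ∀ σ ∈ Y, ∀ t ∈ types σ, rem σ t ∈ Y)
    (h2 : ∀ σ ∈ Y, T.tau σ ∉ types σ → T.ad σ ∈ Y) {a : X →₀ ℤ} (ha : a ∈ Spd Y) :
    T.h a ∈ Spd Y := by
  have hd : ∀ a ∈ Spd Y, bd types rem a ∈ Spd Y := fun a ha =>
    maps_of_single _ (fun σ hσ => by
      rw [bd_single]
      exact Submodule.sum_mem _ fun t ht => single_spd (h1 σ hσ t ht) _) ha
  have hV : ∀ a ∈ Spd Y, T.V a ∈ Spd Y := fun a ha =>
    maps_of_single _ (fun σ hσ => by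
      by_cases h : T.tau σ ∈ types σ
      · rw [T.V_in h]
        exact Submodule.zero_mem _
      · rw [T.V_out h]
        exact single_spd (h2 σ hσ h) _) ha
  exact (T.tc H).ctr_mem hV hd hV hd ha

/-- The parity. -/
theorem h_par (H : ColX types rem) {E : Set X} (h1 : ∀ σ, ∀ t ∈ types σ, rem σ t ∈ E ↔ σ ∉ E)
    (h2 : ∀ σ, T.tau σ ∉ types σ → (T.ad σ ∈ E ↔ σ ∉ E)) :
    (∀ a ∈ Spd E, T.h a ∈ Spd Eᶜ) ∧ ∀ a ∈ Spd Eᶜ, T.h a ∈ Spd E := by
  have hd : ∀ a ∈ Spd E, bd types rem a ∈ Spd Eᶜ := fun a ha =>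
    maps_of_single _ (fun σ hσ => by
      rw [bd_single]
      exact Submodule.sum_mem _ fun t ht =>
        single_spd (Y := Eᶜ) (fun h => (h1 σ t ht).1 h hσ) _) ha
  have hd' : ∀ a ∈ Spd Eᶜ, bd types rem a ∈ Spd E := fun a ha =>
    maps_of_single _ (fun σ hσ => by
      rw [bd_single]
      exact Submodule.sum_mem _ fun t ht => single_spd ((h1 σ t ht).2 hσ) _) ha
  have hV : ∀ a ∈ Spd E, T.V a ∈ Spd Eᶜ := fun a ha =>
    maps_of_single _ (fun σ hσ => by
      by_cases h : T.tau σ ∈ types σ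
      · rw [T.V_in h]
        exact Submodule.zero_mem _
      · rw [T.V_out h]
        exact single_spd (Y := Eᶜ) (fun h' => (h2 σ h).1 h' hσ) _) ha
  have hV' : ∀ a ∈ Spd Eᶜ, T.V a ∈ Spd E := fun a ha =>
    maps_of_single _ (fun σ hσ => by
      by_cases h : T.tau σ ∈ types σ
      · rw [T.V_in h]
        exact Submodule.zero_mem _
      · rw [T.V_out h]
        exact single_spd ((h2 σ h).2 hσ) _) ha
  exact ⟨fun a ha => (T.tc H).ctr_mem hV hd hV' hd' ha,
    fun a ha => (T.tc H).ctr_mem hV' hd' hV hd ha⟩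

end Tgl

/-! ### Naturality -/

section
variable {X' : Type} {types : X → Finset ℕ} {rem : X → ℕ → X} {types' : X' → Finset ℕ}
  {rem' : X' → ℕ → X'} (φ : X → X')

theorem bd_nat (h1 : ∀ σ, types' (φ σ) = types σ) (h2 : ∀ σ t, rem' (φ σ) t = φ (rem σ t)) :
    Finsupp.lmapDomain ℤ ℤ φ ∘ₗ bd types rem = bd types' rem' ∘ₗ Finsupp.lmapDomain ℤ ℤ φ := by
  refine Finsupp.lhom_ext' fun σ => LinearMap.ext_ring ?_
  change Finsupp.lmapDomain ℤ ℤ φ (bd types rem (Finsupp.single σ 1)) =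
    bd types' rem' (Finsupp.lmapDomain ℤ ℤ φ (Finsupp.single σ 1))
  rw [bd_single, map_sum, Finsupp.lmapDomain_apply, Finsupp.mapDomain_single, bd_single, h1]
  refine Finset.sum_congr rfl fun t _ => ?_
  rw [Finsupp.lmapDomain_apply, Finsupp.mapDomain_single, h2]

theorem h_nat (H : ColX types rem) (H' : ColX types' rem') (T : Tgl types rem)
    (T' : Tgl types' rem') (h1 : ∀ σ, types' (φ σ) = types σ)
    (h2 : ∀ σ t, rem' (φ σ) t = φ (rem σ t)) (h3 : ∀ σ, T'.tau (φ σ) = T.tau σ)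
    (h4 : ∀ σ, T.tau σ ∉ types σ → T'.ad (φ σ) = φ (T.ad σ)) :
    Finsupp.lmapDomain ℤ ℤ φ ∘ₗ T.h = T'.h ∘ₗ Finsupp.lmapDomain ℤ ℤ φ := by
  refine ctr_nat (T.tc H) (T'.tc H') _ (bd_nat φ h1 h2) ?_
  refine Finsupp.lhom_ext' fun σ => LinearMap.ext_ring ?_
  change Finsupp.lmapDomain ℤ ℤ φ (T.V (Finsupp.single σ 1)) =
    T'.V (Finsupp.lmapDomain ℤ ℤ φ (Finsupp.single σ 1))
  rw [Finsupp.lmapDomain_apply ℤ ℤ φ (Finsupp.single σ 1), Finsupp.mapDomain_single]
  by_cases h : T.tau σ ∈ types σ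
  · have h' : T'.tau (φ σ) ∈ types' (φ σ) := by
      rw [h1, h3]
      exact h
    rw [T.V_in h, T'.V_in h', map_zero]
  · have h' : T'.tau (φ σ) ∉ types' (φ σ) := by
      rw [h1, h3]
      exact h
    rw [T.V_out h, T'.V_out h', Finsupp.lmapDomain_apply, Finsupp.mapDomain_single, h1, h3,
      h4 σ h]

end

end Pool.Agent.GLA2
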