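import Pool.Agent.Lib.MP_8f66f0_al_GLA.A2Ext
import Pool.Agent.Lib.MP_8f66f0_al_GLA.A3Tog
import Pool.Agent.Lib.MP_8f66f0_al_GLA.Exh

/-!
The toggle of cells with respect to an element `c`.
-/

set_option autoImplicit false

namespace Pool.Agent.GLA2

open Pool.Agent.GLA
open scoped Pointwise

variable {M : Type} [ShL M]

theorem shz_neg_one (a : M) : shz (-1) a = shi a := by
  apply (shO M).injective
  change sh (shz (-1) a) = sh (shi a)
  rw [ShL.sh_shi, ← shz_succ', neg_add_cancel, shz_zero]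

theorem st_shz {s : Set M} (h : ShSt s) (k : ℤ) (a : M) : shz k a ∈ s ↔ a ∈ s := by
  induction k using Int.induction_on generalizing a with
  | zero => rw [shz_zero]
  | succ k ih => rw [shz_succ', h, ih]
  | pred k ih =>
    have h1 : shz (-(k : ℤ)) a = sh (shz (-(k : ℤ) - 1) a) := by
      rw [← shz_succ', sub_add_cancel]
    rw [← ih a, h1, h]

theorem typ_lt (a : M) : typ a < per M := by
  have h0 : (0 : ℤ) < per M := by exact_mod_cast ShL.per_pos (M := M)
  have h1 := Int.emod_lt_of_pos (ht a) h0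
  have h2 := Int.emod_nonneg (ht a) h0.ne'
  unfold typ
  omega

theorem typ_shz (k : ℤ) (a : M) : typ (shz k a) = typ a := by
  unfold typ
  rw [ht_shz, Int.sub_mul_emod_self_right]

theorem mem_types {σ : Cell M} {t : ℕ} : t ∈ σ.types ↔ ∃ a ∈ σ.s, typ a = t := by
  classical
  unfold Cell.types
  rw [Finset.mem_filter, Finset.mem_range]
  constructor
  · exact fun h => h.2
  · rintro ⟨a, ha, rfl⟩
    exact ⟨typ_lt a, a, ha, rfl⟩

theorem mem_rem {σ : Cell M} {t : ℕ} {a : M} : a ∈ (σ.rem t).s ↔ a ∈ σ.s ∧ typ a ≠ t := Iff.rfl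

theorem same_typ {σ : Cell M} {a b : M} (ha : a ∈ σ.s) (hb : b ∈ σ.s) (h : typ a = typ b) :
    ∃ k : ℤ, b = shz k a := by
  have h0 : (0 : ℤ) < per M := by exact_mod_cast ShL.per_pos (M := M)
  have h1 : ht a % per M = ht b % per M := by
    have h2 := Int.emod_nonneg (ht a) h0.ne'
    have h3 := Int.emod_nonneg (ht b) h0.ne'
    unfold typ at h
    omega
  have h2 : (per M : ℤ) ∣ ht a - ht b := Int.ModEq.dvd (a := ht b) (b := ht a) h1.symm
  obtain ⟨k, hk⟩ := h2
  refine ⟨k, ?_⟩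
  have h3 : ht (shz k a) = ht b := by
    rw [ht_shz]
    linear_combination hk
  have h4 : shz k a ∈ σ.s := (st_shz σ.st k a).2 ha
  rcases σ.ch _ h4 _ hb with h5 | h5
  · exact (eq_of_ht h5 h3.symm.le).symm
  · exact eq_of_ht h5 h3.le

/-! ### The top -/

/-- The greatest member which is not too large (`c` if the cell is empty). -/
def IsTop (c : M) (σ : Cell M) (N : M) : Prop :=
  (σ.s = ∅ ∧ N = c) ∨ IsGreatest {a | a ∈ σ.s ∧ ¬ c ≤ sh a} N

theorem not_le_sh (c : M) : ¬ c ≤ sh c := not_le_of_gt (sh_lt c)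

theorem exists_isTop (c : M) (σ : Cell M) : ∃ N, IsTop c σ N := by
  rcases Set.eq_empty_or_nonempty σ.s with h | h
  · exact ⟨c, Or.inl ⟨h, rfl⟩⟩
  · obtain ⟨a, ha, hac⟩ := exists_below h σ.st c
    obtain ⟨k, hk⟩ := ShL.arch c a
    have hk' : c ≤ shz (-(k : ℤ)) a := by
      have h1 : (sh^[k]) c = shz (k : ℤ) c := by
        clear hk
        induction k with
        | zero => exact (shz_zero c).symm
        | succ k ih => rw [Function.iterate_succ_apply', ih, Nat.cast_succ, shz_succ']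
      rw [h1] at hk
      have h2 := (shz (-(k : ℤ)) : M ≃o M).monotone hk
      rwa [← shz_add, neg_add_cancel, shz_zero] at h2
    obtain ⟨N, hN⟩ := exists_greatest (S := {a | a ∈ σ.s ∧ ¬ c ≤ sh a})
      ⟨a, ha, fun h1 => not_le_sh c (h1.trans (ShL.sh_mono _ _ hac))⟩
      (ht (shz (-(k : ℤ) - 1) a)) (fun b hb => by
        have h1 : shz (-(k : ℤ) - 1) a ∈ σ.s := (st_shz σ.st _ _).2 ha
        rcases σ.ch b hb.1 _ h1 with h2 | h2
        · exact ht_le h2
        · exfalso
          refine hb.2 (hk'.trans ?_)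
          have h3 := ShL.sh_mono _ _ h2
          rwa [← shz_succ', sub_add_cancel] at h3)
      (fun b hb b' hb' => by
        rcases σ.ch b hb.1 b' hb'.1 with h2 | h2
        · exact ⟨b', hb', h2, le_rfl⟩
        · exact ⟨b, hb, le_rfl, h2⟩)
    exact ⟨N, Or.inr hN⟩

theorem IsTop.unique {c : M} {σ : Cell M} {N N' : M} (h : IsTop c σ N) (h' : IsTop c σ N') :
    N = N' := by
  rcases h with ⟨h1, h2⟩ | h
  · rcases h' with ⟨_, h3⟩ | h'
    · rw [h2, h3]
    · have := h'.1.1
      rw [h1] at this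
      exact absurd this (Set.notMem_empty _)
  · rcases h' with ⟨h1, _⟩ | h'
    · have := h.1.1
      rw [h1] at this
      exact absurd this (Set.notMem_empty _)
    · exact h.unique h'

section
variable {c : M} {σ : Cell M} {N : M} (h : IsTop c σ N)
include h

theorem IsTop.le : c ≤ N := by
  rcases h with ⟨_, h2⟩ | h
  · exact h2.ge
  · by_contra hc
    have h1 : shi N ∈ {a | a ∈ σ.s ∧ ¬ c ≤ sh a} :=
      ⟨σ.st.shi N |>.2 h.1.1, by rwa [ShL.sh_shi]⟩
    have h2 := h.2 h1
    have h3 := sh_lt (shi N)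
    rw [ShL.sh_shi] at h3
    exact absurd h3 (not_lt_of_ge h2)

theorem IsTop.not_le : ¬ c ≤ sh N := by
  rcases h with ⟨_, h2⟩ | h
  · rw [h2]
    exact not_le_sh c
  · exact h.1.2

theorem IsTop.sh_le {a : M} (ha : a ∈ σ.s) (hc : c ≤ a) : sh N ≤ a := by
  rcases h with ⟨h1, _⟩ | h
  · rw [h1] at ha
    exact absurd ha (Set.notMem_empty _)
  · rcases σ.ch _ ((σ.st N).2 h.1.1) _ ha with h2 | h2
    · exact h2
    · exact absurd (hc.trans h2) h.1.2

theorem IsTop.le_sh {a : M} (ha : a ∈ σ.s) (hc : ¬ c ≤ a) : a ≤ sh N := by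
  rcases h with ⟨h1, _⟩ | h
  · rw [h1] at ha
    exact absurd ha (Set.notMem_empty _)
  · have h1 : shi a ∈ {a | a ∈ σ.s ∧ ¬ c ≤ sh a} :=
      ⟨σ.st.shi a |>.2 ha, by rwa [ShL.sh_shi]⟩
    have h2 := ShL.sh_mono _ _ (h.2 h1)
    rwa [ShL.sh_shi] at h2

theorem IsTop.mem (ne : σ.s.Nonempty) : N ∈ σ.s := by
  rcases h with ⟨h1, _⟩ | h
  · exact absurd h1 ne.ne_empty
  · exact h.1.1

theorem IsTop.ge {a : M} (ha : a ∈ σ.s) (hc : ¬ c ≤ sh a) : a ≤ N := by
  rcases h with ⟨h1, _⟩ | h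
  · rw [h1] at ha
    exact absurd ha (Set.notMem_empty _)
  · exact h.2 ⟨ha, hc⟩

end

/-- The top. -/
noncomputable def tp' (c : M) (σ : Cell M) : M := (exists_isTop c σ).choose

theorem isTop (c : M) (σ : Cell M) : IsTop c σ (tp' c σ) := (exists_isTop c σ).choose_spec

/-- The new vertex. -/
noncomputable def nv (c : M) (σ : Cell M) : M := sh (tp' c σ) ⊔ c

theorem le_nv (c : M) (σ : Cell M) : c ≤ nv c σ := le_sup_right

theorem sh_le_nv (c : M) (σ : Cell M) : sh (tp' c σ) ≤ nv c σ := le_sup_left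

theorem nv_le (c : M) (σ : Cell M) : nv c σ ≤ tp' c σ := sup_le (ShL.sh_le _) (isTop c σ).le

theorem not_le_sh_nv (c : M) (σ : Cell M) : ¬ c ≤ sh (nv c σ) := by
  intro h
  have h1 : nv c σ ≤ sh (tp' c σ) ⊔ sh (nv c σ) := sup_le le_sup_left (h.trans le_sup_right)
  exact (isTop c σ).not_le ((le_nv c σ).trans (GLA2.nak h1))

theorem nv_comp {c : M} {σ : Cell M} {a : M} (ha : a ∈ σ.s) : nv c σ ≤ a ∨ a ≤ nv c σ := by
  by_cases h : c ≤ a
  · exact Or.inl (sup_le ((isTop c σ).sh_le ha h) h)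
  · exact Or.inr (((isTop c σ).le_sh ha h).trans (sh_le_nv c σ))

/-- The cell with the new vertex. -/
noncomputable def adc (c : M) (σ : Cell M) : Cell M where
  s := σ.s ∪ {x | ∃ k : ℤ, x = shz k (nv c σ)}
  st := by
    intro a
    constructor
    · rintro (h | ⟨k, hk⟩)
      · exact Or.inl ((σ.st a).1 h)
      · refine Or.inr ⟨-1 + k, ?_⟩
        rw [shz_add, ← hk, shz_neg_one, ShL.shi_sh]
    · rintro (h | ⟨k, hk⟩)
      · exact Or.inl ((σ.st a).2 h)
      · exact Or.inr ⟨k + 1, by rw [shz_succ', hk]⟩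
  ch := by
    have key : ∀ a ∈ σ.s, ∀ k : ℤ, a ≤ shz k (nv c σ) ∨ shz k (nv c σ) ≤ a := by
      intro a ha k
      have h1 : shz (-k) a ∈ σ.s := (st_shz σ.st _ _).2 ha
      have h2 : shz k (shz (-k) a) = a := by
        rw [← shz_add, add_neg_cancel, shz_zero]
      rcases nv_comp (c := c) h1 with h3 | h3
      · refine Or.inr ?_
        have := (shz k : M ≃o M).monotone h3
        rwa [h2] at this
      · refine Or.inl ?_
        have := (shz k : M ≃o M).monotone h3
        rwa [h2] at this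
    rintro a (ha | ⟨k, rfl⟩) b (hb | ⟨l, rfl⟩)
    · exact σ.ch a ha b hb
    · exact key a ha l
    · exact (key b hb k).symm
    · rcases le_total k l with h | h
      · exact Or.inr (shz_le' h _)
      · exact Or.inl (shz_le' h _)

theorem mem_adc {c : M} {σ : Cell M} {a : M} :
    a ∈ (adc c σ).s ↔ a ∈ σ.s ∨ ∃ k : ℤ, a = shz k (nv c σ) := Iff.rfl

theorem nv_mem_adc (c : M) (σ : Cell M) : nv c σ ∈ (adc c σ).s :=
  Or.inr ⟨0, (shz_zero _).symm⟩

theorem typ_nv_mem {c : M} {σ : Cell M} : typ (nv c σ) ∈ σ.types ↔ nv c σ ∈ σ.s := by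
  constructor
  · intro h
    obtain ⟨b, hb, hb'⟩ := mem_types.1 h
    obtain ⟨k, hk⟩ := same_typ (σ := adc c σ) (Or.inl hb) (nv_mem_adc c σ) hb'
    rw [hk]
    exact (st_shz σ.st _ _).2 hb
  · intro h
    exact mem_types.2 ⟨_, h, rfl⟩

theorem types_adc (c : M) (σ : Cell M) :
    (adc c σ).types = insert (typ (nv c σ)) σ.types := by
  ext t
  rw [Finset.mem_insert, mem_types, mem_types]
  constructor
  · rintro ⟨a, ha | ⟨k, rfl⟩, rfl⟩
    · exact Or.inr ⟨a, ha, rfl⟩
    · exact Or.inl (typ_shz k _)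
  · rintro (h | ⟨a, ha, rfl⟩)
    · exact ⟨_, nv_mem_adc c σ, h.symm⟩
    · exact ⟨a, Or.inl ha, rfl⟩

theorem rem_adc {c : M} {σ : Cell M} (h : nv c σ ∉ σ.s) :
    (adc c σ).rem (typ (nv c σ)) = σ := by
  apply Cell.ext
  ext a
  rw [mem_rem, mem_adc]
  constructor
  · rintro ⟨h1 | ⟨k, rfl⟩, h2⟩
    · exact h1
    · exact absurd (typ_shz k _) h2
  · intro ha
    refine ⟨Or.inl ha, fun h2 => h (typ_nv_mem.1 (mem_types.2 ⟨a, ha, h2⟩))⟩

/-- The top depends on few members. -/
theorem isTop_of {c : M} {σ τ : Cell M} (h1 : tp' c σ ∈ τ.s)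
    (h2 : ∀ a ∈ τ.s, ¬ c ≤ sh a → a ≤ tp' c σ) : tp' c τ = tp' c σ :=
  (isTop c τ).unique (Or.inr ⟨⟨h1, (isTop c σ).not_le⟩, fun a ha => h2 a ha.1 ha.2⟩)

theorem tp_adc (c : M) (σ : Cell M) : tp' c (adc c σ) = tp' c σ := by
  refine isTop_of ?_ ?_
  · rcases Set.eq_empty_or_nonempty σ.s with h | h
    · have h1 : tp' c σ = c := (isTop c σ).unique (Or.inl ⟨h, rfl⟩)
      refine Or.inr ⟨0, ?_⟩
      rw [shz_zero, nv, h1, sup_eq_right.2 (ShL.sh_le c)]
    · exact Or.inl ((isTop c σ).mem h)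
  · rintro a (ha | ⟨k, rfl⟩) hc
    · exact (isTop c σ).ge ha hc
    · by_cases hk : 0 ≤ k
      · have h1 := shz_le' hk (nv c σ)
        rw [shz_zero] at h1
        exact h1.trans (nv_le c σ)
      · exfalso
        refine hc ((le_nv c σ).trans ?_)
        rw [← shz_succ']
        have h1 := shz_le' (show k + 1 ≤ 0 by omega) (nv c σ)
        rwa [shz_zero] at h1

theorem nv_adc (c : M) (σ : Cell M) : nv c (adc c σ) = nv c σ := by
  unfold nv
  rw [tp_adc]

theorem tp_rem {c : M} {σ : Cell M} (ne : σ.s.Nonempty) {t : ℕ} (ht : t ≠ typ (tp' c σ)) :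
    tp' c (σ.rem t) = tp' c σ :=
  isTop_of ⟨(isTop c σ).mem ne, ht.symm⟩ fun _ ha hc => (isTop c σ).ge ha.1 hc

theorem nv_rem {c : M} {σ : Cell M} (ne : σ.s.Nonempty) {t : ℕ} (ht : t ≠ typ (tp' c σ)) :
    nv c (σ.rem t) = nv c σ := by
  unfold nv
  rw [tp_rem ne ht]

theorem ne_of_mem_types {σ : Cell M} {t : ℕ} (ht : t ∈ σ.types) : σ.s.Nonempty := by
  obtain ⟨a, ha, _⟩ := mem_types.1 ht
  exact ⟨a, ha⟩

theorem adc_rem {c : M} {σ : Cell M} {t : ℕ} (ht : t ∈ σ.types) (h1 : t ≠ typ (tp' c σ))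
    (h2 : nv c σ ∉ σ.s) : adc c (σ.rem t) = (adc c σ).rem t := by
  have h3 : t ≠ typ (nv c σ) := fun h => h2 (typ_nv_mem.1 (h ▸ ht))
  apply Cell.ext
  ext a
  rw [mem_adc, mem_rem, mem_rem, mem_adc, nv_rem (ne_of_mem_types ht) h1]
  constructor
  · rintro (⟨h4, h5⟩ | ⟨k, rfl⟩)
    · exact ⟨Or.inl h4, h5⟩
    · exact ⟨Or.inr ⟨k, rfl⟩, by rw [typ_shz]; exact h3.symm⟩
  · rintro ⟨h4 | h4, h5⟩
    · exact Or.inl ⟨h4, h5⟩
    · exact Or.inr h4

/-- If the new vertex is a member, it is the one removed by the toggle. -/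
theorem nv_rem_nv {c : M} {σ : Cell M} (h : nv c σ ∈ σ.s) :
    nv c (σ.rem (typ (nv c σ))) = nv c σ := by
  by_cases h1 : typ (nv c σ) = typ (tp' c σ)
  · have hN : tp' c σ ∈ σ.s := (isTop c σ).mem ⟨_, h⟩
    obtain ⟨k, hk⟩ := same_typ h hN h1.symm.symm
    have h2 : tp' c σ = nv c σ := by
      rcases lt_trichotomy k 0 with h3 | h3 | h3
      · exfalso
        refine (isTop c σ).not_le ?_
        rw [hk, ← shz_succ']
        refine (le_nv c σ).trans ?_
        have h4 := shz_le' (show k + 1 ≤ 0 by omega) (nv c σ)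
        rwa [shz_zero] at h4
      · rw [h3, shz_zero] at hk
        exact hk
      · exfalso
        refine not_le_sh_nv c σ ((isTop c σ).le.trans ?_)
        rw [hk]
        have h4 := shz_le' (show (1 : ℤ) ≤ k by omega) (nv c σ)
        rwa [shz_one] at h4
    have h3 : tp' c σ = c := by
      refine le_antisymm (GLA2.nak ?_) (isTop c σ).le
      conv_lhs => rw [h2]
      unfold nv
      rw [sup_comm]
    have h4 : (σ.rem (typ (nv c σ))).s = ∅ := by
      refine Set.eq_empty_of_forall_notMem fun a ha => ?_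
      obtain ⟨ha, ht⟩ := mem_rem.1 ha
      obtain ⟨b, k, hb⟩ : ∃ b : M, ∃ k : ℤ, b = shz k a ∧ c ≤ b ∧ ¬ c ≤ sh b := by
        have := exists_isTop c ({ s := {x | ∃ k : ℤ, x = shz k a}, st := by
                                    intro x
                                    constructor
                                    · rintro ⟨k, hk⟩
                                      refine ⟨-1 + k, ?_⟩
                                      rw [shz_add, ← hk, shz_neg_one, ShL.shi_sh]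
                                    · rintro ⟨k, hk⟩
                                      exact ⟨k + 1, by rw [shz_succ', hk]⟩
                                  ch := by
                                    rintro x ⟨k, rfl⟩ y ⟨l, rfl⟩
                                    rcases le_total k l with h | h
                                    · exact Or.inr (shz_le' h _)
                                    · exact Or.inl (shz_le' h _) } : Cell M)
        obtain ⟨b, hb⟩ := this
        obtain ⟨k, hk⟩ := hb.mem ⟨a, 0, (shz_zero a).symm⟩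
        exact ⟨b, k, hk, hb.le, hb.not_le⟩
      have hbs : b ∈ σ.s := by
        rw [hb.1]
        exact (st_shz σ.st _ _).2 ha
      have h5 : b ≤ c := by
        rw [← h3]
        exact (isTop c σ).ge hbs hb.2.2
      have h6 : b = c := le_antisymm h5 hb.2.1
      apply ht
      rw [h1, h3, ← h6, hb.1, typ_shz]
    have h5 : tp' c (σ.rem (typ (nv c σ))) = c := (isTop c _).unique (Or.inl ⟨h4, rfl⟩)
    unfold nv at h5 ⊢
    rw [h5, h3]
  · exact nv_rem ⟨_, h⟩ h1

theorem adc_rem_nv {c : M} {σ : Cell M} (h : nv c σ ∈ σ.s) :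
    adc c (σ.rem (typ (nv c σ))) = σ := by
  apply Cell.ext
  ext a
  rw [mem_adc, mem_rem, nv_rem_nv h]
  constructor
  · rintro (⟨h1, _⟩ | ⟨k, rfl⟩)
    · exact h1
    · exact (st_shz σ.st _ _).2 h
  · intro ha
    by_cases h1 : typ a = typ (nv c σ)
    · exact Or.inr (same_typ h ha h1.symm)
    · exact Or.inl ⟨ha, h1⟩

end Pool.Agent.GLA2
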