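import Pool.Agent.Lib.MP_8f66f0_al_GLA.A3Cell

/-!
The toggle contraction of the chains of cells.
-/

set_option autoImplicit false

namespace Pool.Agent.GLA2

open Pool.Agent.GLA
open scoped Pointwise

theorem TC.ctr_mem' {X : Type} {wt : X → ℕ} {d V : Module.End ℤ (X →₀ ℤ)} (h : TC wt d V)
    {W W' : Submodule ℤ (X →₀ ℤ)} (hN : ∀ a ∈ W, (d * V + V * d - 1) a ∈ W)
    (hV : ∀ a ∈ W, V a ∈ W') {a : X →₀ ℤ} (ha : a ∈ W) : ctr wt d V a ∈ W' :=
  hV _ (ninv_mem h.drop hN ha)

/-- The degree of the contraction. -/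
theorem Tgl.h_deg {X : Type} {types : X → Finset ℕ} {rem : X → ℕ → X} (T : Tgl types rem)
    (H : ColX types rem) (n : ℕ) {a : X →₀ ℤ} (ha : a ∈ Spd {σ | (types σ).card = n}) :
    T.h a ∈ Spd {σ | (types σ).card = n + 1} := by
  have hV : ∀ n, ∀ a ∈ Spd {σ | (types σ).card = n},
      T.V a ∈ Spd {σ | (types σ).card = n + 1} := fun n a ha =>
    maps_of_single _ (fun σ hσ => by
      by_cases h : T.tau σ ∈ types σ
      · rw [T.V_in h]
        exact Submodule.zero_mem _
      · rw [T.V_out h]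
        refine single_spd (Y := {σ | (types σ).card = n + 1}) ?_ _
        change (types (T.ad σ)).card = n + 1
        rw [T.types_ad σ h, Finset.card_insert_of_notMem h, hσ]) ha
  have hV' : ∀ n, ∀ a ∈ Spd {σ | (types σ).card + 1 = n},
      T.V a ∈ Spd {σ | (types σ).card = n} := fun n a ha =>
    maps_of_single _ (fun σ hσ => by
      by_cases h : T.tau σ ∈ types σ
      · rw [T.V_in h]
        exact Submodule.zero_mem _
      · rw [T.V_out h]
        refine single_spd (Y := {σ | (types σ).card = n}) ?_ _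
        change (types (T.ad σ)).card = n
        rw [T.types_ad σ h, Finset.card_insert_of_notMem h, hσ]) ha
  have hd : ∀ n, ∀ a ∈ Spd {σ | (types σ).card = n},
      bd types rem a ∈ Spd {σ | (types σ).card + 1 = n} := fun n a ha =>
    maps_of_single _ (fun σ hσ => by
      rw [bd_single]
      refine Submodule.sum_mem _ fun t ht => single_spd (Y := {σ | (types σ).card + 1 = n}) ?_ _
      change (types (rem σ t)).card + 1 = n
      rw [H.types_rem, Finset.card_erase_add_one ht]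
      exact hσ) ha
  refine (T.tc H).ctr_mem' (W := Spd {σ | (types σ).card = n}) (fun b hb => ?_)
    (fun b hb => hV n b hb) ha
  rw [LinearMap.sub_apply, LinearMap.add_apply]
  refine Submodule.sub_mem _ (Submodule.add_mem _ ?_ ?_) hb
  · have h1 := hd (n + 1) _ (hV n b hb)
    refine Finsupp.supported_mono ?_ h1
    intro σ hσ
    have h2 : (types σ).card + 1 = n + 1 := hσ
    exact (by omega : (types σ).card = n)
  · exact hV' n _ (hd n b hb)

variable {M : Type} [ShL M]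

variable (M) in
theorem colX : ColX (Cell.types : Cell M → Finset ℕ) Cell.rem where
  types_rem σ t := by
    ext u
    rw [Finset.mem_erase, mem_types, mem_types]
    constructor
    · rintro ⟨a, ha, rfl⟩
      exact ⟨ha.2, a, ha.1, rfl⟩
    · rintro ⟨h, a, ha, rfl⟩
      exact ⟨a, ⟨ha, h⟩, rfl⟩
  rem_comm σ t u := by
    apply Cell.ext
    ext a
    rw [mem_rem, mem_rem, mem_rem, mem_rem]
    tauto

theorem tp_mem {c : M} {σ : Cell M} (h : typ (tp' c σ) ∈ σ.types) : tp' c σ ∈ σ.s :=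
  (isTop c σ).mem (ne_of_mem_types h)

/-- The toggle with respect to `c`. -/
noncomputable def tgl (c : M) : Tgl (Cell.types : Cell M → Finset ℕ) Cell.rem where
  tau σ := typ (nv c σ)
  ad := adc c
  top σ := typ (tp' c σ)
  wt σ := (ht (tp' c σ) - ht c).toNat
  types_ad σ _ := types_adc c σ
  rem_ad σ h := rem_adc fun h' => h (typ_nv_mem.2 h')
  tau_ad σ _ := by rw [nv_adc]
  tau_rem σ t h h' := by rw [nv_rem (ne_of_mem_types h) h']
  ad_rem σ t h h' h'' := adc_rem h h' fun h3 => h'' (typ_nv_mem.2 h3)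
  tau_rem' σ h := by rw [nv_rem_nv (typ_nv_mem.1 h)]
  ad_rem' σ h := adc_rem_nv (typ_nv_mem.1 h)
  wt1 σ h h' := by
    have h0 : nv c σ ∉ σ.s := fun h3 => h' (typ_nv_mem.2 h3)
    have h1 : typ (nv c σ) ≠ typ (tp' c σ) := fun h3 => h' (h3 ▸ h)
    have h2 : nv c σ ∈ ((adc c σ).rem (typ (tp' c σ))).s := ⟨nv_mem_adc c σ, h1⟩
    have h3 := isTop c ((adc c σ).rem (typ (tp' c σ)))
    have h4 := h3.mem ⟨_, h2⟩
    have h5 : tp' c ((adc c σ).rem (typ (tp' c σ))) ≤ tp' c σ := by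
      have := (isTop c (adc c σ)).ge h4.1 h3.not_le
      rwa [tp_adc] at this
    have h6 : tp' c ((adc c σ).rem (typ (tp' c σ))) ≠ tp' c σ := fun h7 => h4.2 (by rw [h7])
    have h7 := ShL.ht_lt _ _ (lt_of_le_of_ne h5 h6)
    have h8 := GLA2.ht_le h3.le
    omega
  wt2 σ h h' _ := by
    rw [tp_adc]
    have h3 := isTop c (σ.rem (typ (tp' c σ)))
    have h8 := GLA2.ht_le h3.le
    rcases Set.eq_empty_or_nonempty (σ.rem (typ (tp' c σ))).s with h4 | h4
    · have h5 : tp' c (σ.rem (typ (tp' c σ))) = c := h3.unique (Or.inl ⟨h4, rfl⟩)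
      have h6 : c ≠ tp' c σ := by
        intro h7
        apply h'
        rw [nv, ← h7, sup_eq_right.2 (ShL.sh_le c)]
      have h7 := ShL.ht_lt _ _ (lt_of_le_of_ne (isTop c σ).le h6)
      rw [h5]
      omega
    · have h5 := h3.mem h4
      have h6 : tp' c (σ.rem (typ (tp' c σ))) ≤ tp' c σ := (isTop c σ).ge h5.1 h3.not_le
      have h7 : tp' c (σ.rem (typ (tp' c σ))) ≠ tp' c σ := fun h7 => h5.2 (by rw [h7])
      have h9 := ShL.ht_lt _ _ (lt_of_le_of_ne h6 h7)
      omega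

/-- The contraction. -/
noncomputable def hc (c : M) : Module.End ℤ (Cell M →₀ ℤ) := (tgl c).h

theorem bdry_eq : (bdry : Module.End ℤ (Cell M →₀ ℤ)) = bd Cell.types Cell.rem := rfl

theorem bdry_bdry : (bdry : Module.End ℤ (Cell M →₀ ℤ)) * bdry = 0 := bd_bd _ _ (colX M)

theorem hc_hc (c : M) : hc c * hc c = 0 := (tgl c).hh (colX M)

theorem hc_dh (c : M) : bdry * hc c + hc c * bdry = 1 := (tgl c).dh (colX M)

/-! ### Supports -/

theorem sup_hull {X s : Set M} (hX : ∀ a ∈ X, ∀ b ∈ X, a ⊔ b ∈ X) {x y : M}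
    (hx : x ∈ hull X s) (hy : y ∈ X) : x ⊔ y ∈ hull X s := by
  rcases hx with h1 | h1 | ⟨l, hl, c, hc, h1⟩
  · exact Or.inl (hX _ h1 _ hy)
  · exact Or.inr (Or.inr ⟨x, h1, y, hy, rfl⟩)
  · exact Or.inr (Or.inr ⟨l, hl, c ⊔ y, hX _ hc _ hy, by rw [h1, sup_assoc]⟩)

theorem adc_hull {c : M} {σ τ : Cell M} (h : τ.s ⊆ hull (gen {c}) σ.s) :
    (adc c τ).s ⊆ hull (gen {c}) σ.s := by
  have hA := gen_adm (Set.singleton_nonempty c)
  have hg : ∀ k : ℤ, shz k c ∈ gen {c} := fun k =>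
    (st_shz hA.st k c).2 (subset_gen _ rfl)
  rintro x (hx | ⟨k, rfl⟩)
  · exact h hx
  · unfold nv
    rw [map_sup, ← shz_succ]
    refine sup_hull hA.sup ?_ (hg k)
    rcases Set.eq_empty_or_nonempty τ.s with h1 | h1
    · have h2 : tp' c τ = c := (isTop c τ).unique (Or.inl ⟨h1, rfl⟩)
      rw [h2]
      exact Or.inl (hg _)
    · exact h ((st_shz τ.st _ _).2 ((isTop c τ).mem h1))

theorem hc_supp (c : M) {σ τ : Cell M} (h : (hc c (Finsupp.single σ 1)) τ ≠ 0) :
    τ.s ⊆ hull (gen {c}) σ.s ∧ τ.types.card = σ.types.card + 1 := by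
  constructor
  · have h1 : hc c (Finsupp.single σ 1) ∈ Spd {τ : Cell M | τ.s ⊆ hull (gen {c}) σ.s} := by
      refine (tgl c).h_mem (colX M) ?_ ?_ (single_spd (Y := {τ : Cell M | τ.s ⊆
        hull (gen {c}) σ.s}) (fun x hx => Or.inr (Or.inl hx)) 1)
      · intro τ hτ t _ x hx
        exact hτ hx.1
      · intro τ hτ _
        exact adc_hull hτ
    exact (Finsupp.mem_supported _ _).1 h1 (Finsupp.mem_support_iff.2 h)
  · have h1 : hc c (Finsupp.single σ 1) ∈ Spd {τ : Cell M | τ.types.card = σ.types.card + 1} :=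
      (tgl c).h_deg (colX M) σ.types.card (single_spd (Y := {τ : Cell M | τ.types.card =
        σ.types.card}) rfl 1)
    exact (Finsupp.mem_supported _ _).1 h1 (Finsupp.mem_support_iff.2 h)

/-! ### Naturality -/

section
variable {G : Type} [Group G] [ShAct G M]

theorem typ_smul (g : G) (a : M) : typ (g • a) = typ a := by
  unfold typ
  rw [ShAct.ht_smul]

theorem types_smul (g : G) (σ : Cell M) : (g • σ).types = σ.types := by
  ext t
  rw [mem_types, mem_types, Cell.smul_s]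
  constructor
  · rintro ⟨_, ⟨a, ha, rfl⟩, rfl⟩
    exact ⟨a, ha, (typ_smul g a).symm⟩
  · rintro ⟨a, ha, rfl⟩
    exact ⟨g • a, Set.smul_mem_smul_set ha, typ_smul g a⟩

theorem rem_smul (g : G) (σ : Cell M) (t : ℕ) : (g • σ).rem t = g • σ.rem t := by
  apply Cell.ext
  ext a
  rw [mem_rem, Cell.smul_s, Cell.smul_s, Set.mem_smul_set_iff_inv_smul_mem,
    Set.mem_smul_set_iff_inv_smul_mem, mem_rem, typ_smul]

theorem IsTop.smul (g : G) {c : M} {σ : Cell M} {N : M} (h : IsTop c σ N) :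
    IsTop (g • c) (g • σ) (g • N) := by
  rcases h with ⟨h1, h2⟩ | h
  · refine Or.inl ⟨?_, by rw [h2]⟩
    rw [Cell.smul_s, h1, Set.smul_set_empty]
  · refine Or.inr ⟨⟨?_, ?_⟩, ?_⟩
    · rw [Cell.smul_s]
      exact Set.smul_mem_smul_set h.1.1
    · rw [← ShAct.smul_sh, smul_le_iff]
      exact h.1.2
    · rintro a ⟨ha, ha'⟩
      rw [Cell.smul_s] at ha
      obtain ⟨b, hb, rfl⟩ := ha
      change ¬ g • c ≤ sh (g • b) at ha'
      rw [← ShAct.smul_sh, smul_le_iff] at ha'
      exact (smul_le_iff g _ _).2 (h.2 ⟨hb, ha'⟩)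

theorem tp_smul' (g : G) (c : M) (σ : Cell M) : tp' (g • c) (g • σ) = g • tp' c σ :=
  (isTop _ _).unique ((isTop c σ).smul g)

theorem nv_smul (g : G) (c : M) (σ : Cell M) : nv (g • c) (g • σ) = g • nv c σ := by
  unfold nv
  rw [tp_smul', smul_sup, ShAct.smul_sh]

theorem shz_smul (g : G) (k : ℤ) (a : M) : shz k (g • a) = g • shz k a := by
  have hi : ∀ a : M, shi (g • a) = g • shi a := by
    intro a
    apply (shO M).injective
    change sh (shi (g • a)) = sh (g • shi a)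
    rw [ShL.sh_shi, ← ShAct.smul_sh, ShL.sh_shi]
  induction k using Int.induction_on generalizing a with
  | zero => rw [shz_zero, shz_zero]
  | succ k ih => rw [shz_succ', ih, shz_succ', ShAct.smul_sh]
  | pred k ih =>
    have h1 : ∀ b : M, shz (-(k : ℤ) - 1) b = shz (-(k : ℤ)) (shi b) := by
      intro b
      rw [sub_eq_add_neg, shz_add, shz_neg_one]
    rw [h1, h1, hi, ih]

theorem adc_smul (g : G) (c : M) (σ : Cell M) : adc (g • c) (g • σ) = g • adc c σ := by
  apply Cell.ext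
  ext a
  rw [mem_adc, Cell.smul_s, Cell.smul_s, Set.mem_smul_set_iff_inv_smul_mem,
    Set.mem_smul_set_iff_inv_smul_mem, mem_adc, nv_smul]
  refine or_congr Iff.rfl (exists_congr fun k => ?_)
  rw [shz_smul]
  constructor
  · rintro rfl
    rw [inv_smul_smul]
  · intro h
    rw [← h, smul_inv_smul]

theorem hc_nat (g : G) (c : M) :
    Finsupp.lmapDomain ℤ ℤ (g • · : Cell M → Cell M) * hc c =
      hc (g • c) * Finsupp.lmapDomain ℤ ℤ (g • ·) :=
  h_nat (g • ·) (colX M) (colX M) (tgl c) (tgl (g • c)) (types_smul g) (rem_smul g)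
    (fun σ => by
      change typ (nv (g • c) (g • σ)) = typ (nv c σ)
      rw [nv_smul, typ_smul]) (fun σ _ => adc_smul g c σ)

theorem bdry_nat (g : G) :
    (Finsupp.lmapDomain ℤ ℤ (g • · : Cell M → Cell M) * bdry : Module.End ℤ (Cell M →₀ ℤ)) =
      bdry * Finsupp.lmapDomain ℤ ℤ (g • ·) :=
  bd_nat (g • ·) (types_smul g) (rem_smul g)

end

end Pool.Agent.GLA2
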