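import Pool.Agent.Lib.MP_8f66f0_al_GLA.Defs

/-! Basic facts on `ShL`: modularity, Nakayama's lemma, powers of the shift, greatest elements,
sums over the pairs modulo the shift. -/

set_option autoImplicit false

namespace Pool.Agent.GLA

variable {M : Type} [ShL M]

lemma ht_le {a b : M} (h : a ≤ b) : ht a ≤ ht b := by
  rcases h.eq_or_lt with h | h
  · rw [h]
  · exact (ShL.ht_lt _ _ h).le

lemma eq_of_ht {a b : M} (h : a ≤ b) (h2 : ht b ≤ ht a) : a = b := by
  rcases h.eq_or_lt with h | h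
  · exact h
  · exact absurd (ShL.ht_lt _ _ h) (not_lt.2 h2)

instance : IsModularLattice M where
  sup_inf_le_assoc_of_le := by
    intro x y z hxz
    have hab : x ⊔ (y ⊓ z) ≤ (x ⊔ y) ⊓ z :=
      sup_le (le_inf le_sup_left hxz) (le_inf (inf_le_left.trans le_sup_right) inf_le_right)
    have e1 := ShL.ht_mod x (y ⊓ z)
    have e2 := ShL.ht_mod (x ⊔ y) z
    have e3 := ShL.ht_mod x y
    have e4 := ShL.ht_mod y z
    have i1 : x ⊓ (y ⊓ z) = x ⊓ y := by
      rw [← inf_assoc]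
      exact inf_eq_left.2 (inf_le_left.trans hxz)
    have i2 : x ⊔ y ⊔ z = y ⊔ z := by
      rw [sup_comm x y, sup_assoc, sup_eq_right.2 hxz]
    rw [i1] at e1
    rw [i2] at e2
    exact (eq_of_ht hab (by linarith)).ge

/-- The shift as a permutation. -/
def shE (M : Type) [ShL M] : Equiv.Perm M where
  toFun := sh
  invFun := shi
  left_inv := ShL.shi_sh
  right_inv := ShL.sh_shi

@[simp] lemma shE_apply (a : M) : shE M a = sh a := rfl
@[simp] lemma shE_symm_apply (a : M) : (shE M).symm a = shi a := rfl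
lemma shE_inv_apply (a : M) : (shE M)⁻¹ a = shi a := rfl

lemma sh_inj {a b : M} (h : sh a = sh b) : a = b := (shE M).injective h

lemma sh_le_iff (a b : M) : sh a ≤ sh b ↔ a ≤ b := by
  constructor
  · intro h
    have := ShL.shi_mono _ _ h
    rwa [ShL.shi_sh, ShL.shi_sh] at this
  · exact ShL.sh_mono a b

lemma shi_le_iff (a b : M) : shi a ≤ shi b ↔ a ≤ b := by
  constructor
  · intro h
    have := ShL.sh_mono _ _ h
    rwa [ShL.sh_shi, ShL.sh_shi] at this
  · exact ShL.shi_mono a b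

lemma sh_lt_iff (a b : M) : sh a < sh b ↔ a < b := by
  rw [lt_iff_le_not_ge, lt_iff_le_not_ge, sh_le_iff, sh_le_iff]

lemma sh_lt (a : M) : sh a < a := by
  refine lt_of_le_of_ne (ShL.sh_le a) ?_
  intro h
  have h1 := ShL.ht_sh a
  have h2 : (0 : ℤ) < per M := by exact_mod_cast ShL.per_pos
  rw [h] at h1
  linarith

lemma le_shi (a : M) : a ≤ shi a := by
  have := ShL.sh_le (shi a)
  rwa [ShL.sh_shi] at this

lemma ht_shi (a : M) : ht (shi a) = ht a + per M := by
  have := ShL.ht_sh (shi a)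
  rw [ShL.sh_shi] at this
  linarith

lemma sh_sup (a b : M) : sh (a ⊔ b) = sh a ⊔ sh b := by
  apply le_antisymm
  · have h : a ⊔ b ≤ shi (sh a ⊔ sh b) := by
      apply sup_le
      · rw [← sh_le_iff, ShL.sh_shi]; exact le_sup_left
      · rw [← sh_le_iff, ShL.sh_shi]; exact le_sup_right
    rwa [← sh_le_iff, ShL.sh_shi] at h
  · exact sup_le (ShL.sh_mono _ _ le_sup_left) (ShL.sh_mono _ _ le_sup_right)

lemma sh_inf (a b : M) : sh (a ⊓ b) = sh a ⊓ sh b := by
  apply le_antisymm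
  · exact le_inf (ShL.sh_mono _ _ inf_le_left) (ShL.sh_mono _ _ inf_le_right)
  · have h : shi (sh a ⊓ sh b) ≤ a ⊓ b := by
      apply le_inf
      · rw [← sh_le_iff, ShL.sh_shi]; exact inf_le_left
      · rw [← sh_le_iff, ShL.sh_shi]; exact inf_le_right
    rwa [← sh_le_iff, ShL.sh_shi] at h

lemma shi_sup (a b : M) : shi (a ⊔ b) = shi a ⊔ shi b := by
  apply sh_inj
  rw [ShL.sh_shi, sh_sup, ShL.sh_shi, ShL.sh_shi]

lemma shi_inf (a b : M) : shi (a ⊓ b) = shi a ⊓ shi b := by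
  apply sh_inj
  rw [ShL.sh_shi, sh_inf, ShL.sh_shi, ShL.sh_shi]

lemma ShSt.shi {s : Set M} (h : ShSt s) (a : M) : shi a ∈ s ↔ a ∈ s := by
  rw [← h (GLA.shi a), ShL.sh_shi]

lemma ShSt.iter {s : Set M} (h : ShSt s) (a : M) (k : ℕ) : sh^[k] a ∈ s ↔ a ∈ s := by
  induction k generalizing a with
  | zero => rfl
  | succ k ih => rw [Function.iterate_succ_apply, ih, h]

lemma iter_mono (k : ℕ) {a b : M} (h : a ≤ b) : sh^[k] a ≤ sh^[k] b := by
  induction k generalizing a b with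
  | zero => exact h
  | succ k ih => rw [Function.iterate_succ_apply, Function.iterate_succ_apply]
                 exact ih (ShL.sh_mono _ _ h)

lemma iter_le (k : ℕ) (a : M) : sh^[k] a ≤ a := by
  induction k generalizing a with
  | zero => exact le_rfl
  | succ k ih => rw [Function.iterate_succ_apply]
                 exact (ih _).trans (ShL.sh_le a)

lemma iter_sup (k : ℕ) (a b : M) : sh^[k] (a ⊔ b) = sh^[k] a ⊔ sh^[k] b := by
  induction k generalizing a b with
  | zero => rfl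
  | succ k ih => rw [Function.iterate_succ_apply, sh_sup, ih, Function.iterate_succ_apply,
                   Function.iterate_succ_apply]

/-- Nakayama's lemma. -/
lemma nak {a b : M} (h : b ≤ a ⊔ sh b) : b ≤ a := by
  have key : ∀ k : ℕ, b ≤ a ⊔ sh^[k] b := by
    intro k
    induction k with
    | zero => exact le_sup_right
    | succ k ih =>
      refine ih.trans (sup_le le_sup_left ?_)
      refine (iter_mono k h).trans ?_
      rw [iter_sup, Function.iterate_succ_apply]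
      exact sup_le ((iter_le k a).trans le_sup_left) le_sup_right
  obtain ⟨k, hk⟩ := ShL.arch b a
  exact (key k).trans (sup_le le_rfl hk)

/-- Directed sets of bounded height have a greatest element. -/
lemma exists_greatest {S : Set M} (ne : S.Nonempty) (h : ℤ) (bd : ∀ a ∈ S, ht a ≤ h)
    (dir : ∀ a ∈ S, ∀ b ∈ S, ∃ c ∈ S, a ≤ c ∧ b ≤ c) : ∃ c, IsGreatest S c := by
  obtain ⟨m, hm, hmax⟩ := Int.exists_greatest_of_bdd (P := fun n => ∃ a ∈ S, ht a = n)
    ⟨h, by rintro n ⟨a, ha, rfl⟩; exact bd a ha⟩ (by obtain ⟨a, ha⟩ := ne; exact ⟨_, a, ha, rfl⟩)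
  obtain ⟨c, hc, rfl⟩ := hm
  refine ⟨c, hc, ?_⟩
  intro a ha
  obtain ⟨e, he, hae, hce⟩ := dir a ha c hc
  have : c = e := eq_of_ht hce (hmax _ ⟨e, he, rfl⟩)
  rw [this]
  exact hae

/-- Chains of bounded height have a least element. -/
lemma exists_least {S : Set M} (ne : S.Nonempty) (h : ℤ) (bd : ∀ a ∈ S, h ≤ ht a)
    (dir : ∀ a ∈ S, ∀ b ∈ S, ∃ c ∈ S, c ≤ a ∧ c ≤ b) : ∃ c, IsLeast S c := by
  obtain ⟨m, hm, hmin⟩ := Int.exists_least_of_bdd (P := fun n => ∃ a ∈ S, ht a = n)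
    ⟨h, by rintro n ⟨a, ha, rfl⟩; exact bd a ha⟩ (by obtain ⟨a, ha⟩ := ne; exact ⟨_, a, ha, rfl⟩)
  obtain ⟨c, hc, rfl⟩ := hm
  refine ⟨c, hc, ?_⟩
  intro a ha
  obtain ⟨e, he, hea, hec⟩ := dir a ha c hc
  have : e = c := eq_of_ht hec (hmin _ ⟨e, he, rfl⟩)
  rw [← this]
  exact hea

/-- A non-empty shift stable set has elements below every `F`. -/
lemma exists_below {X : Set M} (ne : X.Nonempty) (st : ShSt X) (F : M) : ∃ c ∈ X, c ≤ F := by
  obtain ⟨x, hx⟩ := ne
  obtain ⟨k, hk⟩ := ShL.arch x F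
  exact ⟨_, (st.iter x k).2 hx, hk⟩

/-- An admissible set has a greatest element below every `F`. -/
lemma Adm.exists_top {X : Set M} (h : Adm X) (F : M) : ∃ c, IsGreatest {a | a ∈ X ∧ a ≤ F} c := by
  obtain ⟨x, hx, hxF⟩ := exists_below h.ne h.st F
  refine exists_greatest ⟨x, hx, hxF⟩ (ht F) (fun a ha => ht_le ha.2) ?_
  intro a ha b hb
  exact ⟨a ⊔ b, ⟨h.sup a ha.1 b hb.1, sup_le ha.2 hb.2⟩, le_sup_left, le_sup_right⟩

/-- The members of a cell have predecessors. -/
lemma Cell.exists_pred (σ : Cell M) {F : M} (hF : F ∈ σ.s) :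
    ∃ l, IsGreatest {a | a ∈ σ.s ∧ a < F} l := by
  refine exists_greatest ⟨sh F, (σ.st F).2 hF, sh_lt F⟩ (ht F) (fun a ha => ht_le ha.2.le) ?_
  intro a ha b hb
  rcases σ.ch a ha.1 b hb.1 with h | h
  · exact ⟨b, hb, h, le_rfl⟩
  · exact ⟨a, ha, le_rfl, h⟩

/-! ### Pairs -/

/-- The shift on pairs. -/
def shP (M : Type) [ShL M] : Equiv.Perm (M × M) := Equiv.prodCongr (shE M) (shE M)

@[simp] lemma shP_apply (p : M × M) : shP M p = (sh p.1, sh p.2) := rfl
lemma shP_inv_apply (p : M × M) : (shP M)⁻¹ p = (shi p.1, shi p.2) := rfl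

lemma ht_zpow (k : ℤ) (p : M × M) :
    ht ((shP M ^ k) p).1 = ht p.1 - k * per M ∧ ht ((shP M ^ k) p).2 = ht p.2 - k * per M := by
  induction k using Int.induction_on with
  | zero => simp
  | succ i ih =>
    rw [zpow_add_one, Equiv.Perm.mul_apply, ← Equiv.Perm.mul_apply, ← zpow_add_one,
      add_comm, zpow_add, zpow_one, Equiv.Perm.mul_apply, shP_apply]
    constructor
    · show ht (sh _) = _
      rw [ShL.ht_sh, ih.1]; ring
    · show ht (sh _) = _
      rw [ShL.ht_sh, ih.2]; ring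
  | pred i ih =>
    rw [sub_eq_add_neg, add_comm, zpow_add, zpow_neg_one, Equiv.Perm.mul_apply, shP_inv_apply]
    constructor
    · show ht (shi _) = _
      rw [ht_shi, ih.1]; ring
    · show ht (shi _) = _
      rw [ht_shi, ih.2]; ring

/-- Stable sets of pairs. -/
def PSt (P : Set (M × M)) : Prop := ∀ p : M × M, (sh p.1, sh p.2) ∈ P ↔ p ∈ P

lemma PSt.zpow {P : Set (M × M)} (h : PSt P) (k : ℤ) (p : M × M) : (shP M ^ k) p ∈ P ↔ p ∈ P := by
  induction k using Int.induction_on with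
  | zero => simp
  | succ i ih =>
    rw [add_comm, zpow_add, zpow_one, Equiv.Perm.mul_apply, shP_apply, h, ih]
  | pred i ih =>
    rw [sub_eq_add_neg, add_comm, zpow_add, zpow_neg_one, Equiv.Perm.mul_apply, ← h, shP_inv_apply]
    simp only [ShL.sh_shi]
    rw [← ih]

/-- The pairs of `P` in the window. -/
def WP (P : Set (M × M)) : Set (M × M) := {p | p ∈ P ∧ 0 ≤ ht p.2 ∧ ht p.2 < per M}

/-- The representative in the window. -/
def rep (p : M × M) : M × M := (shP M ^ (ht p.2 / (per M : ℤ))) p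

lemma rep_win (p : M × M) : 0 ≤ ht (rep p).2 ∧ ht (rep p).2 < per M := by
  have hp : (0 : ℤ) < per M := by exact_mod_cast ShL.per_pos
  have h := (ht_zpow (ht p.2 / (per M : ℤ)) p).2
  unfold rep
  rw [h]
  have h1 := Int.emod_nonneg (ht p.2) hp.ne'
  have h2 := Int.emod_lt_of_pos (ht p.2) hp
  have h3 := Int.emod_add_mul_ediv (ht p.2) (per M : ℤ)
  constructor <;> nlinarith

/-- The weight of a pair. -/
def wt (p : M × M) : ℕ := (1 + ht p.2 - ht p.1).toNat

lemma wt_zpow (k : ℤ) (p : M × M) : wt ((shP M ^ k) p) = wt p := by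
  unfold wt
  rw [(ht_zpow k p).1, (ht_zpow k p).2]
  congr 1
  ring

lemma wt_pos {p : M × M} (h : p.1 < p.2) : 0 < wt p := by
  unfold wt
  have := ShL.ht_lt _ _ h
  omega

/-- Stable sets of pairs with finitely many pairs modulo the shift. -/
structure PGood (P : Set (M × M)) : Prop where
  st : PSt P
  lt : ∀ p ∈ P, p.1 < p.2
  fin : (WP P).Finite

lemma rk_eq (P : Set (M × M)) (h : (WP P).Finite) : rk P = ∑ p ∈ h.toFinset, wt p := by
  unfold rk
  exact finsum_mem_eq_finite_toFinset_sum _ h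

lemma PGood.rk_pos {P : Set (M × M)} (h : PGood P) (ne : P.Nonempty) : 0 < rk P := by
  rw [rk_eq P h.fin]
  obtain ⟨p, hp⟩ := ne
  refine Finset.sum_pos' (fun _ _ => Nat.zero_le _) ⟨rep p, ?_, ?_⟩
  · rw [Set.Finite.mem_toFinset]
    exact ⟨(h.st.zpow _ _).2 hp, rep_win p⟩
  · exact wt_pos (h.lt _ ((h.st.zpow _ _).2 hp))

lemma PGood.rk_eq_zero {P : Set (M × M)} (h : PGood P) : rk P = 0 ↔ P = ∅ := by
  constructor
  · intro h0
    by_contra hne
    exact absurd (h.rk_pos (Set.nonempty_iff_ne_empty.2 hne)) (by omega)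
  · rintro rfl
    rw [rk_eq _ h.fin]
    apply Finset.sum_eq_zero
    intro p hp
    rw [Set.Finite.mem_toFinset] at hp
    exact hp.1.elim

/-- Comparison of ranks. -/
lemma rk_rel {P Q : Set (M × M)} (hP : PGood P) (hQ : PGood Q) (R : M × M → M × M → Prop)
    (hex : ∀ q ∈ Q, ∃ p ∈ P, R q p) (huni : ∀ q p p', R q p → R q p' → p = p')
    (hinj : ∀ q q' p, R q p → R q' p → q = q')
    (hsh : ∀ q p, R q p → R (sh q.1, sh q.2) (sh p.1, sh p.2))
    (hshi : ∀ q p, R q p → R (shi q.1, shi q.2) (shi p.1, shi p.2))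
    (hw : ∀ q ∈ Q, ∀ p ∈ P, R q p → wt q ≤ wt p) :
    rk Q ≤ rk P ∧ (rk Q = rk P → (∀ p ∈ P, ∃ q ∈ Q, R q p) ∧
      ∀ q ∈ Q, ∀ p ∈ P, R q p → wt q = wt p) := by
  classical
  have hz : ∀ (k : ℤ) (q p : M × M), R q p → R ((shP M ^ k) q) ((shP M ^ k) p) := by
    intro k
    induction k using Int.induction_on with
    | zero => intro q p h; simpa using h
    | succ i ih =>
      intro q p h
      rw [add_comm, zpow_add, zpow_one, Equiv.Perm.mul_apply, Equiv.Perm.mul_apply]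
      exact hsh _ _ (ih _ _ h)
    | pred i ih =>
      intro q p h
      rw [sub_eq_add_neg, add_comm, zpow_add, zpow_neg_one, Equiv.Perm.mul_apply,
        Equiv.Perm.mul_apply]
      exact hshi _ _ (ih _ _ h)
  choose! f hf using hex
  rw [rk_eq P hP.fin, rk_eq Q hQ.fin]
  have himg : ∀ q ∈ hQ.fin.toFinset, rep (f q) ∈ hP.fin.toFinset := by
    intro q hq
    rw [Set.Finite.mem_toFinset] at hq ⊢
    exact ⟨(hP.st.zpow _ _).2 (hf q hq.1).1, rep_win _⟩
  have hinj' : Set.InjOn (fun q => rep (f q)) (hQ.fin.toFinset : Set (M × M)) := by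
    intro q hq q' hq' h
    have hq := (Set.Finite.mem_toFinset _).1 hq
    have hq' := (Set.Finite.mem_toFinset _).1 hq'
    simp only at h
    unfold rep at h
    set k := ht (f q).2 / (per M : ℤ) with hk
    set k' := ht (f q').2 / (per M : ℤ) with hk'
    have h1 : (shP M ^ (k - k')) (f q) = f q' := by
      rw [sub_eq_add_neg, add_comm, zpow_add, Equiv.Perm.mul_apply, h, ← Equiv.Perm.mul_apply,
        ← zpow_add, neg_add_cancel, zpow_zero, Equiv.Perm.one_apply]
    have h2 := hz (k - k') _ _ (hf q hq.1).2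
    rw [h1] at h2
    have h3 := hinj _ _ _ h2 (hf q' hq'.1).2
    have h4 := (ht_zpow (k - k') q).2
    rw [h3] at h4
    have hp : (0 : ℤ) < per M := by exact_mod_cast ShL.per_pos
    have h5 : k - k' = 0 := by
      have b1 := hq.2
      have b2 := hq'.2
      by_contra hne
      rcases lt_or_gt_of_ne hne with hlt | hgt
      · have : (k - k') * (per M : ℤ) ≤ -1 * per M := by
          apply mul_le_mul_of_nonneg_right _ hp.le
          omega
        linarith [b1.1, b1.2, b2.1, b2.2]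
      · have : 1 * (per M : ℤ) ≤ (k - k') * per M := by
          apply mul_le_mul_of_nonneg_right _ hp.le
          omega
        linarith [b1.1, b1.2, b2.1, b2.2]
    rw [h5, zpow_zero, Equiv.Perm.one_apply] at h3
    exact h3
  have hsum : ∑ q ∈ hQ.fin.toFinset, wt q ≤ ∑ q ∈ hQ.fin.toFinset, wt (rep (f q)) := by
    apply Finset.sum_le_sum
    intro q hq
    rw [Set.Finite.mem_toFinset] at hq
    rw [rep, wt_zpow]
    exact hw q hq.1 _ (hf q hq.1).1 (hf q hq.1).2
  have hsum2 : ∑ q ∈ hQ.fin.toFinset, wt (rep (f q)) =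
      ∑ p ∈ hQ.fin.toFinset.image (fun q => rep (f q)), wt p :=
    (Finset.sum_image hinj').symm
  have hsub : hQ.fin.toFinset.image (fun q => rep (f q)) ⊆ hP.fin.toFinset := by
    intro p hp
    obtain ⟨q, hq, rfl⟩ := Finset.mem_image.1 hp
    exact himg q hq
  have hsum3 : ∑ p ∈ hQ.fin.toFinset.image (fun q => rep (f q)), wt p ≤
      ∑ p ∈ hP.fin.toFinset, wt p := Finset.sum_le_sum_of_subset hsub
  refine ⟨hsum.trans (hsum2.le.trans hsum3), ?_⟩
  intro heq
  have heq1 : ∑ q ∈ hQ.fin.toFinset, wt q = ∑ q ∈ hQ.fin.toFinset, wt (rep (f q)) := by omega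
  have heq2 : ∑ p ∈ hQ.fin.toFinset.image (fun q => rep (f q)), wt p =
      ∑ p ∈ hP.fin.toFinset, wt p := by omega
  have hall : ∀ p ∈ hP.fin.toFinset, p ∈ hQ.fin.toFinset.image (fun q => rep (f q)) := by
    intro p hp
    by_contra hnot
    have h1 : ∑ p ∈ hQ.fin.toFinset.image (fun q => rep (f q)), wt p <
        ∑ p ∈ hP.fin.toFinset, wt p := by
      refine Finset.sum_lt_sum_of_subset hsub hp hnot ?_ (fun _ _ _ => Nat.zero_le _)
      rw [Set.Finite.mem_toFinset] at hp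
      exact wt_pos (hP.lt _ hp.1)
    omega
  have hwt : ∀ q ∈ hQ.fin.toFinset, wt q = wt (rep (f q)) := by
    refine (Finset.sum_eq_sum_iff_of_le ?_).1 heq1
    intro q hq
    rw [Set.Finite.mem_toFinset] at hq
    rw [rep, wt_zpow]
    exact hw q hq.1 _ (hf q hq.1).1 (hf q hq.1).2
  constructor
  · intro p hp
    have h1 : rep p ∈ hP.fin.toFinset := by
      rw [Set.Finite.mem_toFinset]
      exact ⟨(hP.st.zpow _ _).2 hp, rep_win p⟩
    obtain ⟨q, hq, hqp⟩ := Finset.mem_image.1 (hall _ h1)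
    rw [Set.Finite.mem_toFinset] at hq
    have h2 := hz (ht (f q).2 / (per M : ℤ)) _ _ (hf q hq.1).2
    have h3 : (shP M ^ (ht (f q).2 / (per M : ℤ))) (f q) = (shP M ^ (ht p.2 / (per M : ℤ))) p := hqp
    rw [h3] at h2
    have h4 := hz (-(ht p.2 / (per M : ℤ))) _ _ h2
    rw [← Equiv.Perm.mul_apply, ← Equiv.Perm.mul_apply, ← zpow_add, ← zpow_add, neg_add_cancel,
      zpow_zero, Equiv.Perm.one_apply] at h4
    exact ⟨_, (hQ.st.zpow _ _).2 hq.1, h4⟩
  · intro q hq p hp hqp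
    have h1 : rep q ∈ hQ.fin.toFinset := by
      rw [Set.Finite.mem_toFinset]
      exact ⟨(hQ.st.zpow _ _).2 hq, rep_win q⟩
    have h2 := hwt _ h1
    rw [rep, wt_zpow] at h2
    have h3 := hz (ht q.2 / (per M : ℤ)) _ _ hqp
    have h4 : (shP M ^ (ht q.2 / (per M : ℤ))) q ∈ Q := (hQ.st.zpow _ _).2 hq
    have h5 := huni _ _ _ h3 (hf _ h4).2
    rw [← h5] at h2
    rw [h2, rep, wt_zpow, wt_zpow]

end Pool.Agent.GLA
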