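import Pool.Agent.Lib.MP_8f66f0_al_GLA.Basic

/-! Labels and ranks of cells with respect to admissible sets: monotonicity in the admissible set
and under inward moves. -/

set_option autoImplicit false

namespace Pool.Agent.GLA

variable {M : Type} [ShL M]

/-- Comparison of ranks, general form. -/
lemma rk_rel' {P Q : Set (M × M)} (hP : PGood P) (hQ : PGood Q) (R : M × M → M × M → Prop)
    (hfin : ∀ q ∈ Q, {p | p ∈ P ∧ R q p}.Finite)
    (hdis : ∀ q ∈ Q, ∀ q' ∈ Q, ∀ p, R q p → R q' p → q = q')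
    (hsh : ∀ q ∈ Q, ∀ p, R q p → R (sh q.1, sh q.2) (sh p.1, sh p.2))
    (hshi : ∀ q ∈ Q, ∀ p, R q p → R (shi q.1, shi q.2) (shi p.1, shi p.2))
    (hw : ∀ q (hq : q ∈ Q), wt q ≤ ∑ p ∈ (hfin q hq).toFinset, wt p) :
    rk Q ≤ rk P ∧ (rk Q = rk P → (∀ p ∈ P, ∃ q ∈ Q, R q p) ∧
      ∀ q (hq : q ∈ Q), wt q = ∑ p ∈ (hfin q hq).toFinset, wt p) := by
  classical
  have hshi' : ∀ q, (shi q.1, shi q.2) ∈ Q ↔ q ∈ Q := by
    intro q
    rw [← hQ.st (shi q.1, shi q.2)]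
    simp only [ShL.sh_shi]
  have hz : ∀ (k : ℤ) (q p : M × M), q ∈ Q → R q p → R ((shP M ^ k) q) ((shP M ^ k) p) := by
    intro k
    induction k using Int.induction_on with
    | zero => intro q p _ h; simpa using h
    | succ i ih =>
      intro q p hq h
      rw [add_comm, zpow_add, zpow_one, Equiv.Perm.mul_apply, Equiv.Perm.mul_apply]
      exact hsh _ ((hQ.st.zpow _ _).2 hq) _ (ih _ _ hq h)
    | pred i ih =>
      intro q p hq h
      rw [sub_eq_add_neg, add_comm, zpow_add, zpow_neg_one, Equiv.Perm.mul_apply,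
        Equiv.Perm.mul_apply]
      exact hshi _ ((hQ.st.zpow _ _).2 hq) _ (ih _ _ hq h)
  set G : M × M → Finset (M × M) := fun q => if hq : q ∈ Q then (hfin q hq).toFinset else ∅ with hG
  have hGm : ∀ q ∈ Q, ∀ p, p ∈ G q ↔ p ∈ P ∧ R q p := by
    intro q hq p
    rw [hG]
    simp only [hq, dif_pos, Set.Finite.mem_toFinset]
    rfl
  have hGe : ∀ q (hq : q ∈ Q), G q = (hfin q hq).toFinset := by
    intro q hq
    rw [hG]
    simp only [hq, dif_pos]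
  rw [rk_eq P hP.fin, rk_eq Q hQ.fin]
  set WQ := hQ.fin.toFinset with hWQ
  set WPs := hP.fin.toFinset with hWP
  have mQ : ∀ q, q ∈ WQ ↔ q ∈ Q ∧ 0 ≤ ht q.2 ∧ ht q.2 < per M := by
    intro q; rw [hWQ, Set.Finite.mem_toFinset]; rfl
  have mP : ∀ q, q ∈ WPs ↔ q ∈ P ∧ 0 ≤ ht q.2 ∧ ht q.2 < per M := by
    intro q; rw [hWP, Set.Finite.mem_toFinset]; rfl
  set Sg : Finset (Σ _ : M × M, M × M) := WQ.sigma G with hSg
  have mS : ∀ x : (Σ _ : M × M, M × M), x ∈ Sg ↔ x.1 ∈ WQ ∧ x.2 ∈ G x.1 := by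
    intro x; rw [hSg, Finset.mem_sigma]
  have hinj' : Set.InjOn (fun x : (Σ _ : M × M, M × M) => rep x.2) (Sg : Set _) := by
    rintro ⟨q, p⟩ hx ⟨q', p'⟩ hx' h
    have hx := (mS _).1 hx
    have hx' := (mS _).1 hx'
    simp only at h hx hx'
    have hq := (mQ q).1 hx.1
    have hq' := (mQ q').1 hx'.1
    have hp := (hGm q hq.1 p).1 hx.2
    have hp' := (hGm q' hq'.1 p').1 hx'.2
    unfold rep at h
    set k := ht p.2 / (per M : ℤ) with hk
    set k' := ht p'.2 / (per M : ℤ) with hk'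
    have h1 : (shP M ^ (k - k')) p = p' := by
      rw [sub_eq_add_neg, add_comm, zpow_add, Equiv.Perm.mul_apply, h, ← Equiv.Perm.mul_apply,
        ← zpow_add, neg_add_cancel, zpow_zero, Equiv.Perm.one_apply]
    have h2 := hz (k - k') _ _ hq.1 hp.2
    rw [h1] at h2
    have h3 := hdis _ ((hQ.st.zpow _ _).2 hq.1) _ hq'.1 _ h2 hp'.2
    have h4 := (ht_zpow (k - k') q).2
    rw [h3] at h4
    have hpp : (0 : ℤ) < per M := by exact_mod_cast ShL.per_pos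
    have h5 : k - k' = 0 := by
      have b1 := hq.2
      have b2 := hq'.2
      by_contra hne
      rcases lt_or_gt_of_ne hne with hlt | hgt
      · have : (k - k') * (per M : ℤ) ≤ -1 * per M := by
          apply mul_le_mul_of_nonneg_right _ hpp.le
          omega
        linarith [b1.1, b1.2, b2.1, b2.2]
      · have : 1 * (per M : ℤ) ≤ (k - k') * per M := by
          apply mul_le_mul_of_nonneg_right _ hpp.le
          omega
        linarith [b1.1, b1.2, b2.1, b2.2]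
    rw [h5, zpow_zero, Equiv.Perm.one_apply] at h3 h1
    rw [h3, h1]
  have hsum : ∑ q ∈ WQ, wt q ≤ ∑ q ∈ WQ, ∑ p ∈ G q, wt p := by
    apply Finset.sum_le_sum
    intro q hq
    have := hw q ((mQ q).1 hq).1
    rwa [← hGe q ((mQ q).1 hq).1] at this
  have hsum2 : ∑ q ∈ WQ, ∑ p ∈ G q, wt p = ∑ p ∈ Sg.image (fun x => rep x.2), wt p := by
    rw [Finset.sum_image hinj', hSg, Finset.sum_sigma]
    apply Finset.sum_congr rfl
    intro q _
    apply Finset.sum_congr rfl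
    intro p _
    simp only
    rw [rep, wt_zpow]
  have hsub : Sg.image (fun x => rep x.2) ⊆ WPs := by
    intro p hp
    obtain ⟨x, hx, rfl⟩ := Finset.mem_image.1 hp
    have hx := (mS _).1 hx
    have h1 := (hGm x.1 ((mQ _).1 hx.1).1 x.2).1 hx.2
    rw [mP]
    exact ⟨(hP.st.zpow _ _).2 h1.1, rep_win _⟩
  have hsum3 : ∑ p ∈ Sg.image (fun x => rep x.2), wt p ≤ ∑ p ∈ WPs, wt p :=
    Finset.sum_le_sum_of_subset hsub
  refine ⟨hsum.trans (hsum2.le.trans hsum3), ?_⟩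
  intro heq
  have heq1 : ∑ q ∈ WQ, wt q = ∑ q ∈ WQ, ∑ p ∈ G q, wt p := by omega
  have heq2 : ∑ p ∈ Sg.image (fun x => rep x.2), wt p = ∑ p ∈ WPs, wt p := by omega
  have hall : ∀ p ∈ WPs, p ∈ Sg.image (fun x => rep x.2) := by
    intro p hp
    by_contra hnot
    have h1 : ∑ p ∈ Sg.image (fun x => rep x.2), wt p < ∑ p ∈ WPs, wt p := by
      refine Finset.sum_lt_sum_of_subset hsub hp hnot ?_ (fun _ _ _ => Nat.zero_le _)
      exact wt_pos (hP.lt _ ((mP p).1 hp).1)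
    omega
  have hwt : ∀ q ∈ WQ, wt q = ∑ p ∈ G q, wt p := by
    refine (Finset.sum_eq_sum_iff_of_le ?_).1 heq1
    intro q hq
    have := hw q ((mQ q).1 hq).1
    rwa [← hGe q ((mQ q).1 hq).1] at this
  constructor
  · intro p hp
    have h1 : rep p ∈ WPs := by
      rw [mP]
      exact ⟨(hP.st.zpow _ _).2 hp, rep_win p⟩
    obtain ⟨x, hx, hqp⟩ := Finset.mem_image.1 (hall _ h1)
    have hx := (mS _).1 hx
    have hq := ((mQ _).1 hx.1).1
    have hp1 := (hGm x.1 hq x.2).1 hx.2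
    have h2 := hz (ht x.2.2 / (per M : ℤ)) _ _ hq hp1.2
    have h3 : (shP M ^ (ht x.2.2 / (per M : ℤ))) x.2 = (shP M ^ (ht p.2 / (per M : ℤ))) p := hqp
    rw [h3] at h2
    have h4 := hz (-(ht p.2 / (per M : ℤ))) _ _ ((hQ.st.zpow _ _).2 hq) h2
    rw [← Equiv.Perm.mul_apply, ← Equiv.Perm.mul_apply, ← zpow_add, ← zpow_add, neg_add_cancel,
      zpow_zero, Equiv.Perm.one_apply] at h4
    exact ⟨_, (hQ.st.zpow _ _).2 hq, h4⟩
  · intro q hq
    rw [← hGe q hq]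
    set j := ht q.2 / (per M : ℤ) with hj
    have h1 : (shP M ^ j) q ∈ WQ := by
      rw [mQ]
      exact ⟨(hQ.st.zpow _ _).2 hq, rep_win q⟩
    have h2 := hwt _ h1
    rw [wt_zpow] at h2
    rw [h2]
    symm
    apply Finset.sum_bij (fun p _ => (shP M ^ j) p)
    · intro p hp
      rw [hGm _ hq] at hp
      rw [hGm _ ((hQ.st.zpow _ _).2 hq)]
      exact ⟨(hP.st.zpow _ _).2 hp.1, hz _ _ _ hq hp.2⟩
    · intro a _ b _ h
      exact (shP M ^ j).injective h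
    · intro p hp
      rw [hGm _ ((hQ.st.zpow _ _).2 hq)] at hp
      refine ⟨(shP M ^ (-j)) p, ?_, ?_⟩
      · rw [hGm _ hq]
        refine ⟨(hP.st.zpow _ _).2 hp.1, ?_⟩
        have h5 := hz (-j) _ _ ((hQ.st.zpow _ _).2 hq) hp.2
        rwa [← Equiv.Perm.mul_apply, ← zpow_add, neg_add_cancel, zpow_zero,
          Equiv.Perm.one_apply] at h5
      · rw [← Equiv.Perm.mul_apply, ← zpow_add, add_neg_cancel, zpow_zero, Equiv.Perm.one_apply]
    · intro p _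
      rw [wt_zpow]

/-! ### Labels -/

lemma isGreatest_sh {S T : Set M} (h : ∀ a, sh a ∈ T ↔ a ∈ S) (l : M) :
    IsGreatest T (sh l) ↔ IsGreatest S l := by
  constructor
  · rintro ⟨h1, h2⟩
    refine ⟨(h l).1 h1, fun a ha => ?_⟩
    rw [← sh_le_iff]
    exact h2 ((h a).2 ha)
  · rintro ⟨h1, h2⟩
    refine ⟨(h l).2 h1, fun a ha => ?_⟩
    have h3 : shi a ∈ S := by rw [← h, ShL.sh_shi]; exact ha
    have h4 := h2 h3
    rwa [← sh_le_iff, ShL.sh_shi] at h4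

lemma pred_sh {s : Set M} (hs : ShSt s) (F l : M) :
    IsGreatest {a | a ∈ s ∧ a < sh F} (sh l) ↔ IsGreatest {a | a ∈ s ∧ a < F} l :=
  isGreatest_sh (fun a => by
    show (sh a ∈ s ∧ sh a < sh F) ↔ (a ∈ s ∧ a < F)
    rw [hs, sh_lt_iff]) l

lemma top_sh {s : Set M} (hs : ShSt s) (F l : M) :
    IsGreatest {a | a ∈ s ∧ a ≤ sh F} (sh l) ↔ IsGreatest {a | a ∈ s ∧ a ≤ F} l :=
  isGreatest_sh (fun a => by
    show (sh a ∈ s ∧ sh a ≤ sh F) ↔ (a ∈ s ∧ a ≤ F)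
    rw [hs, sh_le_iff]) l

lemma lab_pst {X s : Set M} (hX : ShSt X) (hs : ShSt s) : PSt (lab X s) := by
  intro p
  constructor
  · rintro ⟨h1, h2, l, c, h3, h4, h5⟩
    refine ⟨(hs _).1 h1, fun h => h2 (by simp only [h]), shi l, shi c, ?_, ?_, ?_⟩
    · rw [← pred_sh hs, ShL.sh_shi]; exact h3
    · rw [← top_sh hX, ShL.sh_shi]; exact h4
    · apply sh_inj
      rw [sh_sup, ShL.sh_shi, ShL.sh_shi]
      exact h5
  · rintro ⟨h1, h2, l, c, h3, h4, h5⟩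
    refine ⟨(hs _).2 h1, fun h => h2 (sh_inj h), sh l, sh c, ?_, ?_, ?_⟩
    · exact (pred_sh hs _ _).2 h3
    · exact (top_sh hX _ _).2 h4
    · show sh p.1 = _
      rw [h5, sh_sup]

lemma lab_lt {X s : Set M} {p : M × M} (h : p ∈ lab X s) : p.1 < p.2 := by
  obtain ⟨h1, h2, l, c, h3, h4, h5⟩ := h
  refine lt_of_le_of_ne ?_ h2
  rw [h5]
  exact sup_le h3.1.2.le h4.1.2

lemma lab_uni {X s : Set M} {p q : M × M} (hp : p ∈ lab X s) (hq : q ∈ lab X s)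
    (h : p.2 = q.2) : p = q := by
  obtain ⟨-, -, l, c, h3, h4, h5⟩ := hp
  obtain ⟨-, -, l', c', h3', h4', h5'⟩ := hq
  rw [h] at h3 h4
  have e1 := h3.unique h3'
  have e2 := h4.unique h4'
  apply Prod.ext
  · rw [h5, h5', e1, e2]
  · exact h

lemma lab_ch {X : Set M} (σ : Cell M) {p q : M × M} (hp : p ∈ lab X σ.s) (hq : q ∈ lab X σ.s)
    (h : p ≠ q) : p.2 ≤ q.1 ∨ q.2 ≤ p.1 := by
  have hne : p.2 ≠ q.2 := fun e => h (lab_uni hp hq e)
  have key : ∀ p q : M × M, p ∈ lab X σ.s → q ∈ lab X σ.s → p.2 < q.2 → p.2 ≤ q.1 := by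
    intro p q hp hq hlt
    obtain ⟨-, -, l, c, h3, h4, h5⟩ := hq
    rw [h5]
    exact (h3.2 ⟨hp.1, hlt⟩).trans le_sup_left
  rcases σ.ch _ hp.1 _ hq.1 with h1 | h1
  · exact Or.inl (key p q hp hq (lt_of_le_of_ne h1 hne))
  · exact Or.inr (key q p hq hp (lt_of_le_of_ne h1 hne.symm))

lemma lab_fin {X : Set M} (σ : Cell M) (a b : ℤ) :
    {p | p ∈ lab X σ.s ∧ a ≤ ht p.2 ∧ ht p.2 ≤ b}.Finite := by
  apply Set.Finite.of_finite_image (f := fun p => ht p.2)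
  · apply (Set.finite_Icc a b).subset
    rintro _ ⟨p, hp, rfl⟩
    exact ⟨hp.2.1, hp.2.2⟩
  · intro p hp q hq h
    simp only at h
    rcases σ.ch _ hp.1.1 _ hq.1.1 with h1 | h1
    · exact lab_uni hp.1 hq.1 (eq_of_ht h1 h.ge)
    · exact lab_uni hp.1 hq.1 (eq_of_ht h1 h.le).symm

lemma lab_pgood {X : Set M} (hX : ShSt X) (σ : Cell M) : PGood (lab X σ.s) where
  st := lab_pst hX σ.st
  lt := fun _ h => lab_lt h
  fin := by
    apply (lab_fin (X := X) σ 0 (per M)).subset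
    rintro p ⟨h1, h2, h3⟩
    exact ⟨h1, h2, h3.le⟩

lemma lab_isLab {X : Set M} (hX : ShSt X) (σ : Cell M) (h : (lab X σ.s).Nonempty) :
    IsLab (lab X σ.s) where
  ne := h
  st := lab_pst hX σ.st
  lt := fun _ h => lab_lt h
  ch := fun _ hp _ hq h => lab_ch σ hp hq h

/-- A member of a cell gives a pair of the label or it is the join of its predecessor and an element
of `X`. -/
lemma lab_or {X : Set M} (hX : Adm X) (σ : Cell M) {F : M} (hF : F ∈ σ.s) :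
    ∃ l c : M, IsGreatest {a | a ∈ σ.s ∧ a < F} l ∧ IsGreatest {a | a ∈ X ∧ a ≤ F} c ∧
      ((l ⊔ c, F) ∈ lab X σ.s ∨ l ⊔ c = F) := by
  obtain ⟨l, hl⟩ := σ.exists_pred hF
  obtain ⟨c, hc⟩ := hX.exists_top F
  refine ⟨l, c, hl, hc, ?_⟩
  by_cases h : l ⊔ c = F
  · exact Or.inr h
  · exact Or.inl ⟨hF, h, l, c, hl, hc, rfl⟩

lemma Cell.chain_dir (σ : Cell M) (S : Set M) (hS : S ⊆ σ.s) :
    ∀ a ∈ S, ∀ b ∈ S, ∃ c ∈ S, c ≤ a ∧ c ≤ b := by
  intro a ha b hb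
  rcases σ.ch a (hS ha) b (hS hb) with h | h
  · exact ⟨a, ha, le_rfl, h⟩
  · exact ⟨b, hb, h, le_rfl⟩

lemma lab_empty {X : Set M} (hX : Adm X) (σ : Cell M) : lab X σ.s = ∅ ↔ σ.s ⊆ X := by
  constructor
  · intro h0 F hF
    obtain ⟨l1, c1, hl1, hc1, h1 | h1⟩ := lab_or hX σ hF
    · rw [h0] at h1; exact h1.elim
    set S : Set M := {L | L ∈ σ.s ∧ sh F ≤ L ∧ L ≤ F ∧ ∃ c ∈ X, F = L ⊔ c} with hS
    have hne : S.Nonempty :=
      ⟨l1, hl1.1.1, hl1.2 ⟨(σ.st F).2 hF, sh_lt F⟩, hl1.1.2.le, c1, hc1.1.1, h1.symm⟩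
    obtain ⟨L, hL, hmin⟩ := exists_least hne (ht (sh F)) (fun a ha => ht_le ha.2.1)
      (σ.chain_dir S (fun a ha => ha.1))
    obtain ⟨hL1, hL2, hL3, c, hc, hcF⟩ := hL
    have hcase : F = sh F ⊔ c := by
      by_contra hne2
      have hlt : sh F < L := lt_of_le_of_ne hL2 (fun e => hne2 (by rw [e]; exact hcF))
      obtain ⟨l, c', hl, hc', h2 | h2⟩ := lab_or hX σ hL1
      · rw [h0] at h2; exact h2.elim
      have hlS : l ∈ S := by
        refine ⟨hl.1.1, hl.2 ⟨(σ.st F).2 hF, hlt⟩, hl.1.2.le.trans hL3, c' ⊔ c,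
          hX.sup _ hc'.1.1 _ hc, ?_⟩
        rw [← sup_assoc, h2]
        exact hcF
      exact absurd (hmin hlS) (not_le_of_gt hl.1.2)
    have h3 : F ≤ c := nak (by rw [sup_comm]; exact hcase.le)
    have h4 : c ≤ F := by rw [hcF]; exact le_sup_right
    rw [le_antisymm h3 h4]
    exact hc
  · intro h
    rw [Set.eq_empty_iff_forall_notMem]
    rintro p ⟨h1, h2, l, c, h3, h4, h5⟩
    apply h2
    have : c = p.2 := le_antisymm h4.1.2 (h4.2 ⟨h h1, le_rfl⟩)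
    rw [h5, this]
    exact sup_eq_right.2 h3.1.2.le

lemma rk_lab_eq_zero {X : Set M} (hX : Adm X) (σ : Cell M) : rk (lab X σ.s) = 0 ↔ σ.s ⊆ X := by
  rw [(lab_pgood hX.st σ).rk_eq_zero, lab_empty hX]

lemma lab_nest {X X' : Set M} (hX : Adm X) (h : X ⊆ X') (s : Set M) :
    Nest (lab X s) (lab X' s) := by
  rintro q ⟨h1, h2, l, c, h3, h4, h5⟩
  obtain ⟨c0, hc0⟩ := hX.exists_top q.2
  have hle : l ⊔ c0 ≤ q.1 := by
    rw [h5]
    exact sup_le le_sup_left ((h4.2 ⟨h hc0.1.1, hc0.1.2⟩).trans le_sup_right)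
  have hq : q ∈ lab X' s := ⟨h1, h2, l, c, h3, h4, h5⟩
  exact ⟨(l ⊔ c0, q.2), ⟨h1, (hle.trans_lt (lab_lt hq)).ne, l, c0, h3, hc0, rfl⟩, rfl, hle⟩

/-- The rank decreases when the admissible set grows; labels of equal rank agree. -/
theorem lab_mono {X X' : Set M} (hX : Adm X) (hX' : Adm X') (h : X ⊆ X') (σ : Cell M) :
    rk (lab X' σ.s) ≤ rk (lab X σ.s) ∧
      (rk (lab X' σ.s) = rk (lab X σ.s) → lab X' σ.s = lab X σ.s) := by
  have hN := lab_nest hX h σ.s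
  have hP := lab_pgood hX.st σ
  have hQ := lab_pgood hX'.st σ
  have key := rk_rel hP hQ (fun q p => q ∈ lab X' σ.s ∧ p ∈ lab X σ.s ∧ p.2 = q.2 ∧ p.1 ≤ q.1) ?_
    ?_ ?_ ?_ ?_ ?_
  · refine ⟨key.1, fun heq => ?_⟩
    obtain ⟨k1, k2⟩ := key.2 heq
    have e : ∀ q p : M × M, q ∈ lab X' σ.s → p ∈ lab X σ.s → p.2 = q.2 → p.1 ≤ q.1 → q = p := by
      intro q p hq hp h1 h2
      have h3 := k2 q hq p hp ⟨hq, hp, h1, h2⟩
      have l1 := ShL.ht_lt _ _ (lab_lt hq)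
      have l2 := ShL.ht_lt _ _ (lab_lt hp)
      unfold wt at h3
      rw [h1] at h3 l2
      exact Prod.ext (eq_of_ht h2 (by omega)).symm h1.symm
    ext p
    constructor
    · intro hp
      obtain ⟨p', hp', h1, h2⟩ := hN p hp
      rw [e p p' hp hp' h1 h2]
      exact hp'
    · intro hp
      obtain ⟨q, hq, -, -, h1, h2⟩ := k1 p hp
      rw [← e q p hq hp h1 h2]
      exact hq
  · intro q hq
    obtain ⟨p, hp, h1, h2⟩ := hN q hq
    exact ⟨p, hp, hq, hp, h1, h2⟩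
  · rintro q p p' ⟨-, hp, h1, -⟩ ⟨-, hp', h1', -⟩
    exact lab_uni hp hp' (h1.trans h1'.symm)
  · rintro q q' p ⟨hq, -, h1, -⟩ ⟨hq', -, h1', -⟩
    exact lab_uni hq hq' (h1.symm.trans h1')
  · rintro q p ⟨hq, hp, h1, h2⟩
    exact ⟨(hQ.st q).2 hq, (hP.st p).2 hp, by simp only [h1], ShL.sh_mono _ _ h2⟩
  · rintro q p ⟨hq, hp, h1, h2⟩
    refine ⟨?_, ?_, by simp only [h1], ShL.shi_mono _ _ h2⟩
    · rw [← hQ.st]; simpa only [ShL.sh_shi] using hq
    · rw [← hP.st]; simpa only [ShL.sh_shi] using hp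
  · rintro q hq p hp ⟨-, -, h1, h2⟩
    unfold wt
    have := ht_le h2
    rw [h1]
    omega

end Pool.Agent.GLA
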